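import Mathlib

/-!
# The large sieve inequality with multiplicity

`e x` is the standard character on `ℝ/ℤ`, `expSum s f x = ∑ n ∈ s, f n * e (n • x)`.
Main result: `large_sieve`.
-/

namespace LSieve

open Finset

/-- The standard additive character `e(x) = exp(2 π i x)` on `ℝ/ℤ`. -/
noncomputable def e (x : UnitAddCircle) : ℂ := (AddCircle.toCircle x : ℂ)

lemma e_add (x y : UnitAddCircle) : e (x + y) = e x * e y := by
  simp [e, AddCircle.toCircle_add]

@[simp] lemma e_zero : e 0 = 1 := by simp [e]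

@[simp] lemma norm_e (x : UnitAddCircle) : ‖e x‖ = 1 := Circle.norm_coe _

lemma e_ne_zero (x : UnitAddCircle) : e x ≠ 0 := by
  intro h; have := norm_e x; rw [h] at this; simp at this

lemma e_nsmul (n : ℕ) (x : UnitAddCircle) : e (n • x) = e x ^ n := by
  simp [e, AddCircle.toCircle_nsmul]

lemma e_neg (x : UnitAddCircle) : e (-x) = (starRingEnd ℂ) (e x) := by
  have h : e x * e (-x) = 1 := by rw [← e_add]; simp
  have h2 : e x * (starRingEnd ℂ) (e x) = 1 := by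
    rw [Complex.mul_conj, Complex.normSq_eq_norm_sq]; simp
  exact mul_left_cancel₀ (e_ne_zero x) (h.trans h2.symm)

lemma e_sub (x y : UnitAddCircle) : e (x - y) = e x * (starRingEnd ℂ) (e y) := by
  rw [sub_eq_add_neg, e_add, e_neg]

lemma e_coe (t : ℝ) : e (t : UnitAddCircle) = Complex.exp (2 * Real.pi * t * Complex.I) := by
  simp [e, AddCircle.toCircle_apply_mk, Circle.coe_exp]

lemma continuous_e : Continuous e := by
  unfold e
  exact continuous_subtype_val.comp AddCircle.continuous_toCircle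

/-- Every point of the circle has a representative with `|t| = ‖x‖`. -/
lemma exists_rep (x : UnitAddCircle) : ∃ t : ℝ, (t : UnitAddCircle) = x ∧ |t| = ‖x‖ := by
  induction x using QuotientAddGroup.induction_on with
  | H z =>
    refine ⟨z - round z, ?_, ?_⟩
    · have h : ((round z : ℝ) : UnitAddCircle) = 0 := by
        rw [AddCircle.coe_eq_zero_iff]
        exact ⟨round z, by simp⟩
      rw [AddCircle.coe_sub, h, sub_zero]
    · exact (UnitAddCircle.norm_eq (x := z)).symm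

lemma norm_le_half (x : UnitAddCircle) : ‖x‖ ≤ 1 / 2 := by
  have := AddCircle.norm_le_half_period (p := (1 : ℝ)) (x := x) one_ne_zero
  simpa using this

lemma norm_coe_le (t : ℝ) : ‖(t : UnitAddCircle)‖ ≤ |t| := by
  rw [UnitAddCircle.norm_eq]
  simpa using round_le t 0

/-- `|e(x) - 1| ≥ 4 ‖x‖`. -/
lemma four_mul_norm_le (x : UnitAddCircle) : 4 * ‖x‖ ≤ ‖e x - 1‖ := by
  obtain ⟨t, rfl, ht⟩ := exists_rep x
  rw [← ht]
  have h1 : ‖e (t : UnitAddCircle) - 1‖ = |2 * Real.sin (Real.pi * t)| := by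
    rw [e_coe]
    have := Complex.norm_exp_I_mul_ofReal_sub_one (2 * Real.pi * t)
    rw [show (2 * Real.pi * t * Complex.I : ℂ) = Complex.I * ((2 * Real.pi * t : ℝ) : ℂ) by
      push_cast; ring, this]
    rw [Real.norm_eq_abs]
    congr 2
    ring_nf
  rw [h1]
  have ht2 : |t| ≤ 1 / 2 := ht ▸ norm_le_half _
  have hpi := Real.pi_pos
  have h2 : 2 / Real.pi * |Real.pi * t| ≤ |Real.sin (Real.pi * t)| := by
    apply Real.mul_abs_le_abs_sin
    rw [abs_mul, abs_of_pos hpi]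
    nlinarith
  rw [abs_mul, abs_of_pos hpi] at h2
  rw [abs_mul, abs_two]
  have h3 : 2 / Real.pi * (Real.pi * |t|) = 2 * |t| := by field_simp
  linarith

/-- `|e(x) - 1| ≤ 2 π ‖x‖`. -/
lemma norm_e_sub_one_le (x : UnitAddCircle) : ‖e x - 1‖ ≤ 2 * Real.pi * ‖x‖ := by
  obtain ⟨t, rfl, ht⟩ := exists_rep x
  rw [← ht, e_coe]
  have := Complex.norm_exp_I_mul_ofReal_sub_one (2 * Real.pi * t)
  rw [show (2 * Real.pi * t * Complex.I : ℂ) = Complex.I * ((2 * Real.pi * t : ℝ) : ℂ) by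
      push_cast; ring, this]
  rw [Real.norm_eq_abs, abs_mul, abs_two]
  have h := Real.abs_sin_le_abs (x := 2 * Real.pi * t / 2)
  rw [show 2 * Real.pi * t / 2 = Real.pi * t by ring] at h ⊢
  rw [abs_mul, abs_of_pos Real.pi_pos] at h
  nlinarith

/-- Exponential sums. -/
noncomputable def expSum (s : Finset ℤ) (f : ℤ → ℂ) (x : UnitAddCircle) : ℂ :=
  ∑ n ∈ s, f n * e (n • x)

/-- The Dirichlet kernel. -/
noncomputable def dker (H : ℕ) (x : UnitAddCircle) : ℂ := ∑ a ∈ range H, e (a • x)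

lemma norm_dker_le (H : ℕ) (x : UnitAddCircle) : ‖dker H x‖ ≤ H := by
  unfold dker
  refine (norm_sum_le _ _).trans ?_
  simp

lemma norm_dker_mul_le (H : ℕ) (x : UnitAddCircle) : ‖dker H x‖ * (2 * ‖x‖) ≤ 1 := by
  have h1 : dker H x * (e x - 1) = e x ^ H - 1 := by
    unfold dker
    simp_rw [e_nsmul]
    exact geom_sum_mul _ _
  have h2 : ‖dker H x‖ * ‖e x - 1‖ ≤ 2 := by
    rw [← norm_mul, h1]
    refine (norm_sub_le _ _).trans ?_
    simp [norm_pow]
    norm_num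
  have h3 := four_mul_norm_le x
  have h4 : 0 ≤ ‖dker H x‖ := norm_nonneg _
  nlinarith

lemma dker_neg (H : ℕ) (x : UnitAddCircle) : dker H (-x) = (starRingEnd ℂ) (dker H x) := by
  unfold dker
  rw [map_sum]
  refine sum_congr rfl fun a _ => ?_
  rw [smul_neg, e_neg]

lemma norm_dker_neg (H : ℕ) (x : UnitAddCircle) : ‖dker H (-x)‖ = ‖dker H x‖ := by
  rw [dker_neg]; simp

/-- One-sided shell bound. -/
lemma shell_aux {ι : Type*} (P : Finset ι) (x : ι → UnitAddCircle) (y : UnitAddCircle)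
    (τ : ι → ℝ) (H R : ℕ) (hH : 0 < H)
    (hτ : ∀ j ∈ P, τ j = ‖x j - y‖)
    (hd : ∀ i ∈ P, ∀ j ∈ P, ‖x j - x i‖ ≤ |τ j - τ i|)
    (hR : ∀ i ∈ P, #{j ∈ P | ‖x j - x i‖ < 1 / (H : ℝ)} ≤ R) :
    ∑ j ∈ P, ‖dker (2 * H) (x j - y)‖ ^ 2 ≤ 9 / 2 * R * (H : ℝ) ^ 2 := by
  classical
  have hH' : (0 : ℝ) < H := by exact_mod_cast hH
  set k : ι → ℕ := fun j => ⌊(H : ℝ) * τ j⌋₊ with hk
  have hτ0 : ∀ j ∈ P, 0 ≤ τ j := fun j hj => by rw [hτ j hj]; positivity
  have hmaps : ∀ j ∈ P, k j ∈ range (H + 1) := by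
    intro j hj
    rw [mem_range, Nat.lt_succ_iff]
    have h1 : (H : ℝ) * τ j ≤ H := by
      have : τ j ≤ 1 := by rw [hτ j hj]; linarith [norm_le_half (x j - y)]
      nlinarith
    exact Nat.floor_le_of_le h1
  rw [← sum_fiberwise_of_maps_to hmaps]
  set b : ℕ → ℝ := fun m => (H : ℝ) ^ 2 * (if m = 0 then 4 else (1 / 4) * ((m : ℝ) ^ 2)⁻¹) with hb
  have hfib : ∀ m ∈ range (H + 1),
      ∑ j ∈ P with k j = m, ‖dker (2 * H) (x j - y)‖ ^ 2 ≤ R * b m := by
    intro m _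
    have hcard : #{j ∈ P | k j = m} ≤ R := by
      rcases Finset.eq_empty_or_nonempty {j ∈ P | k j = m} with h0 | ⟨i, hi⟩
      · rw [h0]; simp
      · rw [mem_filter] at hi
        refine (card_le_card ?_).trans (hR i hi.1)
        intro j hj
        rw [mem_filter] at hj ⊢
        refine ⟨hj.1, (hd i hi.1 j hj.1).trans_lt ?_⟩
        have e1 := Nat.floor_le (mul_nonneg hH'.le (hτ0 j hj.1))
        have e2 := Nat.lt_floor_add_one ((H : ℝ) * τ j)
        have e3 := Nat.floor_le (mul_nonneg hH'.le (hτ0 i hi.1))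
        have e4 := Nat.lt_floor_add_one ((H : ℝ) * τ i)
        have e5 : (⌊(H : ℝ) * τ j⌋₊ : ℝ) = m := by exact_mod_cast hj.2
        have e6 : (⌊(H : ℝ) * τ i⌋₊ : ℝ) = m := by exact_mod_cast hi.2
        rw [e5] at e1 e2
        rw [e6] at e3 e4
        rw [abs_lt, lt_div_iff₀ hH']
        constructor
        · rw [neg_lt, ← sub_pos]
          have : 0 < (1 - (τ i - τ j) * H) / H := by
            apply div_pos _ hH'; nlinarith
          have h7 : (1 - (τ i - τ j) * H) / H = 1 / H - -(τ j - τ i) := by field_simp; ring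
          rwa [h7] at this
        · nlinarith
    have hbd : ∀ j ∈ P.filter (fun j => k j = m), ‖dker (2 * H) (x j - y)‖ ^ 2 ≤ b m := by
      intro j hj
      rw [mem_filter] at hj
      rw [hb]
      dsimp only
      split_ifs with h0
      · have := norm_dker_le (2 * H) (x j - y)
        push_cast at this
        nlinarith [norm_nonneg (dker (2 * H) (x j - y))]
      · have e1 := Nat.floor_le (mul_nonneg hH'.le (hτ0 j hj.1))
        have e5 : (⌊(H : ℝ) * τ j⌋₊ : ℝ) = m := by exact_mod_cast hj.2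
        rw [e5] at e1
        have hm : (0 : ℝ) < m := by exact_mod_cast Nat.pos_of_ne_zero h0
        have h2 := norm_dker_mul_le (2 * H) (x j - y)
        rw [← hτ j hj.1] at h2
        have h3 : ‖dker (2 * H) (x j - y)‖ * (2 * (m / H)) ≤ 1 := by
          refine le_trans ?_ h2
          have : (m : ℝ) / H ≤ τ j := by rw [div_le_iff₀ hH']; linarith
          have := norm_nonneg (dker (2 * H) (x j - y))
          gcongr
        have h4 : ‖dker (2 * H) (x j - y)‖ ≤ H / (2 * m) := by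
          rw [le_div_iff₀ (by positivity)]
          have h5 : ‖dker (2 * H) (x j - y)‖ * (2 * (m / H)) * H =
            ‖dker (2 * H) (x j - y)‖ * (2 * m) := by field_simp
          rw [← h5]
          nlinarith
        calc ‖dker (2 * H) (x j - y)‖ ^ 2 ≤ (H / (2 * m)) ^ 2 := by gcongr
          _ = _ := by field_simp; ring
    calc ∑ j ∈ P with k j = m, ‖dker (2 * H) (x j - y)‖ ^ 2
        ≤ ∑ j ∈ P with k j = m, b m := sum_le_sum hbd
      _ = #{j ∈ P | k j = m} * b m := by rw [sum_const, nsmul_eq_mul]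
      _ ≤ R * b m := by
          have : 0 ≤ b m := by rw [hb]; dsimp only; split_ifs <;> positivity
          have : (#{j ∈ P | k j = m} : ℝ) ≤ R := by exact_mod_cast hcard
          gcongr
  refine (sum_le_sum hfib).trans ?_
  rw [← mul_sum]
  have hsum : ∑ m ∈ range (H + 1), b m ≤ (H : ℝ) ^ 2 * (9 / 2) := by
    rw [hb, ← mul_sum]
    gcongr
    rw [sum_range_succ']
    simp only [Nat.succ_ne_zero, if_false, if_true, ← mul_sum]
    have h1 := sum_Ioo_inv_sq_le (α := ℝ) 0 (H + 1)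
    have h2 : ∑ i ∈ range H, (((i + 1 : ℕ) : ℝ) ^ 2)⁻¹ = ∑ i ∈ Ioo 0 (H + 1), ((i : ℝ) ^ 2)⁻¹ := by
      rw [show Ioo 0 (H + 1) = Ico 1 (H + 1) by ext; simp [Nat.succ_le_iff], sum_Ico_eq_sum_range]
      simp [add_comm]
    rw [h2]
    norm_num at h1 ⊢
    linarith
  have hR0 : (0 : ℝ) ≤ R := Nat.cast_nonneg _
  calc (R : ℝ) * ∑ m ∈ range (H + 1), b m ≤ R * ((H : ℝ) ^ 2 * (9 / 2)) := by gcongr
    _ = _ := by ring

lemma shell {ι : Type*} (S : Finset ι) (x : ι → UnitAddCircle) (y : UnitAddCircle)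
    (H R : ℕ) (hH : 0 < H)
    (hR : ∀ i ∈ S, #{j ∈ S | ‖x j - x i‖ < 1 / (H : ℝ)} ≤ R) :
    ∑ j ∈ S, ‖dker (2 * H) (x j - y)‖ ^ 2 ≤ 9 * R * (H : ℝ) ^ 2 := by
  classical
  choose t ht using fun j => exists_rep (x j - y)
  have hx : ∀ i j, ‖x j - x i‖ ≤ |t j - t i| := by
    intro i j
    have : x j - x i = ((t j - t i : ℝ) : UnitAddCircle) := by
      rw [AddCircle.coe_sub, (ht j).1, (ht i).1]; abel
    rw [this]
    exact norm_coe_le _
  rw [← sum_filter_add_sum_filter_not S (fun j => 0 ≤ t j)]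
  have hsub : ∀ (p : ι → Prop) [DecidablePred p], ∀ i ∈ S.filter p,
      #{j ∈ S.filter p | ‖x j - x i‖ < 1 / (H : ℝ)} ≤ R := by
    intro p _ i hi
    refine (card_le_card ?_).trans (hR i (mem_filter.1 hi).1)
    exact filter_subset_filter _ (filter_subset _ _)
  have h1 := shell_aux (S.filter (fun j => 0 ≤ t j)) x y t H R hH
    (by intro j hj; rw [mem_filter] at hj; rw [← (ht j).2, abs_of_nonneg hj.2])
    (fun i _ j _ => hx i j) (hsub _)
  have h2 := shell_aux (S.filter (fun j => ¬ 0 ≤ t j)) x y (fun j => - t j) H R hH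
    (by
      intro j hj; rw [mem_filter] at hj
      rw [← (ht j).2, abs_of_neg (lt_of_not_ge hj.2)])
    (fun i _ j _ => by
      refine (hx i j).trans ?_
      rw [abs_sub_comm]
      refine le_of_eq ?_
      congr 1; ring) (hsub _)
  linarith

/-- Dual form of the large sieve. -/
lemma dual_large_sieve {ι : Type*} (S : Finset ι) (x : ι → UnitAddCircle) (H R : ℕ) (hH : 0 < H)
    (hR : ∀ i ∈ S, #{j ∈ S | ‖x j - x i‖ < 1 / (H : ℝ)} ≤ R) (A : ℤ) (c : ι → ℂ) :
    ∑ n ∈ Ico A (A + H), ‖∑ i ∈ S, c i * e (n • x i)‖ ^ 2 ≤ 9 * R * H * ∑ i ∈ S, ‖c i‖ ^ 2 := by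
  classical
  have hH' : (0 : ℝ) < H := by exact_mod_cast hH
  set G : ℤ → ℝ := fun n => ‖∑ i ∈ S, c i * e (n • x i)‖ ^ 2 with hG
  have hG0 : ∀ n, 0 ≤ G n := fun n => by positivity
  -- step 1
  have step1 : (H : ℝ) * ∑ n ∈ Ico A (A + H), G n ≤
      ∑ p ∈ range (2 * H) ×ˢ range (2 * H), G (A + p.1 - p.2) := by
    have e1 : ∑ n ∈ Ico A (A + H), G n = ∑ m ∈ range H, G (A + m) := by
      have : Ico A (A + H) = (range H).image (fun m : ℕ => A + (m : ℤ)) := by
        ext n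
        simp only [mem_Ico, mem_image, mem_range]
        constructor
        · rintro ⟨h1, h2⟩
          exact ⟨(n - A).toNat, by omega, by omega⟩
        · rintro ⟨m, hm, rfl⟩
          omega
      rw [this, sum_image]
      intro a _ b _ hab
      simpa using hab
    have e2 : (H : ℝ) * ∑ n ∈ Ico A (A + H), G n =
        ∑ p ∈ range H ×ˢ range H, G (A + ((p.1 + p.2 : ℕ) : ℤ) - (p.2 : ℤ)) := by
      rw [e1, sum_product, mul_sum]
      refine sum_congr rfl fun m _ => ?_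
      simp only
      rw [sum_congr rfl (g := fun _ => G (A + m))]
      · rw [sum_const, card_range, nsmul_eq_mul]
      · intro b _
        congr 1
        push_cast
        ring
    rw [e2]
    have e3 : ∑ p ∈ range H ×ˢ range H, G (A + ((p.1 + p.2 : ℕ) : ℤ) - (p.2 : ℤ)) =
        ∑ q ∈ (range H ×ˢ range H).image (fun p : ℕ × ℕ => (p.1 + p.2, p.2)),
          G (A + (q.1 : ℤ) - (q.2 : ℤ)) := by
      rw [sum_image]
      rintro ⟨a, b⟩ _ ⟨c, d⟩ _ h
      simp only [Prod.mk.injEq] at h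
      ext <;> simp <;> omega
    rw [e3]
    refine sum_le_sum_of_subset_of_nonneg ?_ (fun q _ _ => hG0 _)
    intro q hq
    simp only [mem_image, mem_product, mem_range, Prod.exists] at hq ⊢
    obtain ⟨a, b, ⟨h1, h2⟩, rfl⟩ := hq
    simp only
    omega
  -- step 2
  have step2 : ((∑ p ∈ range (2 * H) ×ˢ range (2 * H), G (A + p.1 - p.2) : ℝ) : ℂ) =
      ∑ i ∈ S, ∑ j ∈ S, c i * (starRingEnd ℂ) (c j) * e (A • (x i - x j)) *
        (dker (2 * H) (x i - x j) * (starRingEnd ℂ) (dker (2 * H) (x i - x j))) := by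
    have e1 : ∀ n : ℤ, (G n : ℂ) = ∑ i ∈ S, ∑ j ∈ S,
        c i * (starRingEnd ℂ) (c j) * e (n • (x i - x j)) := by
      intro n
      rw [hG]
      dsimp only
      rw [← Complex.normSq_eq_norm_sq, ← Complex.mul_conj, map_sum, sum_mul_sum]
      refine sum_congr rfl fun i _ => sum_congr rfl fun j _ => ?_
      rw [smul_sub, e_sub, map_mul]
      ring
    rw [Complex.ofReal_sum]
    simp_rw [e1]
    rw [sum_comm]
    refine sum_congr rfl fun i _ => ?_
    rw [sum_comm]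
    refine sum_congr rfl fun j _ => ?_
    rw [← mul_sum]
    rw [show c i * (starRingEnd ℂ) (c j) * e (A • (x i - x j)) *
        (dker (2 * H) (x i - x j) * (starRingEnd ℂ) (dker (2 * H) (x i - x j))) =
        c i * (starRingEnd ℂ) (c j) * (e (A • (x i - x j)) *
        (dker (2 * H) (x i - x j) * (starRingEnd ℂ) (dker (2 * H) (x i - x j)))) by ring]
    congr 1
    unfold dker
    rw [map_sum, sum_mul_sum, ← sum_product', mul_sum]
    refine sum_congr rfl fun p _ => ?_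
    rw [show (A + (p.1 : ℤ) - (p.2 : ℤ)) • (x i - x j) =
      A • (x i - x j) + (p.1 • (x i - x j) - p.2 • (x i - x j)) by
        rw [← natCast_zsmul, ← natCast_zsmul, ← sub_smul, ← add_smul]; congr 1; ring]
    rw [e_add, e_sub]
  have step3 : ∑ p ∈ range (2 * H) ×ˢ range (2 * H), G (A + p.1 - p.2) ≤
      9 * R * (H : ℝ) ^ 2 * ∑ i ∈ S, ‖c i‖ ^ 2 := by
    have h0 : 0 ≤ ∑ p ∈ range (2 * H) ×ˢ range (2 * H), G (A + p.1 - p.2) :=
      sum_nonneg fun p _ => hG0 _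
    have h1 : ∑ p ∈ range (2 * H) ×ˢ range (2 * H), G (A + p.1 - p.2) =
        ‖((∑ p ∈ range (2 * H) ×ˢ range (2 * H), G (A + p.1 - p.2) : ℝ) : ℂ)‖ := by
      rw [Complex.norm_real, Real.norm_of_nonneg h0]
    rw [h1, step2]
    have h2 : ‖∑ i ∈ S, ∑ j ∈ S, c i * (starRingEnd ℂ) (c j) * e (A • (x i - x j)) *
        (dker (2 * H) (x i - x j) * (starRingEnd ℂ) (dker (2 * H) (x i - x j)))‖ ≤
        ∑ i ∈ S, ∑ j ∈ S, ‖c i‖ * ‖c j‖ * ‖dker (2 * H) (x i - x j)‖ ^ 2 := by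
      refine (norm_sum_le _ _).trans (sum_le_sum fun i _ => (norm_sum_le _ _).trans
        (sum_le_sum fun j _ => ?_))
      simp only [norm_mul, norm_e, RCLike.norm_conj]
      apply le_of_eq; ring
    have h3 : ∑ i ∈ S, ∑ j ∈ S, ‖c i‖ * ‖c j‖ * ‖dker (2 * H) (x i - x j)‖ ^ 2 ≤
        ∑ i ∈ S, ∑ j ∈ S, (‖c i‖ ^ 2 / 2 * ‖dker (2 * H) (x i - x j)‖ ^ 2 +
          ‖c j‖ ^ 2 / 2 * ‖dker (2 * H) (x i - x j)‖ ^ 2) := by
      refine sum_le_sum fun i _ => sum_le_sum fun j _ => ?_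
      rw [← add_mul]
      have := two_mul_le_add_sq ‖c i‖ ‖c j‖
      gcongr
      linarith
    have h4 : ∑ i ∈ S, ∑ j ∈ S, (‖c i‖ ^ 2 / 2 * ‖dker (2 * H) (x i - x j)‖ ^ 2 +
          ‖c j‖ ^ 2 / 2 * ‖dker (2 * H) (x i - x j)‖ ^ 2) =
          ∑ i ∈ S, ‖c i‖ ^ 2 * ∑ j ∈ S, ‖dker (2 * H) (x j - x i)‖ ^ 2 := by
      simp_rw [sum_add_distrib]
      have h5 : ∑ i ∈ S, ∑ j ∈ S, ‖c i‖ ^ 2 / 2 * ‖dker (2 * H) (x i - x j)‖ ^ 2 =
          ∑ i ∈ S, ∑ j ∈ S, ‖c i‖ ^ 2 / 2 * ‖dker (2 * H) (x j - x i)‖ ^ 2 := by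
        refine sum_congr rfl fun i _ => sum_congr rfl fun j _ => ?_
        rw [← norm_dker_neg, neg_sub]
      have h6 : ∑ i ∈ S, ∑ j ∈ S, ‖c j‖ ^ 2 / 2 * ‖dker (2 * H) (x i - x j)‖ ^ 2 =
          ∑ i ∈ S, ∑ j ∈ S, ‖c i‖ ^ 2 / 2 * ‖dker (2 * H) (x j - x i)‖ ^ 2 := sum_comm
      rw [h5, h6, ← two_mul, mul_sum]
      refine sum_congr rfl fun i _ => ?_
      rw [mul_sum, mul_sum]
      refine sum_congr rfl fun j _ => ?_
      ring
    refine h2.trans (h3.trans (h4.trans_le ?_))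
    rw [mul_sum]
    refine sum_le_sum fun i _ => ?_
    have := shell S x (x i) H R hH hR
    nlinarith [sq_nonneg ‖c i‖]
  have h := step1.trans step3
  have h7 : (H : ℝ) * ∑ n ∈ Ico A (A + H), G n ≤ H * (9 * R * H * ∑ i ∈ S, ‖c i‖ ^ 2) := by
    refine h.trans (le_of_eq ?_); ring
  exact le_of_mul_le_mul_left h7 hH'

/-- **Large sieve inequality with multiplicity.** If every ball of radius `1/H` centred at one of
the points contains at most `R` of them, then the mean square of an exponential sum of length `H`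
over the points is at most `9 R H` times the square norm of the coefficients. -/
theorem large_sieve {ι : Type*} (S : Finset ι) (x : ι → UnitAddCircle) (H R : ℕ) (hH : 0 < H)
    (hR : ∀ i ∈ S, #{j ∈ S | ‖x j - x i‖ < 1 / (H : ℝ)} ≤ R) (A : ℤ) (s : Finset ℤ)
    (hs : s ⊆ Ico A (A + H)) (f : ℤ → ℂ) :
    ∑ i ∈ S, ‖expSum s f (x i)‖ ^ 2 ≤ 9 * R * H * ∑ n ∈ s, ‖f n‖ ^ 2 := by
  classical
  set T : ℝ := ∑ i ∈ S, ‖expSum s f (x i)‖ ^ 2 with hT
  have hT0 : 0 ≤ T := sum_nonneg fun i _ => by positivity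
  set c : ι → ℂ := fun i => (starRingEnd ℂ) (expSum s f (x i)) with hc
  have h1 : (T : ℂ) = ∑ n ∈ s, f n * ∑ i ∈ S, c i * e (n • x i) := by
    rw [hT, Complex.ofReal_sum]
    simp_rw [mul_sum]
    rw [sum_comm]
    refine sum_congr rfl fun i _ => ?_
    rw [← Complex.normSq_eq_norm_sq, ← Complex.mul_conj]
    rw [show expSum s f (x i) * (starRingEnd ℂ) (expSum s f (x i)) =
      expSum s f (x i) * c i by rw [hc]]
    rw [expSum, sum_mul]
    refine sum_congr rfl fun n _ => ?_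
    ring
  have h2 : T ≤ ∑ n ∈ s, ‖f n‖ * ‖∑ i ∈ S, c i * e (n • x i)‖ := by
    rw [show T = ‖(T : ℂ)‖ by rw [Complex.norm_real, Real.norm_of_nonneg hT0], h1]
    refine (norm_sum_le _ _).trans (sum_le_sum fun n _ => ?_)
    rw [norm_mul]
  have h3 := sum_mul_sq_le_sq_mul_sq s (fun n => ‖f n‖) (fun n => ‖∑ i ∈ S, c i * e (n • x i)‖)
  have h4 : ∑ n ∈ s, ‖∑ i ∈ S, c i * e (n • x i)‖ ^ 2 ≤ 9 * R * H * T := by
    calc ∑ n ∈ s, ‖∑ i ∈ S, c i * e (n • x i)‖ ^ 2
        ≤ ∑ n ∈ Ico A (A + H), ‖∑ i ∈ S, c i * e (n • x i)‖ ^ 2 :=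
          sum_le_sum_of_subset_of_nonneg hs (fun _ _ _ => by positivity)
      _ ≤ 9 * R * H * ∑ i ∈ S, ‖c i‖ ^ 2 := dual_large_sieve S x H R hH hR A c
      _ = _ := by simp [hT, hc]
  have h5 : T ^ 2 ≤ (∑ n ∈ s, ‖f n‖ ^ 2) * (9 * R * H * T) := by
    calc T ^ 2 ≤ (∑ n ∈ s, ‖f n‖ * ‖∑ i ∈ S, c i * e (n • x i)‖) ^ 2 := by gcongr
      _ ≤ _ := h3
      _ ≤ _ := by gcongr
  rcases hT0.eq_or_lt with h0 | h0
  · rw [← h0]; positivity
  · have : T * T ≤ T * (9 * R * H * ∑ n ∈ s, ‖f n‖ ^ 2) := by nlinarith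
    exact le_of_mul_le_mul_left this h0

end LSieve
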