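import Mathlib

/-!
# Partial summation
-/

namespace LSieve

open Finset

/-- Abel summation bound. -/
lemma abel_bound (a : ℕ → ℝ) (z : ℂ) (hz : ‖z‖ = 1) (T X : ℕ) (hTX : T ≤ X) (η : ℝ)
    (hη : ∀ x, T ≤ x → x ≤ X → |∑ t ∈ Ioc T x, a t| ≤ η) :
    ‖∑ t ∈ Ioc T X, (a t : ℂ) * z ^ t‖ ≤ η * (1 + (X - T : ℝ) * ‖z - 1‖) := by
  have key : ∀ X, T ≤ X → ∑ t ∈ Ioc T X, (a t : ℂ) * z ^ t =
      ((∑ t ∈ Ioc T X, a t : ℝ) : ℂ) * z ^ X -
        ∑ t ∈ Ico T X, ((∑ s ∈ Ioc T t, a s : ℝ) : ℂ) * (z ^ t * (z - 1)) := by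
    intro X hX
    induction X, hX using Nat.le_induction with
    | base => simp
    | succ m hm ih =>
      have h1 : Ioc T (m + 1) = insert (m + 1) (Ioc T m) := by
        ext t; simp only [mem_Ioc, mem_insert]; omega
      have h2 : Ico T (m + 1) = insert m (Ico T m) := by
        ext t; simp only [mem_Ico, mem_insert]; omega
      rw [h1, h2, sum_insert (by simp), sum_insert (by simp), sum_insert (by simp), ih]
      push_cast
      ring
  rw [key X hTX]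
  refine (norm_sub_le _ _).trans ?_
  have h1 : ‖((∑ t ∈ Ioc T X, a t : ℝ) : ℂ) * z ^ X‖ ≤ η := by
    rw [norm_mul, norm_pow, hz, one_pow, mul_one, Complex.norm_real]
    exact hη X hTX le_rfl
  have h2 : ‖∑ t ∈ Ico T X, ((∑ s ∈ Ioc T t, a s : ℝ) : ℂ) * (z ^ t * (z - 1))‖ ≤
      (X - T : ℝ) * (η * ‖z - 1‖) := by
    refine (norm_sum_le _ _).trans ?_
    calc ∑ t ∈ Ico T X, ‖((∑ s ∈ Ioc T t, a s : ℝ) : ℂ) * (z ^ t * (z - 1))‖
        ≤ ∑ t ∈ Ico T X, η * ‖z - 1‖ := by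
          refine sum_le_sum fun t ht => ?_
          rw [mem_Ico] at ht
          rw [norm_mul, norm_mul, norm_pow, hz, one_pow, one_mul, Complex.norm_real]
          exact mul_le_mul_of_nonneg_right (hη t ht.1 ht.2.le) (norm_nonneg _)
      _ = _ := by
          rw [sum_const, Nat.card_Ico, nsmul_eq_mul, Nat.cast_sub hTX]
  linarith

end LSieve
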