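import Pool.Agent.LibLargeSieve.ErrorBound

/-!
# Weighted count of `q = p + 2 ℓ t` and its Fourier expansion
-/

namespace LSieve

open Finset Filter Topology

/-- Weighted number of solutions of `q = p + 2 ℓ t`. -/
noncomputable def Cnt (n : ℕ) (P P' : Finset ℕ) (k : ℕ → ℝ) : ℝ :=
  ∑ l ∈ PL n, ∑ t ∈ Ioc (n ^ 24) (6 * n ^ 24), ∑ p ∈ P, ∑ q ∈ P',
    if q = p + 2 * l * t then Real.log l * k t * Real.log p * Real.log q else 0

theorem fourier_Cnt (n : ℕ) (hn : 0 < n) (P P' : Finset ℕ) (k : ℕ → ℝ)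
    (hP : P ⊆ Ioc (4 * n ^ 32) (2 * (4 * n ^ 32)))
    (hP' : P' ⊆ Ioc (3 * (4 * n ^ 32)) (4 * (4 * n ^ 32))) :
    ((8 * (4 * n ^ 32) : ℕ) : ℂ) * (Cnt n P P' k : ℂ) =
      ∑ r ∈ range (8 * (4 * n ^ 32)), FS P (pt (8 * (4 * n ^ 32)) r) *
        (starRingEnd ℂ) (FS P' (pt (8 * (4 * n ^ 32)) r)) *
        ∑ l ∈ PL n, (Real.log l : ℂ) *
          nsum (Ioc (n ^ 24) (6 * n ^ 24)) k ((2 * l) • pt (8 * (4 * n ^ 32)) r) := by
  set M0 := 8 * (4 * n ^ 32) with hM0
  have hM0pos : 0 < M0 := by positivity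
  have h1 : ∀ r : ℕ, FS P (pt M0 r) * (starRingEnd ℂ) (FS P' (pt M0 r)) *
      ∑ l ∈ PL n, (Real.log l : ℂ) * nsum (Ioc (n ^ 24) (6 * n ^ 24)) k ((2 * l) • pt M0 r) =
      ∑ l ∈ PL n, ∑ t ∈ Ioc (n ^ 24) (6 * n ^ 24), ∑ p ∈ P, ∑ q ∈ P',
        ((Real.log l * k t * Real.log p * Real.log q : ℝ) : ℂ) *
          e (((p : ℤ) - q + 2 * l * t) • pt M0 r) := by
    intro r
    unfold FS
    rw [nsum_conj]
    unfold nsum
    rw [mul_sum (PL n)]
    refine sum_congr rfl fun l _ => ?_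
    rw [mul_sum (Ioc (n ^ 24) (6 * n ^ 24)), mul_sum (Ioc (n ^ 24) (6 * n ^ 24))]
    refine sum_congr rfl fun t _ => ?_
    rw [sum_mul_sum, sum_mul]
    refine sum_congr rfl fun p _ => ?_
    rw [sum_mul]
    refine sum_congr rfl fun q _ => ?_
    have h2 : ((p : ℤ) - q + 2 * l * t) • pt M0 r =
        p • pt M0 r + (-(q • pt M0 r)) + t • ((2 * l) • pt M0 r) := by
      rw [add_smul, sub_smul, smul_smul]
      rw [show ((2 : ℤ) * l * t) = ((t * (2 * l) : ℕ) : ℤ) by push_cast; ring]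
      rw [natCast_zsmul, natCast_zsmul, natCast_zsmul]
      abel
    rw [h2, e_add, e_add]
    push_cast
    ring
  simp_rw [h1]
  rw [sum_comm (s := range M0)]
  unfold Cnt
  rw [Complex.ofReal_sum, mul_sum]
  refine sum_congr rfl fun l hl => ?_
  rw [sum_comm (s := range M0), Complex.ofReal_sum, mul_sum]
  refine sum_congr rfl fun t ht => ?_
  rw [sum_comm (s := range M0), Complex.ofReal_sum, mul_sum]
  refine sum_congr rfl fun p hp => ?_
  rw [sum_comm (s := range M0), Complex.ofReal_sum, mul_sum]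
  refine sum_congr rfl fun q hq => ?_
  rw [← mul_sum, sum_e_pt M0 hM0pos]
  have hiff : ((M0 : ℤ) ∣ ((p : ℤ) - q + 2 * l * t)) ↔ q = p + 2 * l * t := by
    have hl' := mem_Ioc.1 (PL_sub n hl)
    have ht' := mem_Ioc.1 ht
    have hp' := mem_Ioc.1 (hP hp)
    have hq' := mem_Ioc.1 (hP' hq)
    have hlt : 2 * l * t ≤ 6 * (4 * n ^ 32) := by
      calc 2 * l * t ≤ 2 * (2 * n ^ 8) * (6 * n ^ 24) := by
            apply Nat.mul_le_mul _ ht'.2
            exact Nat.mul_le_mul_left _ hl'.2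
        _ = _ := by ring
    constructor
    · rintro ⟨c, hc⟩
      have hlt' : ((2 * l * t : ℕ) : ℤ) ≤ 6 * (4 * n ^ 32) := by exact_mod_cast hlt
      push_cast at hlt'
      have hM0' : (M0 : ℤ) = 8 * (4 * (n : ℤ) ^ 32) := by rw [hM0]; push_cast; ring
      have hlt0 : (0 : ℤ) ≤ 2 * l * t := by positivity
      obtain ⟨hp1, hp2⟩ := hp'
      obtain ⟨hq1, hq2⟩ := hq'
      have hp1' : (4 * (n : ℤ) ^ 32) < p := by exact_mod_cast hp1
      have hp2' : (p : ℤ) ≤ 2 * (4 * (n : ℤ) ^ 32) := by exact_mod_cast hp2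
      have hq1' : 3 * (4 * (n : ℤ) ^ 32) < q := by exact_mod_cast hq1
      have hq2' : (q : ℤ) ≤ 4 * (4 * (n : ℤ) ^ 32) := by exact_mod_cast hq2
      have hc0 : c = 0 := by
        set N : ℤ := 4 * (n : ℤ) ^ 32
        have hN : 0 < N := by positivity
        rw [hM0'] at hc
        rcases lt_trichotomy c 0 with h | h | h
        · exfalso
          have : 8 * N * c ≤ 8 * N * (-1) := by
            apply mul_le_mul_of_nonneg_left _ (by positivity)
            omega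
          linarith
        · exact h
        · exfalso
          have : 8 * N * 1 ≤ 8 * N * c := by
            apply mul_le_mul_of_nonneg_left _ (by positivity)
            omega
          linarith
      rw [hc0, mul_zero] at hc
      have : (q : ℤ) = ((p + 2 * l * t : ℕ) : ℤ) := by push_cast; linarith
      exact_mod_cast this
    · rintro rfl
      refine ⟨0, ?_⟩
      push_cast; ring
  by_cases hd : q = p + 2 * l * t
  · rw [if_pos (hiff.2 hd), if_pos hd]; ring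
  · rw [if_neg (fun h => hd (hiff.1 h)), if_neg hd]; simp

/-- The contribution of `kw` is small. -/
theorem Cnt_kw_small (δ : ℝ) (hδ : 0 < δ) : ∃ w : ℕ, 1 ≤ w ∧ ∀ᶠ n : ℕ in atTop,
    ∀ P P' : Finset ℕ, Good n P → Good n P' →
      P ⊆ Ioc (4 * n ^ 32) (2 * (4 * n ^ 32)) →
      P' ⊆ Ioc (3 * (4 * n ^ 32)) (4 * (4 * n ^ 32)) →
      |Cnt n P P' (kw w.factorial)| ≤ δ * (4 * (n : ℝ) ^ 32) ^ 2 := by
  obtain ⟨w, hw, h⟩ := error_bound (8 * δ) (by positivity)
  refine ⟨w, hw, ?_⟩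
  filter_upwards [h, eventually_gt_atTop 0] with n hn hn0 P P' hP hP' hPI hP'I
  have h1 := hn P P' hP hP'
  have h2 := fourier_Cnt n hn0 P P' (kw w.factorial) hPI hP'I
  have h3 : ‖((8 * (4 * n ^ 32) : ℕ) : ℂ) * (Cnt n P P' (kw w.factorial) : ℂ)‖ ≤
      8 * δ * (4 * (n : ℝ) ^ 32) ^ 3 := by
    rw [h2]
    refine (norm_sum_le _ _).trans (le_trans (sum_le_sum fun r _ => ?_) h1)
    rw [norm_mul, norm_mul, RCLike.norm_conj]
    apply mul_le_mul_of_nonneg_left _ (by positivity)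
    refine (norm_sum_le _ _).trans (sum_le_sum fun l _ => ?_)
    rw [norm_mul, Complex.norm_real, Real.norm_of_nonneg (Real.log_natCast_nonneg l)]
  rw [norm_mul, Complex.norm_natCast, Complex.norm_real, Real.norm_eq_abs] at h3
  have hn0' : (0 : ℝ) < n := by exact_mod_cast hn0
  have h4 : (0 : ℝ) < 8 * (4 * (n : ℝ) ^ 32) := by positivity
  push_cast at h3
  have h5 : 8 * (4 * (n : ℝ) ^ 32) * |Cnt n P P' (kw w.factorial)| ≤
      8 * (4 * (n : ℝ) ^ 32) * (δ * (4 * (n : ℝ) ^ 32) ^ 2) := by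
    refine h3.trans (le_of_eq ?_); ring
  exact le_of_mul_le_mul_left h5 h4

end LSieve
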