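import Pool.Agent.LibLargeSieve.MainTerm2
import Pool.Agent.LibLargeSieve.Count

/-!
# The main term: expansion of the count
-/

namespace LSieve

open Finset Filter Topology

/-- Expansion of the count with the sieve model. -/
lemma Cnt_ind (n : ℕ) (w : ℕ) (P P' : Finset ℕ)
    (hP : P ⊆ Ioc (4 * n ^ 32) (2 * (4 * n ^ 32)))
    (hP' : P' ⊆ Ioc (3 * (4 * n ^ 32)) (4 * (4 * n ^ 32))) :
    Cnt n P P' (ind w.factorial) = ∑ l ∈ PL n, Real.log l *
      ∑ A ∈ (primesTo w).powerset, (-1 : ℝ) ^ #A * Ble P P' l (eA A) := by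
  classical
  unfold Cnt
  refine sum_congr rfl fun l hl => ?_
  have hlI := mem_Ioc.1 (PL_sub n hl)
  have hl0 : 0 < l := (PL_prime hl).pos
  have hpt : ∀ p ∈ P, ∀ q ∈ P', ∑ t ∈ Ioc (n ^ 24) (6 * n ^ 24),
      (if q = p + 2 * l * t then ind w.factorial t else 0) =
      ∑ A ∈ (primesTo w).powerset, (-1 : ℝ) ^ #A *
        (if ((2 * l * eA A : ℕ) : ℤ) ∣ (q : ℤ) - p then 1 else 0) := by
    intro p hp q hq
    have hpI := mem_Ioc.1 (hP hp)
    have hqI := mem_Ioc.1 (hP' hq)
    by_cases hd : 2 * l ∣ q - p
    · obtain ⟨t0, ht0⟩ := hd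
      have hq : q = p + 2 * l * t0 := by omega
      have hmem : t0 ∈ Ioc (n ^ 24) (6 * n ^ 24) := by
        rw [mem_Ioc]
        have h1 : 4 * n ^ 32 < 2 * l * t0 := by omega
        have h2 : 2 * l * t0 < 3 * (4 * n ^ 32) := by omega
        constructor
        · by_contra hcon
          push Not at hcon
          have : 2 * l * t0 ≤ 2 * (2 * n ^ 8) * n ^ 24 :=
            Nat.mul_le_mul (Nat.mul_le_mul_left _ hlI.2) hcon
          have h3 : 2 * (2 * n ^ 8) * n ^ 24 = 4 * n ^ 32 := by ring
          omega
        · by_contra hcon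
          push Not at hcon
          have : 2 * n ^ 8 * (6 * n ^ 24) ≤ 2 * l * t0 :=
            Nat.mul_le_mul (Nat.mul_le_mul_left _ hlI.1.le) hcon.le
          have h3 : 2 * n ^ 8 * (6 * n ^ 24) = 3 * (4 * n ^ 32) := by ring
          omega
      rw [sum_eq_single_of_mem t0 hmem]
      · rw [if_pos hq, ind_eq]
        refine sum_congr rfl fun A _ => ?_
        congr 1
        have h1 : (q : ℤ) - p = ((2 * l * t0 : ℕ) : ℤ) := by rw [hq]; push_cast; ring
        rw [h1]
        have h2 : ((2 * l * eA A : ℕ) : ℤ) ∣ ((2 * l * t0 : ℕ) : ℤ) ↔ eA A ∣ t0 := by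
          rw [Int.natCast_dvd_natCast]
          exact Nat.mul_dvd_mul_iff_left (by omega)
        by_cases h3 : eA A ∣ t0
        · rw [if_pos h3, if_pos (h2.2 h3)]
        · rw [if_neg h3, if_neg (fun h => h3 (h2.1 h))]
      · intro t _ hne
        rw [if_neg]
        intro h
        apply hne
        have h1 : 2 * l * t = 2 * l * t0 := by omega
        exact Nat.eq_of_mul_eq_mul_left (by omega) h1
    · rw [sum_eq_zero, sum_eq_zero]
      · intro A _
        rw [if_neg, mul_zero]
        intro h
        apply hd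
        have h1 : ((2 * l : ℕ) : ℤ) ∣ (q : ℤ) - p := by
          refine dvd_trans ?_ h
          exact ⟨eA A, by push_cast; ring⟩
        have h2 : ((q - p : ℕ) : ℤ) = (q : ℤ) - p := by
          rw [Nat.cast_sub (by omega)]
        rw [← h2] at h1
        exact_mod_cast h1
      · intro t _
        rw [if_neg]
        intro h
        apply hd
        exact ⟨t, by omega⟩
  calc ∑ t ∈ Ioc (n ^ 24) (6 * n ^ 24), ∑ p ∈ P, ∑ q ∈ P',
        (if q = p + 2 * l * t then Real.log l * ind w.factorial t * Real.log p * Real.log q else 0)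
      = ∑ p ∈ P, ∑ q ∈ P', Real.log l * (Real.log p * Real.log q) *
          ∑ t ∈ Ioc (n ^ 24) (6 * n ^ 24),
            (if q = p + 2 * l * t then ind w.factorial t else 0) := by
        rw [sum_comm]
        refine sum_congr rfl fun p _ => ?_
        rw [sum_comm]
        refine sum_congr rfl fun q _ => ?_
        rw [mul_sum]
        refine sum_congr rfl fun t _ => ?_
        split_ifs
        · ring
        · simp
    _ = ∑ p ∈ P, ∑ q ∈ P', Real.log l * (Real.log p * Real.log q) *
          ∑ A ∈ (primesTo w).powerset, (-1 : ℝ) ^ #A *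
        (if ((2 * l * eA A : ℕ) : ℤ) ∣ (q : ℤ) - p then 1 else 0) :=
        sum_congr rfl fun p hp => sum_congr rfl fun q hq => by rw [hpt p hp q hq]
    _ = _ := by
        unfold Ble
        rw [mul_sum (primesTo w).powerset]
        calc _ = ∑ p ∈ P, ∑ A ∈ (primesTo w).powerset, ∑ q ∈ P',
                Real.log l * (Real.log p * Real.log q) * ((-1 : ℝ) ^ #A *
                (if ((2 * l * eA A : ℕ) : ℤ) ∣ (q : ℤ) - p then 1 else 0)) := by
              refine sum_congr rfl fun p _ => ?_
              rw [sum_comm]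
              refine sum_congr rfl fun q _ => ?_
              rw [mul_sum]
          _ = ∑ A ∈ (primesTo w).powerset, ∑ p ∈ P, ∑ q ∈ P',
                Real.log l * (Real.log p * Real.log q) * ((-1 : ℝ) ^ #A *
                (if ((2 * l * eA A : ℕ) : ℤ) ∣ (q : ℤ) - p then 1 else 0)) := sum_comm
          _ = _ := by
              refine sum_congr rfl fun A _ => ?_
              rw [mul_sum, mul_sum]
              refine sum_congr rfl fun p _ => ?_
              rw [mul_sum, mul_sum]
              refine sum_congr rfl fun q _ => ?_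
              split_ifs
              · ring
              · simp

end LSieve
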