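import Pool.Agent.LibLargeSieve.AeLimit
import Pool.Agent.LibLargeSieve.MainTerm3

/-!
# The additive theorem: many solutions of `q - p = 2 ℓ t`
-/

namespace LSieve

open Finset Filter Topology

lemma sigma_ge : ∀ᶠ n : ℕ in atTop, 1 / 3 ≤ ∑ l ∈ PL n, Real.log l / l := by
  have h1 := (interval_tendsto 1 0 one_pos (Nat.coprime_one_right 0) 1 2 one_pos (by norm_num)).comp
    (tendsto_pow_atTop (α := ℕ) (show (8 : ℕ) ≠ 0 by norm_num))
  have h2 : ((2 : ℕ) : ℝ) - ((1 : ℕ) : ℝ) = 1 := by norm_num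
  rw [h2] at h1
  simp only [Nat.totient_one, Nat.cast_one, inv_one, mul_one] at h1
  have h3 := h1.eventually_const_le (show (2 / 3 : ℝ) < 1 by norm_num)
  filter_upwards [h3, eventually_gt_atTop 0] with n hn hn0
  simp only [Function.comp_apply] at hn
  have hn0' : (0 : ℝ) < n := by exact_mod_cast hn0
  have h4 : ∑ p ∈ Ioc (1 * n ^ 8) (2 * n ^ 8) with p.Prime ∧ p ≡ 0 [MOD 1], Real.log p =
      ∑ l ∈ PL n, Real.log l := by
    refine sum_congr ?_ fun _ _ => rfl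
    unfold PL
    ext p
    simp only [mem_filter, mem_Ioc, one_mul]
    have : p ≡ 0 [MOD 1] := Nat.modEq_one
    tauto
  rw [h4] at hn
  have h5 : (∑ l ∈ PL n, Real.log l) / ((n ^ 8 : ℕ) : ℝ) / 2 ≤ ∑ l ∈ PL n, Real.log l / l := by
    rw [div_div, sum_div]
    refine sum_le_sum fun l hl => ?_
    have hl' := mem_Ioc.1 (PL_sub n hl)
    apply div_le_div_of_nonneg_left (Real.log_natCast_nonneg l)
    · exact_mod_cast (PL_prime hl).pos
    · have : (l : ℝ) ≤ ((2 * n ^ 8 : ℕ) : ℝ) := by exact_mod_cast hl'.2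
      push_cast at this ⊢
      linarith
  linarith

lemma err_small (C η : ℝ) (hC : 0 ≤ C) (hη : 0 < η) : ∀ᶠ n : ℕ in atTop,
    C * (300000 * Real.log n ^ 2 * (n : ℝ) ^ 56) ≤ η * ((4 * n ^ 32 : ℕ) : ℝ) ^ 2 := by
  have h1 := (Real.isLittleO_pow_log_id_atTop (n := 2)).def
    (show 0 < η / (C * 300000 + 1) by positivity)
  have h2 := tendsto_natCast_atTop_atTop (R := ℝ) |>.eventually h1
  filter_upwards [h2, eventually_ge_atTop 1] with n hn hn1
  simp only [id] at hn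
  rw [Real.norm_of_nonneg (pow_nonneg (Real.log_natCast_nonneg n) 2),
    Real.norm_of_nonneg (Nat.cast_nonneg n)] at hn
  have hn1' : (1 : ℝ) ≤ n := by exact_mod_cast hn1
  push_cast
  calc C * (300000 * Real.log n ^ 2 * (n : ℝ) ^ 56)
      = (C * 300000) * Real.log n ^ 2 * (n : ℝ) ^ 56 := by ring
    _ ≤ (C * 300000 + 1) * Real.log n ^ 2 * (n : ℝ) ^ 56 := by gcongr; linarith
    _ ≤ (C * 300000 + 1) * (η / (C * 300000 + 1) * n) * (n : ℝ) ^ 56 := by gcongr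
    _ = η * (n : ℝ) ^ 57 := by field_simp
    _ ≤ η * (n : ℝ) ^ 64 := by
        have : (n : ℝ) ^ 57 ≤ (n : ℝ) ^ 64 := pow_le_pow_right₀ hn1' (by norm_num)
        gcongr
    _ ≤ η * (4 * (n : ℝ) ^ 32) ^ 2 := by
        have : (0 : ℝ) ≤ (n : ℝ) ^ 64 := by positivity
        have h3 : (4 * (n : ℝ) ^ 32) ^ 2 = 16 * (n : ℝ) ^ 64 := by ring
        rw [h3]
        gcongr
        linarith

/-- Lower bound for the main term. -/
theorem main_term (d b b' w : ℕ) (hd : d.Prime) (hd2 : d ≠ 2) (hb : b.Coprime d)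
    (hb' : b'.Coprime d) (hbb : ¬ b ≡ b' [MOD d]) :
    ∀ᶠ n : ℕ in atTop, 1 / (7 * ((d : ℝ) - 1) ^ 2) * ((4 * n ^ 32 : ℕ) : ℝ) ^ 2 ≤
      V (primesTo w) * Cnt n (PP d b n) (PQ d b' n) (ind w.factorial) := by
  set S := (primesTo w).powerset with hS
  have hSp : ∀ A ∈ S, ∀ p ∈ A, p.Prime := fun A hA p hp =>
    (mem_primesTo.1 (mem_powerset.1 hA hp)).2
  have hV1 : 1 ≤ V (primesTo w) := one_le_V (fun p hp => (mem_primesTo.1 hp).2)
  have hV0 : 0 < V (primesTo w) := by linarith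
  have hd1 : (0 : ℝ) < (d : ℝ) - 1 := by
    have : (2 : ℝ) ≤ d := by exact_mod_cast hd.two_le
    linarith
  -- limit of the main sum
  have hlim : Tendsto (fun n : ℕ => V (primesTo w) * ((∑ A ∈ S, (-1 : ℝ) ^ #A *
      Ae (PP d b n) (PQ d b' n) (eA A)) / ((4 * n ^ 32 : ℕ) : ℝ) ^ 2)) atTop
      (𝓝 (V (primesTo w) * (∑ A ∈ S, (-1 : ℝ) ^ #A * ((∏ p ∈ A, gp d p) /
        ((d : ℝ) - 1) ^ 2)))) := by
    apply Tendsto.const_mul
    have h1 : Tendsto (fun n : ℕ => ∑ A ∈ S, (-1 : ℝ) ^ #A *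
      (Ae (PP d b n) (PQ d b' n) (eA A) / ((4 * n ^ 32 : ℕ) : ℝ) ^ 2)) atTop
      (𝓝 (∑ A ∈ S, (-1 : ℝ) ^ #A * ((∏ p ∈ A, gp d p) / ((d : ℝ) - 1) ^ 2))) := by
      apply tendsto_finsetSum
      intro A hA
      exact (Ae_tendsto d b b' hd hd2 hb hb' hbb A (hSp A hA)).const_mul _
    refine h1.congr fun n => ?_
    rw [sum_div]
    refine sum_congr rfl fun A _ => ?_
    ring
  have hval : 1 / 2 / ((d : ℝ) - 1) ^ 2 ≤ V (primesTo w) * (∑ A ∈ S, (-1 : ℝ) ^ #A *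
      ((∏ p ∈ A, gp d p) / ((d : ℝ) - 1) ^ 2)) := by
    have h1 := singular_ge d w hd2
    have h2 : V (primesTo w) * (∑ A ∈ S, (-1 : ℝ) ^ #A *
      ((∏ p ∈ A, gp d p) / ((d : ℝ) - 1) ^ 2)) =
      (V (primesTo w) * ∑ A ∈ S, (-1 : ℝ) ^ #A * ∏ p ∈ A, gp d p) / ((d : ℝ) - 1) ^ 2 := by
      rw [mul_div_assoc, sum_div]
      congr 1
      refine sum_congr rfl fun A _ => ?_
      ring
    rw [h2]
    gcongr
  have hev1 := hlim.eventually_const_le (show 48 / 100 / ((d : ℝ) - 1) ^ 2 < _ from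
    lt_of_lt_of_le (div_lt_div_of_pos_right (by norm_num) (by positivity)) hval)
  -- error
  set CE : ℝ := V (primesTo w) * ∑ A ∈ S, (2 * eA A : ℝ) with hCE
  have hCE0 : 0 ≤ CE := by positivity
  have hev2 := err_small CE (1 / (100 * ((d : ℝ) - 1) ^ 2)) hCE0 (by positivity)
  have hev3 : ∀ᶠ n : ℕ in atTop, ∀ A ∈ S, 2 * eA A ≤ n ^ 8 := by
    rw [Filter.eventually_all_finset]
    intro A _
    exact (tendsto_pow_atTop (α := ℕ) (show (8 : ℕ) ≠ 0 by norm_num)).eventually_ge_atTop _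
  filter_upwards [hev1, hev2, hev3, sigma_ge, eventually_ge_atTop 2] with n h1 h2 h3 h4 hn
  have hGP := good_PP d b n (by omega)
  have hGQ := good_PQ d b' n (by omega)
  set P := PP d b n
  set Q := PQ d b' n
  set N : ℝ := ((4 * n ^ 32 : ℕ) : ℝ) with hN
  have hN0 : 0 < N := by rw [hN]; positivity
  set σ := ∑ l ∈ PL n, Real.log l / l with hσ
  set M := ∑ A ∈ S, (-1 : ℝ) ^ #A * Ae P Q (eA A) with hM
  have hCnt := Cnt_ind n w P Q (filter_subset _ _) (filter_subset _ _)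
  have hdiff : Cnt n P Q (ind w.factorial) - σ * M =
      ∑ A ∈ S, (-1 : ℝ) ^ #A * ∑ l ∈ PL n, Real.log l * (Ble P Q l (eA A) - Ae P Q (eA A) / l) := by
    rw [hCnt, hσ, hM, sum_mul_sum, ← sum_sub_distrib]
    simp_rw [mul_sum]
    rw [sum_comm (s := S)]
    refine sum_congr rfl fun l _ => ?_
    rw [← sum_sub_distrib]
    refine sum_congr rfl fun A _ => ?_
    ring
  have herr : |Cnt n P Q (ind w.factorial) - σ * M| ≤
      ∑ A ∈ S, 2 * eA A * (300000 * Real.log n ^ 2 * n ^ 56) := by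
    rw [hdiff]
    refine (abs_sum_le_sum_abs _ _).trans (sum_le_sum fun A hA => ?_)
    rw [abs_mul, abs_pow, abs_neg, abs_one, one_pow, one_mul]
    refine (abs_sum_le_sum_abs _ _).trans ?_
    refine le_trans (le_of_eq ?_) (Ble_average n hn P Q hGP hGQ (eA A) (eA_pos (hSp A hA)) (h3 A hA))
    refine sum_congr rfl fun l _ => ?_
    rw [abs_mul, abs_of_nonneg (Real.log_natCast_nonneg l)]
  have herr2 : V (primesTo w) * |Cnt n P Q (ind w.factorial) - σ * M| ≤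
      1 / (100 * ((d : ℝ) - 1) ^ 2) * N ^ 2 := by
    refine le_trans ?_ h2
    rw [← sum_mul] at herr
    calc V (primesTo w) * |Cnt n P Q (ind w.factorial) - σ * M|
        ≤ V (primesTo w) * ((∑ A ∈ S, (2 * eA A : ℝ)) * (300000 * Real.log n ^ 2 * n ^ 56)) := by
          gcongr
      _ = _ := by rw [hCE]; ring
  have hVM : 48 / 100 / ((d : ℝ) - 1) ^ 2 * N ^ 2 ≤ V (primesTo w) * M := by
    have h5 : V (primesTo w) * (M / N ^ 2) * N ^ 2 = V (primesTo w) * M := by field_simp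
    rw [← h5]
    gcongr
  have hVM0 : 0 ≤ V (primesTo w) * M := le_trans (by positivity) hVM
  have h6 : 1 / 3 * (48 / 100 / ((d : ℝ) - 1) ^ 2 * N ^ 2) ≤ V (primesTo w) * (σ * M) := by
    calc 1 / 3 * (48 / 100 / ((d : ℝ) - 1) ^ 2 * N ^ 2) ≤ σ * (V (primesTo w) * M) := by
          gcongr
      _ = _ := by ring
  have h7 := neg_abs_le (Cnt n P Q (ind w.factorial) - σ * M)
  have h8 : V (primesTo w) * Cnt n P Q (ind w.factorial) =
      V (primesTo w) * (σ * M) + V (primesTo w) * (Cnt n P Q (ind w.factorial) - σ * M) := by ring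
  have h9 : - (V (primesTo w) * |Cnt n P Q (ind w.factorial) - σ * M|) ≤
      V (primesTo w) * (Cnt n P Q (ind w.factorial) - σ * M) := by
    rw [← mul_neg]
    gcongr
  rw [h8]
  have h10 : 1 / (7 * ((d : ℝ) - 1) ^ 2) * N ^ 2 ≤
      1 / 3 * (48 / 100 / ((d : ℝ) - 1) ^ 2 * N ^ 2) - 1 / (100 * ((d : ℝ) - 1) ^ 2) * N ^ 2 := by
    have h11 : 1 / 3 * (48 / 100 / ((d : ℝ) - 1) ^ 2 * N ^ 2) -
        1 / (100 * ((d : ℝ) - 1) ^ 2) * N ^ 2 = (15 / 100) * (N ^ 2 / ((d : ℝ) - 1) ^ 2) := by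
      field_simp; norm_num
    have h12 : 1 / (7 * ((d : ℝ) - 1) ^ 2) * N ^ 2 = (1 / 7) * (N ^ 2 / ((d : ℝ) - 1) ^ 2) := by
      field_simp
    rw [h11, h12]
    have : 0 ≤ N ^ 2 / ((d : ℝ) - 1) ^ 2 := by positivity
    nlinarith
  linarith

/-- Logarithmic weight on primes. -/
noncomputable def vlog (t : ℕ) : ℝ := if t.Prime then Real.log t else 0

lemma Cnt_kw_eq (n W : ℕ) (P Q : Finset ℕ) :
    Cnt n P Q (kw W) = Cnt n P Q vlog - ((W : ℝ) / W.totient) * Cnt n P Q (ind W) := by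
  unfold Cnt
  simp_rw [mul_sum, ← sum_sub_distrib]
  refine sum_congr rfl fun l _ => sum_congr rfl fun t _ => sum_congr rfl fun p _ =>
    sum_congr rfl fun q _ => ?_
  unfold kw ind vlog
  by_cases h1 : q = p + 2 * l * t
  · rw [if_pos h1, if_pos h1, if_pos h1]
    by_cases h2 : t.Coprime W
    · rw [if_pos h2, if_pos h2]; ring
    · rw [if_neg h2, if_neg h2]; ring
  · rw [if_neg h1, if_neg h1, if_neg h1]; ring

/-- **Additive theorem.** -/
theorem Cnt_vlog_ge (d b b' : ℕ) (hd : d.Prime) (hd2 : d ≠ 2) (hb : b.Coprime d)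
    (hb' : b'.Coprime d) (hbb : ¬ b ≡ b' [MOD d]) :
    ∀ᶠ n : ℕ in atTop, 1 / (14 * ((d : ℝ) - 1) ^ 2) * ((4 * n ^ 32 : ℕ) : ℝ) ^ 2 ≤
      Cnt n (PP d b n) (PQ d b' n) vlog := by
  have hd1 : (0 : ℝ) < (d : ℝ) - 1 := by
    have : (2 : ℝ) ≤ d := by exact_mod_cast hd.two_le
    linarith
  obtain ⟨w, hw, h1⟩ := Cnt_kw_small (1 / (14 * ((d : ℝ) - 1) ^ 2)) (by positivity)
  filter_upwards [h1, main_term d b b' w hd hd2 hb hb' hbb, eventually_ge_atTop 1] with n h2 h3 hn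
  have h4 := h2 (PP d b n) (PQ d b' n) (good_PP d b n hn) (good_PQ d b' n hn) (filter_subset _ _)
    (filter_subset _ _)
  have h5 := Cnt_kw_eq n w.factorial (PP d b n) (PQ d b' n)
  rw [factorial_ratio w] at h5
  have h6 := (abs_le.1 h4).1
  have h7 : 1 / (7 * ((d : ℝ) - 1) ^ 2) = 2 * (1 / (14 * ((d : ℝ) - 1) ^ 2)) := by
    field_simp; norm_num
  rw [h7] at h3
  push_cast at h3 h6 ⊢
  linarith

end LSieve
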