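import Pool.Agent.LibLargeSieve.Singular

/-!
# Limits of the local sums
-/

namespace LSieve

open Finset Filter Topology

lemma Ae_zero (d b b' n : ℕ) (hbb : ¬ b ≡ b' [MOD d]) (e : ℕ) (hde : d ∣ e) :
    Ae (PP d b n) (PQ d b' n) e = 0 := by
  unfold Ae
  refine sum_eq_zero fun ρ _ => ?_
  rcases (cls (PP d b n) (2 * e) ρ).eq_empty_or_nonempty with h | ⟨p, hp⟩
  · rw [h]; simp [th]
  · rcases (cls (PQ d b' n) (2 * e) ρ).eq_empty_or_nonempty with h | ⟨q, hq⟩
    · rw [h]; simp [th]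
    · exfalso
      apply hbb
      unfold cls PP PQ at *
      simp only [mem_filter] at hp hq
      have h1 : p ≡ q [MOD 2 * e] := by
        unfold Nat.ModEq; rw [hp.2, hq.2]
      have h2 : p ≡ q [MOD d] := h1.of_dvd (hde.mul_left 2)
      exact hp.1.2.2.symm.trans (h2.trans hq.1.2.2)

lemma Ae_tendsto (d b b' : ℕ) (hd : d.Prime) (hd2 : d ≠ 2) (hb : b.Coprime d) (hb' : b'.Coprime d)
    (hbb : ¬ b ≡ b' [MOD d]) (A : Finset ℕ) (hA : ∀ p ∈ A, p.Prime) :
    Tendsto (fun n : ℕ => Ae (PP d b n) (PQ d b' n) (eA A) / ((4 * n ^ 32 : ℕ) : ℝ) ^ 2) atTop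
      (𝓝 ((∏ p ∈ A, gp d p) / ((d : ℝ) - 1) ^ 2)) := by
  have he0 := eA_pos hA
  rw [prod_gp d A hA]
  by_cases hdA : d ∈ A
  · rw [if_pos hdA, zero_div]
    have hde : d ∣ eA A := dvd_prod_of_mem (fun p => p) hdA
    simp_rw [Ae_zero d b b' _ hbb _ hde, zero_div]
    exact tendsto_const_nhds
  · rw [if_neg hdA]
    set m := 2 * eA A with hm
    have hm0 : 0 < m := by positivity
    have hdm : d.Coprime m := by
      rw [hd.coprime_iff_not_dvd]
      intro h
      rcases hd.dvd_mul.1 h with h3 | h3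
      · exact hd2 ((Nat.prime_dvd_prime_iff_eq hd Nat.prime_two).1 h3)
      · unfold eA at h3
        obtain ⟨p, hp, hpd⟩ := (hd.prime.dvd_finsetProd_iff _).1 h3
        have := (Nat.prime_dvd_prime_iff_eq hd (hA p hp)).1 hpd
        rw [this] at hdA
        exact hdA hp
    have hφd : ((d.totient : ℕ) : ℝ) = (d : ℝ) - 1 := by
      rw [Nat.totient_prime hd, Nat.cast_sub hd.one_le]; simp
    have hφm : (0 : ℝ) < m.totient := by exact_mod_cast Nat.totient_pos.2 hm0
    have hd1 : (0 : ℝ) < (d : ℝ) - 1 := by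
      have : (2 : ℝ) ≤ d := by exact_mod_cast hd.two_le
      linarith
    -- limits of the classes
    have hlim : ∀ ρ ∈ range m, ∀ u : ℕ, 0 < u → ∀ c : ℕ, c.Coprime d →
        Tendsto (fun n : ℕ => th (cls {p ∈ Ioc (u * (4 * n ^ 32)) ((u + 1) * (4 * n ^ 32)) |
          p.Prime ∧ p ≡ c [MOD d]} m ρ) / ((4 * n ^ 32 : ℕ) : ℝ)) atTop
        (𝓝 (if m.Coprime ρ then (((d : ℝ) - 1) * m.totient)⁻¹ else 0)) := by
      intro ρ hρ u hu c hc
      split_ifs with h
      · have h1 := class_tendsto d c m ρ u (u + 1) hdm hd.pos hm0 hc h.symm (mem_range.1 hρ) hu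
          (by omega)
        have h2 : (((u + 1 : ℕ) : ℝ) - u) * ((d.totient * m.totient : ℕ) : ℝ)⁻¹ =
            (((d : ℝ) - 1) * m.totient)⁻¹ := by
          push_cast
          rw [hφd]; ring
        rw [h2] at h1
        exact h1
      · apply tendsto_const_nhds.congr'
        filter_upwards [N_tendsto.eventually_ge_atTop m] with n hn
        rw [class_zero m ρ hm0 (fun h2 => h h2.symm) n hn, zero_div]
        intro p hp
        rw [mem_filter, mem_Ioc] at hp
        refine ⟨hp.2.1, lt_of_le_of_lt ?_ hp.1.1⟩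
        exact Nat.le_mul_of_pos_left _ hu
    have h1 : Tendsto (fun n : ℕ => ∑ ρ ∈ range m,
        (th (cls (PP d b n) m ρ) / ((4 * n ^ 32 : ℕ) : ℝ)) *
        (th (cls (PQ d b' n) m ρ) / ((4 * n ^ 32 : ℕ) : ℝ))) atTop
        (𝓝 (∑ ρ ∈ range m, (if m.Coprime ρ then (((d : ℝ) - 1) * m.totient)⁻¹ else 0) *
          (if m.Coprime ρ then (((d : ℝ) - 1) * m.totient)⁻¹ else 0))) := by
      apply tendsto_finsetSum
      intro ρ hρ
      apply Tendsto.mul
      · have := hlim ρ hρ 1 (by norm_num) b hb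
        simp only [one_mul] at this
        exact this
      · exact hlim ρ hρ 3 (by norm_num) b' hb'
    have h2 : ∑ ρ ∈ range m, (if m.Coprime ρ then (((d : ℝ) - 1) * m.totient)⁻¹ else 0) *
          (if m.Coprime ρ then (((d : ℝ) - 1) * m.totient)⁻¹ else 0) =
          1 / (m.totient : ℝ) / ((d : ℝ) - 1) ^ 2 := by
      have h3 : ∀ ρ ∈ range m, (if m.Coprime ρ then (((d : ℝ) - 1) * m.totient)⁻¹ else 0) *
          (if m.Coprime ρ then (((d : ℝ) - 1) * m.totient)⁻¹ else 0) =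
          (if m.Coprime ρ then ((((d : ℝ) - 1) * m.totient)⁻¹) ^ 2 else 0) := by
        intro ρ _
        split_ifs <;> ring
      rw [sum_congr rfl h3, ← sum_filter, sum_const, nsmul_eq_mul, ← Nat.totient_eq_card_coprime]
      field_simp
    rw [h2] at h1
    refine h1.congr fun n => ?_
    unfold Ae
    rw [sum_div]
    refine sum_congr rfl fun ρ _ => ?_
    ring

end LSieve
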