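import Pool.Agent.LibLargeSieve.Major

/-!
# Points `r / (32 n^32)` and mean values over them
-/

namespace LSieve

open Finset

/-- The points `r / M` on the circle. -/
noncomputable def pt (M r : ℕ) : UnitAddCircle := ((r / M : ℝ) : UnitAddCircle)

lemma pt_mult (N : ℕ) (hN : 0 < N) (r : ℕ) :
    #{r' ∈ range (8 * N) | ‖pt (8 * N) r' - pt (8 * N) r‖ < 1 / (N : ℝ)} ≤ 15 := by
  classical
  have hN' : (0 : ℝ) < N := by exact_mod_cast hN
  set B := {r' ∈ range (8 * N) | ‖pt (8 * N) r' - pt (8 * N) r‖ < 1 / (N : ℝ)} with hB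
  have h1 : B ⊆ (Ioo (-8 : ℤ) 8).image (fun j => (((r : ℤ) + j) % ((8 * N : ℕ) : ℤ)).toNat) := by
    intro r' hr'
    rw [hB, mem_filter, mem_range] at hr'
    obtain ⟨hr'1, hr'2⟩ := hr'
    obtain ⟨t, ht, htn⟩ := exists_rep (pt (8 * N) r' - pt (8 * N) r)
    rw [← htn] at hr'2
    have h2 : (((((r' : ℝ) / ((8 * N : ℕ) : ℝ)) - ((r : ℝ) / ((8 * N : ℕ) : ℝ))) - t : ℝ) :
        UnitAddCircle) = 0 := by
      rw [AddCircle.coe_sub, AddCircle.coe_sub, ht]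
      unfold pt
      abel
    rw [AddCircle.coe_eq_zero_iff] at h2
    obtain ⟨k, hk⟩ := h2
    have hk' : (k : ℝ) = (((r' : ℝ) / ((8 * N : ℕ) : ℝ)) - ((r : ℝ) / ((8 * N : ℕ) : ℝ))) - t := by
      simpa using hk
    have h3 : (8 * N : ℝ) * t = (((r' : ℤ) - r - k * (8 * N : ℕ) : ℤ) : ℝ) := by
      have : t = (((r' : ℝ) / ((8 * N : ℕ) : ℝ)) - ((r : ℝ) / ((8 * N : ℕ) : ℝ))) - k := by
        linarith
      rw [this]
      push_cast
      field_simp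
    set j : ℤ := (r' : ℤ) - r - k * (8 * N : ℕ) with hj
    have h4 : |(j : ℝ)| < 8 := by
      rw [← h3, abs_mul, abs_of_pos (by positivity : (0 : ℝ) < 8 * N)]
      calc (8 * N : ℝ) * |t| < 8 * N * (1 / N) := by gcongr
        _ = 8 := by field_simp
    have h5 : |j| < 8 := by
      have : ((|j| : ℤ) : ℝ) < ((8 : ℤ) : ℝ) := by push_cast; exact h4
      exact_mod_cast this
    rw [mem_image]
    refine ⟨j, by rw [mem_Ioo]; exact abs_lt.1 h5, ?_⟩
    have h6 : (r : ℤ) + j = r' + (-k) * ((8 * N : ℕ) : ℤ) := by rw [hj]; ring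
    rw [h6, Int.add_mul_emod_self_right]
    rw [Int.emod_eq_of_lt (by positivity) (by exact_mod_cast hr'1)]
    simp
  calc #B ≤ _ := card_le_card h1
    _ ≤ #(Ioo (-8 : ℤ) 8) := card_image_le
    _ = 15 := by decide

/-- Mean square over all points. -/
lemma mean_sq (N : ℕ) (hN : 0 < N) (A : ℕ) (P : Finset ℕ) (hP : P ⊆ Ico A (A + N)) (f : ℕ → ℝ) :
    ∑ r ∈ range (8 * N), ‖nsum P f (pt (8 * N) r)‖ ^ 2 ≤ 135 * N * ∑ p ∈ P, f p ^ 2 := by
  have := large_sieve_nat (range (8 * N)) (pt (8 * N)) N 15 hN (fun r _ => pt_mult N hN r) A P hP f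
  refine this.trans (le_of_eq ?_)
  norm_num

/-- Mean square of prime sums over points near rationals with small denominator. -/
theorem mean_sq_major (n : ℕ) (hn : 2 ≤ n) (S : Finset ℕ) (hS : S ⊆ range (8 * (4 * n ^ 32)))
    (α β : ℕ → UnitAddCircle) (hx : ∀ r ∈ S, pt (8 * (4 * n ^ 32)) r = α r + β r)
    (Q : ℕ) (hQ : Q ≤ n ^ 2)
    (hα : ∀ r ∈ S, 0 < addOrderOf (α r)) (hαQ : ∀ r ∈ S, addOrderOf (α r) ≤ Q)
    (hβ : ∀ r ∈ S, ‖β r‖ ≤ 1 / (n : ℝ) ^ 24)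
    (A : ℕ) (P : Finset ℕ) (hP : P ⊆ Ico A (A + 4 * n ^ 32)) (hPp : ∀ p ∈ P, p.Prime)
    (hPM : ∀ p ∈ P, n ^ 9 < p) (hPX : P ⊆ primesTo (16 * n ^ 32)) :
    ∑ r ∈ S, ‖nsum P (fun p => Real.log p) (pt (8 * (4 * n ^ 32)) r)‖ ^ 2 ≤
      7000 * V (primesTo Q) * (4 * n ^ 32) ^ 2 := by
  have hn' : (2 : ℝ) ≤ n := by exact_mod_cast hn
  have hn0 : (0 : ℝ) < n := by linarith
  have hlog : 0 < Real.log n := Real.log_pos (by linarith)
  have hQR : (Q : ℝ) ≤ n ^ 2 := by exact_mod_cast hQ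
  have hV : 0 < V (primesTo Q) := V_pos (fun p hp => (mem_primesTo.1 hp).2)
  have key := prime_large_sieve S α β (4 * n ^ 32) 15 (n ^ 9) Q (1 / (n : ℝ) ^ 24) (primesTo Q)
    (by positivity) (fun p hp => (mem_primesTo.1 hp).2) hα hαQ
    (fun r hr p hp hpd => mem_primesTo.2
      ⟨(Nat.le_of_dvd (hα r hr) hpd).trans (hαQ r hr), hp⟩)
    hβ
    (by
      have h1 : ((Q : ℝ) * ((n ^ 9 : ℕ) : ℝ)) ^ 2 ≤ n ^ 22 := by
        push_cast
        calc ((Q : ℝ) * (n : ℝ) ^ 9) ^ 2 ≤ ((n : ℝ) ^ 2 * (n : ℝ) ^ 9) ^ 2 := by gcongr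
          _ = _ := by ring
      have h2 : 1 / ((4 * n ^ 32 : ℕ) : ℝ) + 2 * (1 / (n : ℝ) ^ 24) ≤ 3 / (n : ℝ) ^ 24 := by
        push_cast
        have h3 : 1 / (4 * (n : ℝ) ^ 32) ≤ 1 / (n : ℝ) ^ 24 := by
          apply one_div_le_one_div_of_le (by positivity)
          have : (n : ℝ) ^ 24 ≤ (n : ℝ) ^ 32 := pow_le_pow_right₀ (by linarith) (by norm_num)
          have : (0 : ℝ) < (n : ℝ) ^ 32 := by positivity
          linarith
        calc 1 / (4 * (n : ℝ) ^ 32) + 2 * (1 / (n : ℝ) ^ 24)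
            ≤ 1 / (n : ℝ) ^ 24 + 2 * (1 / (n : ℝ) ^ 24) := by gcongr
          _ = _ := by ring
      calc ((Q : ℝ) * ((n ^ 9 : ℕ) : ℝ)) ^ 2 *
            (1 / ((4 * n ^ 32 : ℕ) : ℝ) + 2 * (1 / (n : ℝ) ^ 24))
          ≤ (n : ℝ) ^ 22 * (3 / (n : ℝ) ^ 24) := by
            apply mul_le_mul h1 h2 (by positivity) (by positivity)
        _ = 3 / (n : ℝ) ^ 2 := by field_simp
        _ < 1 := by
            rw [div_lt_one (by positivity)]
            nlinarith)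
    (by
      intro r hr
      refine le_trans (card_le_card ?_) (pt_mult (4 * n ^ 32) (by positivity) r)
      intro r' hr'
      rw [mem_filter] at hr' ⊢
      rw [hx r' hr'.1, hx r hr]
      exact ⟨hS hr'.1, hr'.2⟩)
    A P hP (fun p => Real.log p) hPp hPM
  have h1 : ∑ r ∈ S, ‖nsum P (fun p => Real.log p) (α r + β r)‖ ^ 2 =
      ∑ r ∈ S, ‖nsum P (fun p => Real.log p) (pt (8 * (4 * n ^ 32)) r)‖ ^ 2 :=
    sum_congr rfl fun r hr => by rw [hx r hr]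
  rw [h1] at key
  set SS := ∑ r ∈ S, ‖nsum P (fun p => Real.log p) (pt (8 * (4 * n ^ 32)) r)‖ ^ 2
  have hlog9 : Real.log ((n ^ 9 : ℕ) : ℝ) = 9 * Real.log n := by
    push_cast; rw [Real.log_pow]; push_cast; ring
  rw [hlog9] at key
  have hT := sum_log_sq_le P (16 * n ^ 32) hPX
  have hT2 := log_bound n hn 16 4 32 (by norm_num) (by norm_num)
  have hT3 : ∑ t ∈ P, Real.log t ^ 2 ≤ 864 * Real.log n * n ^ 32 := by
    refine hT.trans ?_
    push_cast at hT2 ⊢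
    calc Real.log (16 * (n : ℝ) ^ 32) * (3 / 2 * (16 * (n : ℝ) ^ 32))
        ≤ ((4 + 32) * Real.log n) * (3 / 2 * (16 * (n : ℝ) ^ 32)) := by gcongr
      _ = _ := by ring
  have h2 : 9 * Real.log n * SS ≤ 9 * Real.log n * (7000 * V (primesTo Q) * (4 * n ^ 32) ^ 2) := by
    refine key.trans ?_
    calc 18 * V (primesTo Q) * ((15 : ℕ) : ℝ) * ((4 * n ^ 32 : ℕ) : ℝ) *
          ∑ p ∈ P, Real.log p ^ 2
        ≤ 18 * V (primesTo Q) * ((15 : ℕ) : ℝ) * ((4 * n ^ 32 : ℕ) : ℝ) *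
          (864 * Real.log n * n ^ 32) := by gcongr
      _ = 9 * Real.log n * (6480 * V (primesTo Q) * (4 * n ^ 32) ^ 2) := by
          push_cast; ring
      _ ≤ _ := by
          gcongr
          norm_num
  exact le_of_mul_le_mul_left h2 (by positivity)

/-- Orthogonality. -/
lemma sum_e_pt (M : ℕ) (hM : 0 < M) (k : ℤ) :
    ∑ r ∈ range M, e (k • pt M r) = if (M : ℤ) ∣ k then (M : ℂ) else 0 := by
  have hM' : (M : ℝ) ≠ 0 := by positivity
  have h1 : ∀ r : ℕ, k • pt M r = r • (((k / M : ℝ)) : UnitAddCircle) := by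
    intro r
    unfold pt
    rw [← AddCircle.coe_zsmul, ← AddCircle.coe_nsmul]
    congr 1
    rw [zsmul_eq_mul, nsmul_eq_mul]
    ring
  simp_rw [h1, e_nsmul]
  split_ifs with h
  · obtain ⟨c, rfl⟩ := h
    have h2 : (((((M : ℤ) * c : ℤ) : ℝ) / M : ℝ) : UnitAddCircle) = 0 := by
      rw [AddCircle.coe_eq_zero_iff]
      refine ⟨c, ?_⟩
      push_cast
      rw [zsmul_eq_mul]
      field_simp
    rw [h2]
    simp
  · have h3 : e (((k / M : ℝ)) : UnitAddCircle) ≠ 1 := by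
      rw [Ne, e_eq_one_iff, AddCircle.coe_eq_zero_iff]
      rintro ⟨c, hc⟩
      apply h
      refine ⟨c, ?_⟩
      rw [zsmul_eq_mul, mul_one, eq_div_iff hM'] at hc
      have : ((c * M : ℤ) : ℝ) = (k : ℝ) := by push_cast; exact hc
      have h4 : c * M = k := by exact_mod_cast this
      rw [← h4]; ring
    have h5 := geom_sum_mul (e (((k / M : ℝ)) : UnitAddCircle)) M
    have h6 : e (((k / M : ℝ)) : UnitAddCircle) ^ M = 1 := by
      rw [← e_nsmul, e_eq_one_iff, ← AddCircle.coe_nsmul, AddCircle.coe_eq_zero_iff]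
      refine ⟨k, ?_⟩
      rw [zsmul_eq_mul, nsmul_eq_mul]
      field_simp
    rw [h6, sub_self] at h5
    rcases mul_eq_zero.1 h5 with h7 | h7
    · exact h7
    · exact absurd (sub_eq_zero.1 h7) h3

lemma nsum_conj (P : Finset ℕ) (f : ℕ → ℝ) (x : UnitAddCircle) :
    (starRingEnd ℂ) (nsum P f x) = ∑ n ∈ P, (f n : ℂ) * e (-(n • x)) := by
  unfold nsum
  rw [map_sum]
  refine sum_congr rfl fun n _ => ?_
  rw [map_mul, Complex.conj_ofReal, e_neg]

end LSieve
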