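import Pool.Agent.LibLargeSieve.GBound

/-!
# Bilinear sums `∑_ℓ log ℓ |v̂(2ℓθ)|`
-/

namespace LSieve

open Finset

/-- Dirichlet approximation on the circle. -/
lemma dirichlet (x : UnitAddCircle) (Y : ℕ) (hY : 0 < Y) : ∃ α β : UnitAddCircle,
    x = α + β ∧ 0 < addOrderOf α ∧ addOrderOf α ≤ Y ∧
      ‖β‖ ≤ 1 / (addOrderOf α * ((Y : ℝ) + 1)) := by
  obtain ⟨j, hj, hjn⟩ := AddCircle.exists_norm_nsmul_le (T := (1 : ℝ)) x hY
  rw [Set.mem_Icc] at hj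
  obtain ⟨t, ht, htn⟩ := exists_rep (j • x)
  have hj0 : (0 : ℝ) < j := by exact_mod_cast hj.1
  set β : UnitAddCircle := ((t / j : ℝ) : UnitAddCircle) with hβ
  have h1 : j • β = j • x := by
    rw [hβ, ← AddCircle.coe_nsmul, nsmul_eq_mul, mul_div_cancel₀ _ hj0.ne', ht]
  have h2 : j • (x - β) = 0 := by rw [smul_sub, h1, sub_self]
  have h3 := addOrderOf_dvd_of_nsmul_eq_zero h2
  have h4 : 0 < addOrderOf (x - β) := Nat.pos_of_dvd_of_pos h3 hj.1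
  have h5 : addOrderOf (x - β) ≤ j := Nat.le_of_dvd hj.1 h3
  refine ⟨x - β, β, by abel, h4, h5.trans hj.2, ?_⟩
  have h6 : ‖β‖ ≤ 1 / (j * ((Y : ℝ) + 1)) := by
    calc ‖β‖ ≤ |t / j| := norm_coe_le _
      _ = ‖j • x‖ / j := by rw [abs_div, abs_of_pos hj0, htn]
      _ ≤ (1 / ((Y + 1 : ℕ) : ℝ)) / j := by gcongr
      _ = _ := by push_cast; field_simp
  refine h6.trans ?_
  apply one_div_le_one_div_of_le
  · have : (0 : ℝ) < addOrderOf (x - β) := by exact_mod_cast h4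
    positivity
  · gcongr

lemma norm_zsmul_eq {β : UnitAddCircle} {m : ℤ} (h : |(m : ℝ)| * ‖β‖ ≤ 1 / 2) :
    ‖m • β‖ = |(m : ℝ)| * ‖β‖ := by
  obtain ⟨t, ht, htn⟩ := exists_rep β
  rw [← htn] at h ⊢
  rw [← abs_mul] at h ⊢
  rw [← ht, ← AddCircle.coe_zsmul, zsmul_eq_mul]
  rw [AddCircle.norm_coe_eq_abs_iff (p := (1 : ℝ)) one_ne_zero]
  simpa using h

lemma norm_zsmul_le' (β : UnitAddCircle) (m : ℤ) : ‖m • β‖ ≤ |(m : ℝ)| * ‖β‖ := by
  obtain ⟨t, ht, htn⟩ := exists_rep β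
  rw [← htn, ← abs_mul, ← ht, ← AddCircle.coe_zsmul, zsmul_eq_mul]
  exact norm_coe_le _

lemma mult_key {α β : UnitAddCircle} {q Y H : ℕ} (hq : addOrderOf α = q) (hq0 : 0 < q)
    (hqY : q ≤ Y) (hβ : ‖β‖ ≤ 1 / (q * ((Y : ℝ) + 1))) (h : ℤ) (hh : 4 * |h| ≤ Y + 1)
    (hH : 2 * Y ≤ H) (hlt : ‖(2 * h) • (α + β)‖ < 1 / (H : ℝ)) :
    (q : ℤ) ∣ 2 * h ∧ 2 * |(h : ℝ)| * ‖β‖ < 1 / H := by
  have hq' : (0 : ℝ) < q := by exact_mod_cast hq0
  have hY' : (0 : ℝ) < Y := by exact_mod_cast lt_of_lt_of_le hq0 hqY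
  have hqY' : (q : ℝ) ≤ Y := by exact_mod_cast hqY
  have hH' : 2 * (Y : ℝ) ≤ H := by exact_mod_cast hH
  have hh' : 4 * |(h : ℝ)| ≤ Y + 1 := by
    have : ((4 * |h| : ℤ) : ℝ) ≤ ((Y + 1 : ℤ) : ℝ) := by exact_mod_cast hh
    push_cast at this
    exact this
  have habs : |((2 * h : ℤ) : ℝ)| = 2 * |(h : ℝ)| := by
    push_cast; rw [abs_mul, abs_two]
  have h1 : 2 * |(h : ℝ)| * ‖β‖ ≤ 1 / (2 * q) := by
    calc 2 * |(h : ℝ)| * ‖β‖ ≤ (Y + 1) / 2 * (1 / (q * ((Y : ℝ) + 1))) := by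
          apply mul_le_mul _ hβ (norm_nonneg _) (by positivity)
          linarith
      _ = _ := by field_simp
  have h2 : (2 * h) • α = 0 := by
    by_contra hne
    have h3 : q • ((2 * h) • α) = 0 := by
      rw [smul_comm, ← hq, addOrderOf_nsmul_eq_zero, smul_zero]
    have h4 := norm_ge_of_nsmul_eq_zero hq0 h3 hne
    have h5 : 1 / (q : ℝ) ≤ ‖(2 * h) • α‖ := by
      rw [div_le_iff₀ hq']; linarith
    have h6 : ‖(2 * h) • α‖ ≤ ‖(2 * h) • (α + β)‖ + ‖(2 * h) • β‖ := by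
      have : (2 * h) • α = (2 * h) • (α + β) - (2 * h) • β := by rw [smul_add]; abel
      rw [this]
      exact norm_sub_le _ _
    have h7 := norm_zsmul_le' β (2 * h)
    rw [habs] at h7
    have h8 : 1 / (H : ℝ) ≤ 1 / (2 * Y) := one_div_le_one_div_of_le (by positivity) hH'
    have h9 : 1 / (2 * (Y : ℝ)) ≤ 1 / (2 * q) := one_div_le_one_div_of_le (by positivity)
      (by linarith)
    have h10 : 1 / (q : ℝ) = 1 / (2 * q) + 1 / (2 * q) := by field_simp; norm_num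
    linarith
  refine ⟨?_, ?_⟩
  · rw [← hq]; exact addOrderOf_dvd_iff_zsmul_eq_zero.2 h2
  · rw [smul_add, h2, zero_add] at hlt
    rw [norm_zsmul_eq] at hlt
    · rwa [habs] at hlt
    · rw [habs]
      refine h1.trans ?_
      apply one_div_le_one_div_of_le (by norm_num)
      have : (1 : ℝ) ≤ q := by exact_mod_cast hq0
      linarith

/-- `q / gcd(q, 2)`. -/
def halfOrd (q : ℕ) : ℕ := q / q.gcd 2

lemma halfOrd_pos {q : ℕ} (hq : 0 < q) : 0 < halfOrd q :=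
  Nat.div_pos (Nat.le_of_dvd hq (Nat.gcd_dvd_left _ _)) (Nat.gcd_pos_of_pos_left _ hq)

lemma halfOrd_mul (q : ℕ) : halfOrd q * q.gcd 2 = q := Nat.div_mul_cancel (Nat.gcd_dvd_left _ _)

lemma le_two_halfOrd (q : ℕ) : q ≤ 2 * halfOrd q := by
  have h := halfOrd_mul q
  have h2 : q.gcd 2 ≤ 2 := Nat.le_of_dvd (by norm_num) (Nat.gcd_dvd_right _ _)
  calc q = halfOrd q * q.gcd 2 := h.symm
    _ ≤ halfOrd q * 2 := Nat.mul_le_mul_left _ h2
    _ = _ := mul_comm _ _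

lemma halfOrd_le (q : ℕ) : halfOrd q ≤ q := Nat.div_le_self _ _

lemma totient_le_halfOrd (q : ℕ) : q.totient ≤ 2 * (halfOrd q).totient := by
  have h := halfOrd_mul q
  have h2 : q.gcd 2 ∣ 2 := Nat.gcd_dvd_right _ _
  rcases (Nat.dvd_prime Nat.prime_two).1 h2 with h3 | h3
  · rw [h3, mul_one] at h
    rw [h]; omega
  · rw [h3] at h
    have h4 : q.totient = (2 * halfOrd q).totient := by rw [mul_comm, h]
    rw [h4]
    rcases Nat.even_or_odd (halfOrd q) with h5 | h5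
    · rw [Nat.totient_two_mul_of_even h5]
    · rw [Nat.totient_two_mul_of_odd h5]; omega

lemma halfOrd_dvd {q : ℕ} {h : ℤ} (hd : (q : ℤ) ∣ 2 * h) : (halfOrd q : ℤ) ∣ h := by
  have h1 := halfOrd_mul q
  have h2 : q.gcd 2 ∣ 2 := Nat.gcd_dvd_right _ _
  rcases (Nat.dvd_prime Nat.prime_two).1 h2 with h3 | h3
  · rw [h3, mul_one] at h1
    rw [h1]
    have : IsCoprime (q : ℤ) 2 := by
      have := Nat.isCoprime_iff_coprime.2 (show q.Coprime 2 from h3)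
      exact_mod_cast this
    exact this.dvd_of_dvd_mul_left hd
  · rw [h3] at h1
    have h4 : ((halfOrd q : ℤ) * 2) = q := by exact_mod_cast h1
    rw [← h4, mul_comm] at hd
    exact (mul_dvd_mul_iff_left (by norm_num : (2 : ℤ) ≠ 0)).1 hd

/-- The difference of two points `2ℓ'θ - 2ℓθ`. -/
lemma smul_sub_aux (θ : UnitAddCircle) (l l' : ℕ) :
    (2 * l') • θ - (2 * l) • θ = (2 * ((l' : ℤ) - l)) • θ := by
  rw [mul_sub, sub_smul, ← natCast_zsmul, ← natCast_zsmul]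
  push_cast
  rfl

/-- Geometry of a ball of points `2ℓ'θ`. -/
lemma ball_geom {α β : UnitAddCircle} {q Y H L D : ℕ} (hq : addOrderOf α = q) (hq0 : 0 < q)
    (hqY : q ≤ Y) (hβ : ‖β‖ ≤ 1 / (q * ((Y : ℝ) + 1))) (hL : 4 * L ≤ Y + 1) (hH : 2 * Y ≤ H)
    (hD : L ≤ D ∨ 1 ≤ 2 * H * ((D : ℝ) + 1) * ‖β‖) {l l' : ℕ}
    (hl : l ∈ Ioc L (2 * L)) (hl' : l' ∈ Ioc L (2 * L))
    (hlt : ‖(2 * l') • (α + β) - (2 * l) • (α + β)‖ < 1 / (H : ℝ)) :
    (halfOrd q : ℤ) ∣ (l' : ℤ) - l ∧ |(l' : ℤ) - l| ≤ D := by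
  rw [mem_Ioc] at hl hl'
  rw [smul_sub_aux] at hlt
  have habs : |(l' : ℤ) - l| ≤ L := by rw [abs_le]; constructor <;> omega
  have h1 := mult_key hq hq0 hqY hβ ((l' : ℤ) - l) (by omega) hH hlt
  refine ⟨halfOrd_dvd h1.1, ?_⟩
  rcases hD with hD | hD
  · exact habs.trans (by exact_mod_cast hD)
  · by_contra hcon
    push Not at hcon
    have h2 : ((D : ℝ) + 1) ≤ |(((l' : ℤ) - l : ℤ) : ℝ)| := by
      have : (D : ℤ) + 1 ≤ |(l' : ℤ) - l| := hcon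
      have h3 : (((D : ℤ) + 1 : ℤ) : ℝ) ≤ ((|(l' : ℤ) - l| : ℤ) : ℝ) := by exact_mod_cast this
      push_cast at h3 ⊢
      exact h3
    have hH0 : (0 : ℝ) < H := by
      have : 0 < H := by omega
      exact_mod_cast this
    have h3 := h1.2
    rw [lt_div_iff₀ hH0] at h3
    have h4 : 2 * ((D : ℝ) + 1) * ‖β‖ * H ≤ 2 * |(((l' : ℤ) - l : ℤ) : ℝ)| * ‖β‖ * H := by
      gcongr
    have h5 : 2 * (H : ℝ) * ((D : ℝ) + 1) * ‖β‖ = 2 * ((D : ℝ) + 1) * ‖β‖ * H := by ring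
    linarith

/-- Multiplicity for primes, via Brun-Titchmarsh. -/
lemma ball_card_prime {α β : UnitAddCircle} {q Y H L D M : ℕ} (hq : addOrderOf α = q)
    (hq0 : 0 < q)
    (hqY : q ≤ Y) (hβ : ‖β‖ ≤ 1 / (q * ((Y : ℝ) + 1))) (hL : 4 * L ≤ Y + 1) (hH : 2 * Y ≤ H)
    (hD : L ≤ D ∨ 1 ≤ 2 * H * ((D : ℝ) + 1) * ‖β‖) (hM : M ^ 2 * q ≤ 2 * D) (hqD : q ≤ D)
    (hML : M ≤ L) (P : Finset ℕ) (hP : P ⊆ Ioc L (2 * L)) (hPp : ∀ p ∈ P, p.Prime)
    (l : ℕ) (hl : l ∈ P) :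
    (#{l' ∈ P | ‖(2 * l') • (α + β) - (2 * l) • (α + β)‖ < 1 / (H : ℝ)} : ℝ) *
      (Real.log M * q.totient) ≤ 108 * D := by
  set q' := halfOrd q with hq'
  have hq'0 : 0 < q' := halfOrd_pos hq0
  set B := {l' ∈ P | ‖(2 * l') • (α + β) - (2 * l) • (α + β)‖ < 1 / (H : ℝ)} with hB
  set X := 2 * D / q' + 1 with hX
  have hgeom : ∀ l' ∈ B, (q' : ℤ) ∣ (l' : ℤ) - l ∧ |(l' : ℤ) - l| ≤ D := by
    intro l' hl'
    rw [hB, mem_filter] at hl'
    exact ball_geom hq hq0 hqY hβ hL hH hD (hP hl) (hP hl'.1) hl'.2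
  have hqX : 2 * D < q' * X := by
    rw [hX]
    have := Nat.lt_div_mul_add (a := 2 * D) hq'0
    calc 2 * D < 2 * D / q' * q' + q' := this
      _ = _ := by ring
  have h1 := brun_titchmarsh B (fun p hp => hPp p (mem_filter.1 hp).1) M X q' l (l - D)
    (by
      rw [hX, Nat.lt_succ_iff, Nat.le_div_iff_mul_le hq'0]
      calc M ^ 2 * q' ≤ M ^ 2 * q := Nat.mul_le_mul_left _ (halfOrd_le q)
        _ ≤ 2 * D := hM)
    (by
      intro p hp
      have := mem_Ioc.1 (hP (mem_filter.1 hp).1)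
      omega)
    hq'0
    (by
      intro p hp
      have h2 := (hgeom p hp).1
      have h3 : (l : ℤ) ≡ p [ZMOD q'] := Int.modEq_iff_dvd.2 h2
      exact ((Int.natCast_modEq_iff).1 h3).symm)
    (by
      intro p hp
      have h2 := (hgeom p hp).2
      rw [abs_le] at h2
      omega)
  have hq'R : (0 : ℝ) < q' := by exact_mod_cast hq'0
  have hφ' : (0 : ℝ) < q'.totient := by exact_mod_cast Nat.totient_pos.2 hq'0
  have hφ : (q.totient : ℝ) ≤ 2 * q'.totient := by exact_mod_cast totient_le_halfOrd q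
  have hXle : (X : ℝ) ≤ 3 * D / q' := by
    rw [le_div_iff₀ hq'R]
    have h2 : X * q' ≤ 3 * D := by
      rw [hX, add_mul, one_mul]
      have h3 := Nat.div_mul_le_self (2 * D) q'
      have h4 : q' ≤ D := (halfOrd_le q).trans hqD
      omega
    exact_mod_cast h2
  have h2 : (#B : ℝ) * Real.log M ≤ 54 * D / q'.totient := by
    refine h1.trans ?_
    calc 18 * ((q' : ℝ) / q'.totient) * X ≤ 18 * ((q' : ℝ) / q'.totient) * (3 * D / q') := by
          gcongr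
      _ = _ := by field_simp; ring
  calc (#B : ℝ) * (Real.log M * q.totient) = (#B * Real.log M) * q.totient := by ring
    _ ≤ (54 * D / q'.totient) * (2 * q'.totient) := by
        apply mul_le_mul h2 hφ (by positivity) (by positivity)
    _ = _ := by field_simp; ring

/-- Multiplicity for integers. -/
lemma ball_card_int {α β : UnitAddCircle} {q Y H L D : ℕ} (hq : addOrderOf α = q) (hq0 : 0 < q)
    (hqY : q ≤ Y) (hβ : ‖β‖ ≤ 1 / (q * ((Y : ℝ) + 1))) (hL : 4 * L ≤ Y + 1) (hH : 2 * Y ≤ H)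
    (hD : L ≤ D ∨ 1 ≤ 2 * H * ((D : ℝ) + 1) * ‖β‖)
    (P : Finset ℕ) (hP : P ⊆ Ioc L (2 * L)) (l : ℕ) (hl : l ∈ P) :
    (#{l' ∈ P | ‖(2 * l') • (α + β) - (2 * l) • (α + β)‖ < 1 / (H : ℝ)} : ℝ) ≤
      4 * D / q + 1 := by
  classical
  set q' := halfOrd q with hq'
  have hq'0 : 0 < q' := halfOrd_pos hq0
  set B := {l' ∈ P | ‖(2 * l') • (α + β) - (2 * l) • (α + β)‖ < 1 / (H : ℝ)} with hB
  have hgeom : ∀ l' ∈ B, (q' : ℤ) ∣ (l' : ℤ) - l ∧ |(l' : ℤ) - l| ≤ D := by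
    intro l' hl'
    rw [hB, mem_filter] at hl'
    exact ball_geom hq hq0 hqY hβ hL hH hD (hP hl) (hP hl'.1) hl'.2
  have hcard : #B ≤ 2 * (D / q') + 1 := by
    have h1 : #B ≤ #(Icc (-((D / q' : ℕ) : ℤ)) ((D / q' : ℕ) : ℤ)) := by
      refine card_le_card_of_injOn (fun l' => ((l' : ℤ) - l) / q') ?_ ?_
      · intro l' hl'
        obtain ⟨⟨c, hc⟩, h2⟩ := hgeom l' hl'
        have hq'z : (0 : ℤ) < q' := by exact_mod_cast hq'0
        simp only [coe_Icc, Set.mem_Icc]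
        rw [hc, Int.mul_ediv_cancel_left _ hq'z.ne']
        rw [hc, abs_mul, abs_of_pos hq'z] at h2
        have h3 : |c| ≤ ((D / q' : ℕ) : ℤ) := by
          have h4 : (c.natAbs) * q' ≤ D := by
            have : (((c.natAbs) * q' : ℕ) : ℤ) ≤ D := by
              push_cast
              rw [mul_comm]; exact h2
            exact_mod_cast this
          have h5 := (Nat.le_div_iff_mul_le hq'0).2 h4
          have h6 : ((c.natAbs : ℕ) : ℤ) ≤ ((D / q' : ℕ) : ℤ) := by exact_mod_cast h5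
          rwa [Int.natCast_natAbs] at h6
        exact abs_le.1 h3
      · intro a ha b hb hab
        obtain ⟨⟨c, hc⟩, -⟩ := hgeom a ha
        obtain ⟨⟨d, hd⟩, -⟩ := hgeom b hb
        have hq'z : (0 : ℤ) < q' := by exact_mod_cast hq'0
        have hab' : ((a : ℤ) - l) / q' = ((b : ℤ) - l) / q' := hab
        rw [hc, hd, Int.mul_ediv_cancel_left _ hq'z.ne', Int.mul_ediv_cancel_left _ hq'z.ne'] at hab'
        rw [hab'] at hc
        omega
    refine h1.trans ?_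
    rw [Int.card_Icc]
    omega
  have hq'R : (0 : ℝ) < q' := by exact_mod_cast hq'0
  have hqR : (0 : ℝ) < q := by exact_mod_cast hq0
  have h2 : ((D / q' : ℕ) : ℝ) ≤ D / q' := Nat.cast_div_le
  have h3 : (q : ℝ) ≤ 2 * q' := by exact_mod_cast le_two_halfOrd q
  have h4 : (#B : ℝ) ≤ 2 * ((D / q' : ℕ) : ℝ) + 1 := by exact_mod_cast hcard
  have h5 : (D : ℝ) / q' ≤ 2 * D / q := by
    rw [div_le_div_iff₀ hq'R hqR]
    nlinarith [Nat.cast_nonneg (α := ℝ) D]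
  have h6 : 4 * (D : ℝ) / q = 2 * (2 * D / q) := by ring
  linarith

end LSieve
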