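import Pool.Agent.LibLargeSieve.ErrorTerm

/-!
# The total error is small
-/

namespace LSieve

open Finset Filter Topology

lemma sum_log_PL (n : ℕ) : ∑ l ∈ PL n, Real.log l ≤ 3 * n ^ 8 := by
  calc ∑ l ∈ PL n, Real.log l ≤ ∑ l ∈ primesTo (2 * n ^ 8), Real.log l :=
        sum_le_sum_of_subset_of_nonneg (PL_sub_primesTo n) fun l _ _ => Real.log_natCast_nonneg l
    _ ≤ Real.log 4 * ((2 * n ^ 8 : ℕ) : ℝ) := sum_log_primesTo_le _
    _ ≤ 3 / 2 * ((2 * n ^ 8 : ℕ) : ℝ) := by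
        apply mul_le_mul_of_nonneg_right log_four_le (Nat.cast_nonneg _)
    _ = _ := by push_cast; ring

theorem error_bound (δ : ℝ) (hδ : 0 < δ) : ∃ w : ℕ, 1 ≤ w ∧ ∀ᶠ n : ℕ in atTop,
    ∀ P P' : Finset ℕ, Good n P → Good n P' →
    ∑ r ∈ range (8 * (4 * n ^ 32)), ‖FS P (pt (8 * (4 * n ^ 32)) r)‖ *
      ‖FS P' (pt (8 * (4 * n ^ 32)) r)‖ *
      KS n (Ioc (n ^ 24) (6 * n ^ 24)) (kw w.factorial) (pt (8 * (4 * n ^ 32)) r) ≤
      δ * (4 * (n : ℝ) ^ 32) ^ 3 := by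
  obtain ⟨C, hC1, hC⟩ := V_bound
  -- choice of j0
  set Cst : ℝ := 38500000 * C ^ 3 * (289 / 256) / (1 - 1445 / 1792) with hCst
  have hCst0 : 0 < Cst := by
    rw [hCst]
    have : (0 : ℝ) < 1 - 1445 / 1792 := by norm_num
    positivity
  obtain ⟨j0, hj0⟩ : ∃ j0 : ℕ, Cst * (24565 / 28672) ^ j0 ≤ δ := by
    have h1 : Tendsto (fun j : ℕ => Cst * (24565 / 28672 : ℝ) ^ j) atTop (𝓝 (Cst * 0)) :=
      (tendsto_pow_atTop_nhds_zero_of_lt_one (by norm_num) (by norm_num)).const_mul Cst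
    rw [mul_zero] at h1
    have h2 := h1.eventually_le_const hδ
    obtain ⟨j, hj⟩ := h2.exists
    exact ⟨j, hj⟩
  set w : ℕ := 2 ^ j0 with hw
  have hw1 : 1 ≤ w := Nat.one_le_two_pow
  refine ⟨w, hw1, ?_⟩
  set W := w.factorial with hWdef
  have hW : 0 < W := Nat.factorial_pos w
  set Vw : ℝ := V (primesTo w) with hVw
  have hVwW : (W : ℝ) / W.totient = Vw := factorial_ratio w
  have hVw1 : 1 ≤ Vw := one_le_V (fun p hp => (mem_primesTo.1 hp).2)
  have hVw0 : 0 < Vw := by linarith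
  -- choice of κ
  obtain ⟨κ, hκ⟩ : ∃ κ : ℕ, 38500000 * Vw ^ 3 / δ + 1 ≤ κ := exists_nat_ge _
  have hκ0' : (0 : ℝ) < κ := by
    have : 0 ≤ 38500000 * Vw ^ 3 / δ := by positivity
    linarith
  have hκ0 : 0 < κ := by exact_mod_cast hκ0'
  have hκ2 : 38500000 * Vw ^ 3 / κ ≤ δ := by
    rw [div_le_iff₀ hκ0']
    have : 38500000 * Vw ^ 3 / δ ≤ κ := by linarith
    rw [div_le_iff₀ hδ] at this
    linarith
  -- choice of ε
  set ε : ℝ := δ / (21000 * Vw) with hε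
  have hε0 : 0 < ε := by positivity
  -- eventual conditions
  have hT : Tendsto (fun n : ℕ => n ^ 24) atTop atTop := tendsto_pow_atTop (by norm_num)
  have hsm := hT.eventually (small_arc W hW (κ ^ 2) ε (by positivity) hε0)
  have hlogev : ∀ᶠ n : ℕ in atTop, (Real.log n) ^ 5 ≤
      (δ ^ 2 / (43740 * 784 * (9 * 10 ^ 8) * Vw ^ 2)) * n := by
    have h1 := (Real.isLittleO_pow_log_id_atTop (n := 5)).def
      (show 0 < δ ^ 2 / (43740 * 784 * (9 * 10 ^ 8) * Vw ^ 2) by positivity)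
    have h2 := tendsto_natCast_atTop_atTop (R := ℝ) |>.eventually h1
    filter_upwards [h2] with n hn
    simp only [id] at hn
    rw [Real.norm_of_nonneg (pow_nonneg (Real.log_natCast_nonneg n) 5),
      Real.norm_of_nonneg (Nat.cast_nonneg n)] at hn
    exact hn
  filter_upwards [hsm, hlogev, eventually_ge_atTop (3 * κ ^ 2 * w), eventually_ge_atTop 3]
    with n hsmn hlogn hnκ hn3 P P' hP hP'
  have hn : 2 ≤ n := by omega
  have hn' : (3 : ℝ) ≤ n := by exact_mod_cast hn3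
  have hn0 : (0 : ℝ) < n := by linarith
  have hlog1 : 1 ≤ Real.log n := by
    rw [Real.le_log_iff_exp_le hn0]
    have := Real.exp_one_lt_d9
    linarith
  set M0 := 8 * (4 * n ^ 32) with hM0
  choose α β hx hα0 hαY hβ using fun r : ℕ => dirichlet (pt M0 r) (n ^ 24) (by positivity)
  set a : ℕ → ℝ := fun r => ‖FS P (pt M0 r)‖ * ‖FS P' (pt M0 r)‖ with ha
  set h : ℕ → ℝ := fun r => KS n (Ioc (n ^ 24) (6 * n ^ 24)) (kw W) (pt M0 r) with hh
  have ha0 : ∀ r, 0 ≤ a r := fun r => by rw [ha]; positivity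
  change ∑ r ∈ range M0, a r * h r ≤ _
  set q : ℕ → ℕ := fun r => addOrderOf (α r) with hq
  have hβ24 : ∀ r, ‖β r‖ ≤ 1 / (n : ℝ) ^ 24 := by
    intro r
    refine (hβ r).trans ?_
    apply one_div_le_one_div_of_le (by positivity)
    have h1 : (1 : ℝ) ≤ addOrderOf (α r) := by exact_mod_cast hα0 r
    push_cast
    nlinarith [show (0 : ℝ) < (n : ℝ) ^ 24 by positivity]
  -- the decomposition
  set Maj := {r ∈ range M0 | q r ≤ n ^ 2 ∧ ‖β r‖ ≤ 1 / (q r * n ^ 3 * (6 * n ^ 24))} with hMaj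
  set Mi := {r ∈ range M0 | ¬ (q r ≤ n ^ 2 ∧ ‖β r‖ ≤ 1 / (q r * n ^ 3 * (6 * n ^ 24)))} with hMi
  have hsplit1 : ∑ r ∈ range M0, a r * h r = ∑ r ∈ Maj, a r * h r + ∑ r ∈ Mi, a r * h r :=
    (sum_filter_add_sum_filter_not _ _ _).symm
  set Big := {r ∈ Maj | 2 ^ j0 ≤ q r} with hBig
  set Sml := {r ∈ Maj | ¬ 2 ^ j0 ≤ q r} with hSml
  have hsplit2 : ∑ r ∈ Maj, a r * h r = ∑ r ∈ Big, a r * h r + ∑ r ∈ Sml, a r * h r :=
    (sum_filter_add_sum_filter_not _ _ _).symm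
  set Far := {r ∈ Sml | (κ : ℝ) ^ 2 / (4 * n ^ 32) < ‖β r‖} with hFar
  set Near := {r ∈ Sml | ¬ (κ : ℝ) ^ 2 / (4 * n ^ 32) < ‖β r‖} with hNear
  have hsplit3 : ∑ r ∈ Sml, a r * h r = ∑ r ∈ Far, a r * h r + ∑ r ∈ Near, a r * h r :=
    (sum_filter_add_sum_filter_not _ _ _).symm
  have hMajmem : ∀ r ∈ Maj, r ∈ range M0 ∧ q r ≤ n ^ 2 ∧
      ‖β r‖ ≤ 1 / (q r * n ^ 3 * (6 * n ^ 24)) := fun r hr => mem_filter.1 hr
  have hn32 : (0 : ℝ) < (n : ℝ) ^ 32 := by positivity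
  -- Part 1: minor arcs
  have hpart1 : ∑ r ∈ Mi, a r * h r ≤ δ / 4 * (4 * (n : ℝ) ^ 32) ^ 3 := by
    set X : ℝ := δ * n ^ 32 / (30000 * Real.log n) with hX
    have hX0 : 0 ≤ X := by positivity
    have h1 : ∑ r ∈ Mi, a r ≤ 30000 * Real.log n * (4 * n ^ 32) ^ 2 := by
      refine le_trans ?_ (fg_all n hn P P' hP hP')
      exact sum_le_sum_of_subset_of_nonneg (filter_subset _ _) fun r _ _ => ha0 r
    have h2 : ∀ r ∈ Mi, h r ≤ X := by
      intro r hr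
      rw [hMi, mem_filter] at hr
      rw [hh]
      simp only
      rw [hx r]
      have hkw : ∀ t ∈ Ioc (n ^ 24) (6 * n ^ 24), |kw W t| ≤ 28 * Vw * Real.log n := by
        intro t ht
        rw [mem_Ioc] at ht
        have h3 := log_bound n hn 6 3 24 (by norm_num) (by norm_num)
        have h4 : Real.log t ≤ 27 * Real.log n := by
          have : Real.log t ≤ Real.log ((6 * n ^ 24 : ℕ) : ℝ) := by
            apply Real.log_le_log
            · have : 0 < t := by omega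
              exact_mod_cast this
            · exact_mod_cast ht.2
          push_cast at h3 this
          linarith
        have h5 : 0 ≤ Real.log t := Real.log_natCast_nonneg t
        have h6 : Real.log n ≤ Vw * Real.log n := by nlinarith
        have h7 : Vw ≤ Vw * Real.log n := by nlinarith
        unfold kw
        rw [hVwW, abs_le]
        split_ifs <;> constructor <;> linarith
      have h3 := minor_bound hn (rfl : addOrderOf (α r) = addOrderOf (α r)) (hα0 r) (hαY r) (hβ r)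
        (by
          rcases not_and_or.1 hr.2 with h4 | h4
          · left; exact not_le.1 h4
          · right; exact not_le.1 h4)
        (Ioc (n ^ 24) (6 * n ^ 24)) subset_rfl (kw W) (28 * Vw * Real.log n) hkw
      apply sqrt_le_aux hX0 h3
      rw [hX, div_pow, le_div_iff₀ (by positivity)]
      have h4 : 43740 * Real.log n * (28 * Vw * Real.log n) ^ 2 * (n : ℝ) ^ 62 *
          (30000 * Real.log n) ^ 2 =
          43740 * 784 * (9 * 10 ^ 8) * Vw ^ 2 * (Real.log n ^ 5) * (n : ℝ) ^ 62 := by ring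
      rw [h4]
      calc 43740 * 784 * (9 * 10 ^ 8) * Vw ^ 2 * (Real.log n ^ 5) * (n : ℝ) ^ 62
          ≤ 43740 * 784 * (9 * 10 ^ 8) * Vw ^ 2 *
            ((δ ^ 2 / (43740 * 784 * (9 * 10 ^ 8) * Vw ^ 2)) * n) * (n : ℝ) ^ 62 := by gcongr
        _ = δ ^ 2 * (n : ℝ) ^ 63 := by field_simp
        _ ≤ δ ^ 2 * (n : ℝ) ^ 64 := by
            have : (n : ℝ) ^ 63 ≤ (n : ℝ) ^ 64 := pow_le_pow_right₀ (by linarith) (by norm_num)
            gcongr
        _ = _ := by ring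
    refine (part_le Mi a h _ X (fun r _ => ha0 r) h1 hX0 h2).trans (le_of_eq ?_)
    rw [hX]
    field_simp
  -- Part 2: large denominators
  have hpart2 : ∑ r ∈ Big, a r * h r ≤ δ / 4 * (4 * (n : ℝ) ^ 32) ^ 3 := by
    have hmaps : ∀ r ∈ Big, Nat.log 2 (q r) ∈ Ico j0 (n ^ 2 + 1) := by
      intro r hr
      rw [hBig, mem_filter] at hr
      rw [mem_Ico]
      refine ⟨Nat.le_log_of_pow_le (by norm_num) hr.2, ?_⟩
      have := (hMajmem r hr.1).2.1
      have := Nat.log_le_self 2 (q r)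
      omega
    rw [← sum_fiberwise_of_maps_to hmaps]
    have hj : ∀ j ∈ Ico j0 (n ^ 2 + 1), ∑ r ∈ Big with Nat.log 2 (q r) = j, a r * h r ≤
        38500000 * C ^ 3 * (289 / 256) * (17 / 16) ^ j0 * (n ^ 32 * (4 * n ^ 32) ^ 2) *
          (1445 / 1792) ^ j := by
      intro j _
      set v : ℝ := V (primesTo (2 ^ (j + 1))) with hv
      have hv1 : 1 ≤ v := one_le_V (fun p hp => (mem_primesTo.1 hp).2)
      set X : ℝ := v * (5 / 7) ^ j * n ^ 32 with hX
      have hX0 : 0 ≤ X := by positivity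
      have hmem : ∀ r ∈ Big.filter (fun r => Nat.log 2 (q r) = j),
          r ∈ range M0 ∧ q r ≤ n ^ 2 ∧ ‖β r‖ ≤ 1 / (q r * n ^ 3 * (6 * n ^ 24)) ∧
            2 ^ j ≤ q r ∧ q r < 2 ^ (j + 1) := by
        intro r hr
        rw [mem_filter, hBig, mem_filter] at hr
        obtain ⟨e1, e2, e3⟩ := hMajmem r hr.1.1
        refine ⟨e1, e2, e3, ?_, ?_⟩
        · rw [← hr.2]; exact Nat.pow_log_le_self 2 (hα0 r).ne'
        · rw [← hr.2]; exact Nat.lt_pow_succ_log_self (by norm_num) _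
      have h1 : ∑ r ∈ Big with Nat.log 2 (q r) = j, a r ≤ 7000 * v * (4 * n ^ 32) ^ 2 :=
        fg_major n hn P P' hP hP' _ (fun r hr => (hmem r hr).1) α β (fun r _ => hx r)
          (2 ^ (j + 1)) (fun r _ => hα0 r) (fun r hr => (hmem r hr).2.2.2.2.le)
          (fun r hr => (hmem r hr).2.1) (fun r _ => hβ24 r)
      have h2 : ∀ r ∈ Big.filter (fun r => Nat.log 2 (q r) = j), h r ≤ 5500 * Vw * X := by
        intro r hr
        obtain ⟨e1, e2, e3, e4, e5⟩ := hmem r hr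
        rw [hh]
        simp only
        rw [hx r, ← hVwW]
        have hn28 : n ^ 2 * n ^ 2 ≤ n ^ 8 := by
          rw [← pow_add]; exact Nat.pow_le_pow_right (by omega) (by norm_num)
        refine major_kw (D := n ^ 8) W hW hn rfl (hα0 r) e2 e3 (Or.inl le_rfl) ?_ ?_ v X
          (ratio_le_V (hα0 r) e5.le) hX0 ?_
        · calc n ^ 2 * addOrderOf (α r) ≤ n ^ 2 * n ^ 2 := Nat.mul_le_mul_left _ e2
            _ ≤ n ^ 8 := hn28
            _ ≤ 2 * n ^ 8 := by omega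
        · exact e2.trans (Nat.pow_le_pow_right (by omega) (by norm_num))
        · have h3 : ((2 : ℝ)) ^ j ≤ addOrderOf (α r) := by exact_mod_cast e4
          rw [hX]
          push_cast
          calc v ^ 2 / (addOrderOf (α r) : ℝ) * ((n : ℝ) ^ 8 * (n : ℝ) ^ 8 * ((n : ℝ) ^ 24) ^ 2)
              ≤ v ^ 2 / 2 ^ j * ((n : ℝ) ^ 8 * (n : ℝ) ^ 8 * ((n : ℝ) ^ 24) ^ 2) := by gcongr
            _ = v ^ 2 * (1 / 2) ^ j * ((n : ℝ) ^ 32) ^ 2 := by
                rw [one_div, inv_pow]; ring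
            _ ≤ v ^ 2 * (25 / 49) ^ j * ((n : ℝ) ^ 32) ^ 2 := by
                have h4 : (1 / 2 : ℝ) ^ j ≤ (25 / 49) ^ j :=
                  pow_le_pow_left₀ (by norm_num) (by norm_num) j
                exact mul_le_mul_of_nonneg_right (mul_le_mul_of_nonneg_left h4 (sq_nonneg v))
                  (sq_nonneg _)
            _ = _ := by
                rw [show (25 / 49 : ℝ) = (5 / 7) ^ 2 by norm_num, ← pow_mul]; ring
      refine (part_le _ a h _ (5500 * Vw * X) (fun r _ => ha0 r) h1 (by positivity) h2).trans ?_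
      have hvC : v ≤ C * (17 / 16) ^ (j + 1) := hC (j + 1)
      have hVwC : Vw ≤ C * (17 / 16) ^ j0 := hC j0
      have hC0 : 0 < C := by linarith
      rw [hX]
      calc 7000 * v * (4 * (n : ℝ) ^ 32) ^ 2 * (5500 * Vw * (v * (5 / 7) ^ j * (n : ℝ) ^ 32))
          = 38500000 * (v * v) * Vw * (5 / 7) ^ j * ((n : ℝ) ^ 32 * (4 * (n : ℝ) ^ 32) ^ 2) := by
            ring
        _ ≤ 38500000 * ((C * (17 / 16) ^ (j + 1)) * (C * (17 / 16) ^ (j + 1))) *
            (C * (17 / 16) ^ j0) * (5 / 7) ^ j * ((n : ℝ) ^ 32 * (4 * (n : ℝ) ^ 32) ^ 2) := by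
            gcongr
        _ = 38500000 * C ^ 3 * (289 / 256) * (17 / 16) ^ j0 *
            ((n : ℝ) ^ 32 * (4 * (n : ℝ) ^ 32) ^ 2) *
            (((17 / 16) ^ j * (17 / 16) ^ j) * (5 / 7) ^ j) := by ring
        _ = _ := by
            rw [← mul_pow, ← mul_pow]; norm_num
    refine (sum_le_sum hj).trans ?_
    rw [← mul_sum]
    have hgeo : ∑ j ∈ Ico j0 (n ^ 2 + 1), (1445 / 1792 : ℝ) ^ j ≤
        (1445 / 1792) ^ j0 / (1 - 1445 / 1792) :=
      geom_sum_Ico_le_of_lt_one (by norm_num) (by norm_num)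
    calc 38500000 * C ^ 3 * (289 / 256) * (17 / 16) ^ j0 *
            ((n : ℝ) ^ 32 * (4 * (n : ℝ) ^ 32) ^ 2) *
            ∑ j ∈ Ico j0 (n ^ 2 + 1), (1445 / 1792 : ℝ) ^ j
        ≤ 38500000 * C ^ 3 * (289 / 256) * (17 / 16) ^ j0 *
            ((n : ℝ) ^ 32 * (4 * (n : ℝ) ^ 32) ^ 2) * ((1445 / 1792) ^ j0 / (1 - 1445 / 1792)) := by
          apply mul_le_mul_of_nonneg_left hgeo
          have : 0 < C := by linarith
          positivity
      _ = Cst * ((17 / 16) ^ j0 * (1445 / 1792) ^ j0) *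
            ((n : ℝ) ^ 32 * (4 * (n : ℝ) ^ 32) ^ 2) := by
          rw [hCst]; ring
      _ = Cst * (24565 / 28672) ^ j0 * ((n : ℝ) ^ 32 * (4 * (n : ℝ) ^ 32) ^ 2) := by
          rw [← mul_pow]; norm_num
      _ ≤ δ * ((n : ℝ) ^ 32 * (4 * (n : ℝ) ^ 32) ^ 2) := by gcongr
      _ = _ := by ring
  have hSmlmem : ∀ r ∈ Sml, r ∈ range M0 ∧ q r ≤ n ^ 2 ∧
      ‖β r‖ ≤ 1 / (q r * n ^ 3 * (6 * n ^ 24)) ∧ q r ≤ w := by
    intro r hr
    rw [hSml, mem_filter] at hr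
    obtain ⟨e1, e2, e3⟩ := hMajmem r hr.1
    exact ⟨e1, e2, e3, (not_le.1 hr.2).le⟩
  -- Part 3
  have hpart3 : ∑ r ∈ Far, a r * h r ≤ δ / 4 * (4 * (n : ℝ) ^ 32) ^ 3 := by
    have hmem : ∀ r ∈ Far, r ∈ range M0 ∧ q r ≤ n ^ 2 ∧
      ‖β r‖ ≤ 1 / (q r * n ^ 3 * (6 * n ^ 24)) ∧ q r ≤ w ∧
      (κ : ℝ) ^ 2 / (4 * n ^ 32) < ‖β r‖ := by
      intro r hr
      rw [hFar, mem_filter] at hr
      obtain ⟨e1, e2, e3, e4⟩ := hSmlmem r hr.1
      exact ⟨e1, e2, e3, e4, hr.2⟩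
    set X : ℝ := Vw * n ^ 32 / κ with hX
    have hX0 : 0 ≤ X := by positivity
    have h1 : ∑ r ∈ Far, a r ≤ 7000 * Vw * (4 * n ^ 32) ^ 2 :=
      fg_major n hn P P' hP hP' _ (fun r hr => (hmem r hr).1) α β (fun r _ => hx r)
        w (fun r _ => hα0 r) (fun r hr => (hmem r hr).2.2.2.1)
        (fun r hr => (hmem r hr).2.1) (fun r _ => hβ24 r)
    have h2 : ∀ r ∈ Far, h r ≤ 5500 * Vw * X := by
      intro r hr
      obtain ⟨e1, e2, e3, e4, e5⟩ := hmem r hr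
      rw [hh]
      simp only
      rw [hx r, ← hVwW]
      have h3κ : 0 < 3 * κ ^ 2 := by positivity
      have hDlow : n ^ 2 * w ≤ n ^ 8 / (3 * κ ^ 2) := by
        rw [Nat.le_div_iff_mul_le h3κ]
        calc n ^ 2 * w * (3 * κ ^ 2) = n ^ 2 * (3 * κ ^ 2 * w) := by ring
          _ ≤ n ^ 2 * n := Nat.mul_le_mul_left _ hnκ
          _ = n ^ 3 := by ring
          _ ≤ n ^ 8 := Nat.pow_le_pow_right (by omega) (by norm_num)
      have hn21 : 1 ≤ n ^ 2 := Nat.one_le_pow _ _ (by omega)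
      refine major_kw (D := n ^ 8 / (3 * κ ^ 2)) W hW hn rfl (hα0 r) e2 e3 (Or.inr ?_) ?_ ?_ Vw X
        (ratio_le_V (hα0 r) e4) hX0 ?_
      · have h3 : (n : ℝ) ^ 8 ≤ 3 * κ ^ 2 * (((n ^ 8 / (3 * κ ^ 2) : ℕ) : ℝ) + 1) := by
          have := Nat.lt_mul_div_succ (n ^ 8) h3κ
          have h4 : n ^ 8 ≤ 3 * κ ^ 2 * (n ^ 8 / (3 * κ ^ 2) + 1) := this.le
          exact_mod_cast h4
        set D1 : ℝ := ((n ^ 8 / (3 * κ ^ 2) : ℕ) : ℝ) + 1 with hD1
        have hD1' : 0 < D1 := by positivity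
        calc (1 : ℝ) = 12 * (n : ℝ) ^ 24 * ((n : ℝ) ^ 8) / (12 * (n : ℝ) ^ 32) := by
              field_simp
          _ ≤ 12 * (n : ℝ) ^ 24 * (3 * κ ^ 2 * D1) / (12 * (n : ℝ) ^ 32) := by gcongr
          _ = 2 * (6 * (n : ℝ) ^ 24) * D1 * ((κ : ℝ) ^ 2 / (4 * n ^ 32)) := by
              field_simp
              ring
          _ ≤ _ := by gcongr
      · calc n ^ 2 * addOrderOf (α r) ≤ n ^ 2 * w := Nat.mul_le_mul_left _ e4
          _ ≤ n ^ 8 / (3 * κ ^ 2) := hDlow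
          _ ≤ _ := by omega
      · calc addOrderOf (α r) ≤ w := e4
          _ ≤ n ^ 2 * w := Nat.le_mul_of_pos_left _ (by omega)
          _ ≤ _ := hDlow
      · have h3 : (((n ^ 8 / (3 * κ ^ 2) : ℕ)) : ℝ) ≤ (n : ℝ) ^ 8 / κ ^ 2 := by
          refine (Nat.cast_div_le).trans ?_
          push_cast
          apply div_le_div_of_nonneg_left (by positivity) (by positivity)
          nlinarith [sq_nonneg (κ : ℝ)]
        have h4 : (1 : ℝ) ≤ addOrderOf (α r) := by exact_mod_cast hα0 r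
        rw [hX]
        calc Vw ^ 2 / (addOrderOf (α r) : ℝ) *
              ((((n ^ 8 / (3 * κ ^ 2) : ℕ)) : ℝ) * (n : ℝ) ^ 8 * ((n : ℝ) ^ 24) ^ 2)
            ≤ Vw ^ 2 / 1 * (((n : ℝ) ^ 8 / κ ^ 2) * (n : ℝ) ^ 8 * ((n : ℝ) ^ 24) ^ 2) := by
              gcongr
          _ = _ := by field_simp
    refine (part_le _ a h _ (5500 * Vw * X) (fun r _ => ha0 r) h1 (by positivity) h2).trans ?_
    rw [hX]
    calc 7000 * Vw * (4 * (n : ℝ) ^ 32) ^ 2 * (5500 * Vw * (Vw * (n : ℝ) ^ 32 / κ))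
        = (38500000 * Vw ^ 3 / κ) * ((n : ℝ) ^ 32 * (4 * (n : ℝ) ^ 32) ^ 2) := by ring
      _ ≤ δ * ((n : ℝ) ^ 32 * (4 * (n : ℝ) ^ 32) ^ 2) := by gcongr
      _ = _ := by ring
  -- Part 4
  have hpart4 : ∑ r ∈ Near, a r * h r ≤ δ / 4 * (4 * (n : ℝ) ^ 32) ^ 3 := by
    have hmem : ∀ r ∈ Near, r ∈ range M0 ∧ q r ≤ n ^ 2 ∧ q r ≤ w ∧
      ‖β r‖ ≤ (κ : ℝ) ^ 2 / (4 * n ^ 32) := by
      intro r hr
      rw [hNear, mem_filter] at hr
      obtain ⟨e1, e2, e3, e4⟩ := hSmlmem r hr.1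
      exact ⟨e1, e2, e4, not_lt.1 hr.2⟩
    have h1 : ∑ r ∈ Near, a r ≤ 7000 * Vw * (4 * n ^ 32) ^ 2 :=
      fg_major n hn P P' hP hP' _ (fun r hr => (hmem r hr).1) α β (fun r _ => hx r)
        w (fun r _ => hα0 r) (fun r hr => (hmem r hr).2.2.1)
        (fun r hr => (hmem r hr).2.1) (fun r _ => hβ24 r)
    have h2 : ∀ r ∈ Near, h r ≤ 3 * ε * n ^ 32 := by
      intro r hr
      obtain ⟨e1, e2, e3, e4⟩ := hmem r hr
      rw [hh]
      simp only
      unfold KS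
      have h3 : ∀ l ∈ PL n, Real.log l *
          ‖nsum (Ioc (n ^ 24) (6 * n ^ 24)) (kw W) ((2 * l) • pt M0 r)‖ ≤
          Real.log l * (ε * (n : ℝ) ^ 24) := by
        intro l hl
        apply mul_le_mul_of_nonneg_left _ (Real.log_natCast_nonneg l)
        rw [hx r, smul_add]
        have h4 := hsmn ((2 * l) • α r) ((2 * l) • β r)
          (by
            have h5 : W • α r = 0 := by
              apply addOrderOf_dvd_iff_nsmul_eq_zero.1
              exact Nat.dvd_factorial (hα0 r) e3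
            rw [smul_comm, h5, smul_zero])
          (by
            have h5 : ‖(2 * l) • β r‖ ≤ ((2 * l : ℕ) : ℝ) * ‖β r‖ := norm_nsmul_le
            refine h5.trans ?_
            have h6 : ((2 * l : ℕ) : ℝ) ≤ 4 * (n : ℝ) ^ 8 := by
              have := (mem_Ioc.1 (PL_sub n hl)).2
              have : 2 * l ≤ 4 * n ^ 8 := by omega
              exact_mod_cast this
            calc ((2 * l : ℕ) : ℝ) * ‖β r‖ ≤ 4 * (n : ℝ) ^ 8 * ((κ : ℝ) ^ 2 / (4 * n ^ 32)) := by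
                  gcongr
              _ = _ := by push_cast; field_simp)
        push_cast at h4
        exact h4
      refine (sum_le_sum h3).trans ?_
      rw [← sum_mul]
      calc (∑ l ∈ PL n, Real.log l) * (ε * (n : ℝ) ^ 24) ≤ (3 * n ^ 8) * (ε * (n : ℝ) ^ 24) := by
            apply mul_le_mul_of_nonneg_right (sum_log_PL n) (by positivity)
        _ = _ := by ring
    refine (part_le _ a h _ (3 * ε * n ^ 32) (fun r _ => ha0 r) h1 (by positivity) h2).trans ?_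
    rw [hε]
    apply le_of_eq
    field_simp
    ring
  rw [hsplit1, hsplit2, hsplit3]
  linarith

end LSieve
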