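import Pool.Agent.LibLargeSieve.Small

/-!
# The total error term
-/

namespace LSieve

open Finset Filter Topology

/-- Indicator of being prime to `W`. -/
noncomputable def ind (W : ℕ) (t : ℕ) : ℝ := if t.Coprime W then 1 else 0

lemma nsum_kw (n W : ℕ) (x : UnitAddCircle) :
    nsum (Ioc (n ^ 24) (6 * n ^ 24)) (kw W) x =
      nsum (PT n) (fun t => Real.log t) x -
        ((W : ℝ) / W.totient : ℝ) * nsum (Ioc (n ^ 24) (6 * n ^ 24)) (ind W) x := by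
  unfold nsum PT kw ind
  rw [mul_sum, sum_filter, ← sum_sub_distrib]
  refine sum_congr rfl fun t _ => ?_
  by_cases h1 : t.Prime
  · by_cases h2 : t.Coprime W
    · rw [if_pos h1, if_pos h1, if_pos h2, if_pos h2, Complex.ofReal_sub, Complex.ofReal_one]
      ring
    · rw [if_pos h1, if_pos h1, if_neg h2, if_neg h2, Complex.ofReal_sub, Complex.ofReal_zero]
      ring
  · by_cases h2 : t.Coprime W
    · rw [if_neg h1, if_neg h1, if_pos h2, if_pos h2, Complex.ofReal_sub, Complex.ofReal_one,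
        Complex.ofReal_zero]
      ring
    · rw [if_neg h1, if_neg h1, if_neg h2, if_neg h2, Complex.ofReal_sub, Complex.ofReal_zero]
      ring

lemma KS_kw_le (n W : ℕ) (θ : UnitAddCircle) :
    KS n (Ioc (n ^ 24) (6 * n ^ 24)) (kw W) θ ≤ KS n (PT n) (fun t => Real.log t) θ +
      ((W : ℝ) / W.totient) * KS n (Ioc (n ^ 24) (6 * n ^ 24)) (ind W) θ := by
  unfold KS
  rw [mul_sum, ← sum_add_distrib]
  refine sum_le_sum fun l _ => ?_
  rw [nsum_kw]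
  have h1 : (0 : ℝ) ≤ (W : ℝ) / W.totient := by positivity
  have h2 := norm_sub_le (nsum (PT n) (fun t => Real.log t) ((2 * l) • θ))
    (((W : ℝ) / W.totient : ℝ) * nsum (Ioc (n ^ 24) (6 * n ^ 24)) (ind W) ((2 * l) • θ))
  rw [norm_mul, Complex.norm_real, Real.norm_of_nonneg h1] at h2
  have h3 := Real.log_natCast_nonneg l
  calc Real.log l * _ ≤ Real.log l * _ := mul_le_mul_of_nonneg_left h2 h3
    _ = _ := by ring

lemma sqrt_le_aux {a b c : ℝ} (hb : 0 ≤ b) (h : a ^ 2 ≤ c) (hc : c ≤ b ^ 2) : a ≤ b :=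
  le_of_sq_le_sq (h.trans hc) hb

/-- Major arc bound for `kw`. -/
lemma major_kw {α β : UnitAddCircle} {q n D : ℕ} (W : ℕ) (hW : 0 < W)
    (hn : 2 ≤ n) (hq : addOrderOf α = q) (hq0 : 0 < q) (hqn : q ≤ n ^ 2)
    (hβ : ‖β‖ ≤ 1 / (q * n ^ 3 * (6 * n ^ 24)))
    (hD : n ^ 8 ≤ D ∨ 1 ≤ 2 * (6 * (n : ℝ) ^ 24) * ((D : ℝ) + 1) * ‖β‖)
    (hM : n ^ 2 * q ≤ 2 * D) (hqD : q ≤ D) (v X : ℝ) (hv : (q : ℝ) / q.totient ≤ v)
    (hX : 0 ≤ X) (hvX : v ^ 2 / q * (D * n ^ 8 * (n ^ 24) ^ 2) ≤ X ^ 2) :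
    KS n (Ioc (n ^ 24) (6 * n ^ 24)) (kw W) (α + β) ≤ 5500 * ((W : ℝ) / W.totient) * X := by
  have hq0' : (0 : ℝ) < q := by exact_mod_cast hq0
  have hφ : (0 : ℝ) < q.totient := by exact_mod_cast Nat.totient_pos.2 hq0
  have hφq : (q.totient : ℝ) ≤ q := by exact_mod_cast Nat.totient_le q
  have hφW : (0 : ℝ) < W.totient := by exact_mod_cast Nat.totient_pos.2 hW
  have hVW : 1 ≤ (W : ℝ) / W.totient := by
    rw [le_div_iff₀ hφW, one_mul]; exact_mod_cast Nat.totient_le W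
  have h1v : 1 ≤ (q : ℝ) / q.totient := by
    rw [le_div_iff₀ hφ, one_mul]; exact hφq
  have hv1 : 1 ≤ v := h1v.trans hv
  have h1 := major_primes hn hq hq0 hqn hβ hD hM hqD
  have h2 := major_bounded hn hq hq0 hqn hβ hD hM hqD (Ioc (n ^ 24) (6 * n ^ 24)) subset_rfl
    (ind W) (by intro t _; unfold ind; split_ifs <;> simp)
  set Z : ℝ := D * (n : ℝ) ^ 8 * ((n : ℝ) ^ 24) ^ 2 with hZ
  have hZ0 : 0 ≤ Z := by positivity
  have h3 : (q : ℝ) / (q.totient : ℝ) ^ 2 * Z ≤ X ^ 2 := by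
    refine le_trans ?_ hvX
    apply mul_le_mul_of_nonneg_right _ hZ0
    have : (q : ℝ) / (q.totient : ℝ) ^ 2 = ((q : ℝ) / q.totient) ^ 2 / q := by field_simp
    rw [this]
    gcongr
  have h4 : 1 / (q.totient : ℝ) * Z ≤ X ^ 2 := by
    refine le_trans ?_ hvX
    apply mul_le_mul_of_nonneg_right _ hZ0
    have : 1 / (q.totient : ℝ) = ((q : ℝ) / q.totient) / q := by field_simp
    rw [this]
    gcongr
    nlinarith
  have h5 : KS n (PT n) (fun t => Real.log t) (α + β) ≤ 4500 * X := by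
    apply sqrt_le_aux (by positivity) h1
    nlinarith [sq_nonneg X]
  have h6 : KS n (Ioc (n ^ 24) (6 * n ^ 24)) (ind W) (α + β) ≤ 1000 * X := by
    apply sqrt_le_aux (by positivity) h2
    nlinarith [sq_nonneg X]
  refine (KS_kw_le n W _).trans ?_
  calc _ ≤ 4500 * X + ((W : ℝ) / W.totient) * (1000 * X) := by gcongr
    _ ≤ 4500 * (((W : ℝ) / W.totient) * X) + ((W : ℝ) / W.totient) * (1000 * X) := by
        have : X ≤ ((W : ℝ) / W.totient) * X := by nlinarith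
        linarith
    _ = _ := by ring

/-- Admissible sets of primes. -/
def Good (n : ℕ) (P : Finset ℕ) : Prop :=
  (∃ A, P ⊆ Ico A (A + 4 * n ^ 32)) ∧ (∀ p ∈ P, p.Prime) ∧ (∀ p ∈ P, n ^ 9 < p) ∧
    P ⊆ primesTo (16 * n ^ 32)

/-- The exponential sum over primes with logarithmic weights. -/
noncomputable def FS (P : Finset ℕ) (x : UnitAddCircle) : ℂ := nsum P (fun p => Real.log p) x

lemma fg_all (n : ℕ) (hn : 2 ≤ n) (P P' : Finset ℕ) (hP : Good n P) (hP' : Good n P') :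
    ∑ r ∈ range (8 * (4 * n ^ 32)), ‖FS P (pt (8 * (4 * n ^ 32)) r)‖ *
      ‖FS P' (pt (8 * (4 * n ^ 32)) r)‖ ≤ 30000 * Real.log n * (4 * n ^ 32) ^ 2 := by
  have hlog : 0 ≤ Real.log n := Real.log_natCast_nonneg n
  have key : ∀ P : Finset ℕ, Good n P →
      ∑ r ∈ range (8 * (4 * n ^ 32)), ‖FS P (pt (8 * (4 * n ^ 32)) r)‖ ^ 2 ≤
        30000 * Real.log n * (4 * n ^ 32) ^ 2 := by
    intro P hP
    obtain ⟨⟨A, hA⟩, hp, -, hX⟩ := hP
    have h1 := mean_sq (4 * n ^ 32) (by positivity) A P hA (fun p => Real.log p)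
    have hT := sum_log_sq_le P (16 * n ^ 32) hX
    have hT2 := log_bound n hn 16 4 32 (by norm_num) (by norm_num)
    have hT3 : ∑ t ∈ P, Real.log t ^ 2 ≤ 864 * Real.log n * n ^ 32 := by
      refine hT.trans ?_
      push_cast at hT2 ⊢
      calc Real.log (16 * (n : ℝ) ^ 32) * (3 / 2 * (16 * (n : ℝ) ^ 32))
          ≤ ((4 + 32) * Real.log n) * (3 / 2 * (16 * (n : ℝ) ^ 32)) := by gcongr
        _ = _ := by ring
    refine h1.trans ?_
    calc 135 * ((4 * n ^ 32 : ℕ) : ℝ) * ∑ p ∈ P, Real.log p ^ 2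
        ≤ 135 * ((4 * n ^ 32 : ℕ) : ℝ) * (864 * Real.log n * n ^ 32) := by gcongr
      _ = 29160 * Real.log n * (4 * (n : ℝ) ^ 32) ^ 2 := by push_cast; ring
      _ ≤ _ := by gcongr; norm_num
  have h1 := key P hP
  have h2 := key P' hP'
  calc ∑ r ∈ range (8 * (4 * n ^ 32)), ‖FS P (pt (8 * (4 * n ^ 32)) r)‖ *
      ‖FS P' (pt (8 * (4 * n ^ 32)) r)‖
      ≤ ∑ r ∈ range (8 * (4 * n ^ 32)), (‖FS P (pt (8 * (4 * n ^ 32)) r)‖ ^ 2 / 2 +
      ‖FS P' (pt (8 * (4 * n ^ 32)) r)‖ ^ 2 / 2) := by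
        refine sum_le_sum fun r _ => ?_
        have := two_mul_le_add_sq ‖FS P (pt (8 * (4 * n ^ 32)) r)‖
          ‖FS P' (pt (8 * (4 * n ^ 32)) r)‖
        linarith
    _ ≤ _ := by
        rw [sum_add_distrib, ← sum_div, ← sum_div]
        linarith

lemma fg_major (n : ℕ) (hn : 2 ≤ n) (P P' : Finset ℕ) (hP : Good n P) (hP' : Good n P')
    (S : Finset ℕ) (hS : S ⊆ range (8 * (4 * n ^ 32)))
    (α β : ℕ → UnitAddCircle) (hx : ∀ r ∈ S, pt (8 * (4 * n ^ 32)) r = α r + β r)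
    (Q : ℕ)
    (hα : ∀ r ∈ S, 0 < addOrderOf (α r)) (hαQ : ∀ r ∈ S, addOrderOf (α r) ≤ Q)
    (hαn : ∀ r ∈ S, addOrderOf (α r) ≤ n ^ 2)
    (hβ : ∀ r ∈ S, ‖β r‖ ≤ 1 / (n : ℝ) ^ 24) :
    ∑ r ∈ S, ‖FS P (pt (8 * (4 * n ^ 32)) r)‖ *
      ‖FS P' (pt (8 * (4 * n ^ 32)) r)‖ ≤ 7000 * V (primesTo Q) * (4 * n ^ 32) ^ 2 := by
  have key : ∀ P : Finset ℕ, Good n P →
      ∑ r ∈ S, ‖FS P (pt (8 * (4 * n ^ 32)) r)‖ ^ 2 ≤
        7000 * V (primesTo Q) * (4 * n ^ 32) ^ 2 := by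
    intro P hP
    obtain ⟨⟨A, hA⟩, hp, hpM, hX⟩ := hP
    have h1 := mean_sq_major n hn S hS α β hx (min Q (n ^ 2)) (min_le_right _ _) hα
      (fun r hr => le_min (hαQ r hr) (hαn r hr)) hβ A P hA hp hpM hX
    refine h1.trans ?_
    have h2 : V (primesTo (min Q (n ^ 2))) ≤ V (primesTo Q) := by
      apply V_mono _ (fun p hp => (mem_primesTo.1 hp).2)
      intro p hp
      rw [mem_primesTo] at hp ⊢
      exact ⟨hp.1.trans (min_le_left _ _), hp.2⟩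
    gcongr
  have h1 := key P hP
  have h2 := key P' hP'
  calc ∑ r ∈ S, ‖FS P (pt (8 * (4 * n ^ 32)) r)‖ *
      ‖FS P' (pt (8 * (4 * n ^ 32)) r)‖
      ≤ ∑ r ∈ S, (‖FS P (pt (8 * (4 * n ^ 32)) r)‖ ^ 2 / 2 +
      ‖FS P' (pt (8 * (4 * n ^ 32)) r)‖ ^ 2 / 2) := by
        refine sum_le_sum fun r _ => ?_
        have := two_mul_le_add_sq ‖FS P (pt (8 * (4 * n ^ 32)) r)‖
          ‖FS P' (pt (8 * (4 * n ^ 32)) r)‖
        linarith
    _ ≤ _ := by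
        rw [sum_add_distrib, ← sum_div, ← sum_div]
        linarith

lemma factorial_ratio (w : ℕ) :
    ((w.factorial : ℕ) : ℝ) / (w.factorial).totient = V (primesTo w) := by
  rw [← V_primeFactors _ (Nat.factorial_pos w)]
  congr 1
  ext p
  rw [mem_primesTo, Nat.mem_primeFactors]
  constructor
  · rintro ⟨hp, hd, -⟩
    exact ⟨(hp.dvd_factorial).1 hd, hp⟩
  · rintro ⟨h, hp⟩
    exact ⟨hp, (hp.dvd_factorial).2 h, Nat.factorial_ne_zero w⟩

end LSieve
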