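import Pool.Agent.LibLargeSieve.Sifted

/-!
# Lower bound for the sieve sum, Mertens-type products, Brun-Titchmarsh
-/

namespace LSieve

open Finset

/-- `V B = ∏_{p ∈ B} p / (p - 1)`. -/
noncomputable def V (B : Finset ℕ) : ℝ := ∏ p ∈ B, ((p : ℝ) / ((p : ℝ) - 1))

lemma one_le_factor {p : ℕ} (hp : p.Prime) : 1 ≤ (p : ℝ) / ((p : ℝ) - 1) := by
  have : (2 : ℝ) ≤ p := by exact_mod_cast hp.two_le
  rw [le_div_iff₀ (by linarith)]; linarith

lemma V_pos {B : Finset ℕ} (hB : ∀ p ∈ B, p.Prime) : 0 < V B := by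
  apply prod_pos
  intro p hp
  linarith [one_le_factor (hB p hp)]

lemma one_le_V {B : Finset ℕ} (hB : ∀ p ∈ B, p.Prime) : 1 ≤ V B := by
  unfold V
  induction B using Finset.induction_on with
  | empty => simp
  | insert a s ha ih =>
    rw [prod_insert ha]
    have h1 := one_le_factor (hB a (mem_insert_self _ _))
    have h2 := ih (fun p hp => hB p (mem_insert_of_mem hp))
    nlinarith

lemma V_mono {B C : Finset ℕ} (h : B ⊆ C) (hC : ∀ p ∈ C, p.Prime) : V B ≤ V C := by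
  classical
  unfold V
  rw [← prod_sdiff h]
  have h1 : 1 ≤ ∏ p ∈ C \ B, ((p : ℝ) / ((p : ℝ) - 1)) :=
    one_le_V (B := C \ B) (fun p hp => hC p (mem_sdiff.1 hp).1)
  have h2 : 0 < ∏ p ∈ B, ((p : ℝ) / ((p : ℝ) - 1)) := V_pos (fun p hp => hC p (h hp))
  nlinarith

lemma G_nonneg (B : Finset ℕ) (M : ℕ) : 0 ≤ G B M := by
  unfold G; positivity

/-- Removing a prime from the sieving set. -/
lemma G_le_insert (B : Finset ℕ) (M : ℕ) {p : ℕ} (hp : p.Prime) (hpB : p ∉ B)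
    :
    G B M ≤ (p : ℝ) / ((p : ℝ) - 1) * G (insert p B) M := by
  classical
  have hp2 : (2 : ℝ) ≤ p := by exact_mod_cast hp.two_le
  have h1 : G B M = G (insert p B) M + ∑ m ∈ sieveSet B M with p ∣ m, (m.totient : ℝ)⁻¹ := by
    unfold G
    rw [← sum_filter_add_sum_filter_not (sieveSet B M) (fun m => ¬ p ∣ m)]
    congr 1
    · refine sum_congr ?_ fun _ _ => rfl
      ext m
      simp only [mem_filter, mem_sieveSet, mem_insert, forall_eq_or_imp]
      tauto
    · refine sum_congr ?_ fun _ _ => rfl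
      ext m; simp
  have h2 : ∑ m ∈ sieveSet B M with p ∣ m, (m.totient : ℝ)⁻¹ ≤
      ((p : ℝ) - 1)⁻¹ * G (insert p B) M := by
    unfold G
    rw [mul_sum]
    have key : ∀ m ∈ (sieveSet B M).filter (fun m => p ∣ m), m / p ∈ sieveSet (insert p B) M ∧
        m = p * (m / p) ∧ p.Coprime (m / p) := by
      intro m hm
      rw [mem_filter, mem_sieveSet] at hm
      obtain ⟨⟨⟨h1, h2⟩, h3, h4⟩, h5⟩ := hm
      have e1 : m = p * (m / p) := (Nat.mul_div_cancel' h5).symm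
      have hcop : p.Coprime (m / p) := by
        rw [e1] at h3
        exact Nat.coprime_of_squarefree_mul h3
      refine ⟨?_, e1, hcop⟩
      rw [mem_sieveSet]
      have hpos : 0 < m / p := Nat.div_pos (Nat.le_of_dvd (by omega) h5) hp.pos
      refine ⟨⟨hpos, (Nat.div_le_self _ _).trans h2⟩, ?_, ?_⟩
      · rw [e1] at h3; exact h3.of_mul_right
      · intro q hq
        rw [mem_insert] at hq
        rcases hq with rfl | hq
        · exact (Nat.Prime.coprime_iff_not_dvd hp).1 hcop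
        · intro hd
          exact h4 q hq (hd.trans (Nat.div_dvd_of_dvd h5))
    calc ∑ m ∈ sieveSet B M with p ∣ m, (m.totient : ℝ)⁻¹
        = ∑ m ∈ sieveSet B M with p ∣ m, ((p : ℝ) - 1)⁻¹ * ((m / p).totient : ℝ)⁻¹ := by
          refine sum_congr rfl fun m hm => ?_
          obtain ⟨-, e1, hcop⟩ := key m hm
          nth_rewrite 1 [e1]
          rw [Nat.totient_mul hcop, Nat.totient_prime hp]
          rw [Nat.cast_mul, Nat.cast_sub hp.one_le, mul_inv]
          simp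
      _ = ∑ m' ∈ ((sieveSet B M).filter (fun m => p ∣ m)).image (fun m => m / p),
            ((p : ℝ) - 1)⁻¹ * (m'.totient : ℝ)⁻¹ := by
          rw [sum_image]
          intro a ha b hb hab
          have hab' : a / p = b / p := hab
          rw [(key a ha).2.1, (key b hb).2.1, hab']
      _ ≤ ∑ m ∈ sieveSet (insert p B) M, ((p : ℝ) - 1)⁻¹ * (m.totient : ℝ)⁻¹ := by
          refine sum_le_sum_of_subset_of_nonneg ?_ ?_
          · intro m hm
            rw [mem_image] at hm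
            obtain ⟨a, ha, rfl⟩ := hm
            exact (key a ha).1
          · intro m _ _
            have : (0 : ℝ) ≤ ((p : ℝ) - 1)⁻¹ := by
              apply inv_nonneg.2; linarith
            positivity
  rw [h1]
  have h3 : (p : ℝ) / ((p : ℝ) - 1) = 1 + ((p : ℝ) - 1)⁻¹ := by
    have : (p : ℝ) - 1 ≠ 0 := by linarith
    field_simp; ring
  rw [h3, add_mul, one_mul]
  linarith

lemma G_empty_le (B : Finset ℕ) (M : ℕ) (hB : ∀ p ∈ B, p.Prime) : G ∅ M ≤ V B * G B M := by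
  classical
  induction B using Finset.induction_on with
  | empty => simp [V]
  | insert a s ha ih =>
    have hs : ∀ p ∈ s, p.Prime := fun p hp => hB p (mem_insert_of_mem hp)
    have h1 := ih hs
    have h2 := G_le_insert s M (hB a (mem_insert_self _ _)) ha
    unfold V at h1 ⊢
    rw [prod_insert ha]
    have h3 := (V_pos hs).le
    unfold V at h3
    calc G ∅ M ≤ (∏ p ∈ s, ((p : ℝ) / ((p : ℝ) - 1))) * G s M := h1
      _ ≤ (∏ p ∈ s, ((p : ℝ) / ((p : ℝ) - 1))) *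
          ((a : ℝ) / ((a : ℝ) - 1) * G (insert a s) M) := by gcongr
      _ = _ := by ring

lemma harmonic_le (M : ℕ) : ∑ n ∈ Icc 1 M, ((n : ℝ))⁻¹ ≤ 2 * G ∅ M := by
  classical
  choose a b hab hsq using fun n : ℕ => Nat.sq_mul_squarefree n
  -- `b n ^ 2 * a n = n`, `a n` squarefree
  have hmem : ∀ n ∈ Icc 1 M, (a n, b n) ∈ (sieveSet ∅ M) ×ˢ (Icc 1 M) := by
    intro n hn
    rw [mem_Icc] at hn
    have h := hab n
    have hb : 0 < b n := by
      rcases Nat.eq_zero_or_pos (b n) with h0 | h0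
      · rw [h0] at h; simp at h; omega
      · exact h0
    have ha : 0 < a n := by
      rcases Nat.eq_zero_or_pos (a n) with h0 | h0
      · rw [h0] at h; simp at h; omega
      · exact h0
    rw [mem_product, mem_sieveSet, mem_Icc]
    simp only
    refine ⟨⟨⟨ha, ?_⟩, hsq n, by simp⟩, hb, ?_⟩
    · calc a n ≤ b n ^ 2 * a n := Nat.le_mul_of_pos_left _ (by positivity)
        _ = n := h
        _ ≤ M := hn.2
    · calc b n ≤ b n ^ 2 := Nat.le_self_pow (by norm_num) _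
        _ ≤ b n ^ 2 * a n := Nat.le_mul_of_pos_right _ ha
        _ = n := h
        _ ≤ M := hn.2
  have h1 : ∑ n ∈ Icc 1 M, ((n : ℝ))⁻¹ ≤
      ∑ q ∈ (sieveSet ∅ M) ×ˢ (Icc 1 M), ((q.1 : ℝ))⁻¹ * ((q.2 : ℝ) ^ 2)⁻¹ := by
    calc ∑ n ∈ Icc 1 M, ((n : ℝ))⁻¹
        = ∑ n ∈ Icc 1 M, ((a n : ℝ))⁻¹ * ((b n : ℝ) ^ 2)⁻¹ := by
          refine sum_congr rfl fun n _ => ?_
          rw [← mul_inv]
          congr 1
          nth_rewrite 1 [← hab n]
          push_cast; ring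
      _ = ∑ q ∈ (Icc 1 M).image (fun n => (a n, b n)), ((q.1 : ℝ))⁻¹ * ((q.2 : ℝ) ^ 2)⁻¹ := by
          rw [sum_image]
          intro x _ y _ hxy
          simp only [Prod.mk.injEq] at hxy
          rw [← hab x, ← hab y, hxy.1, hxy.2]
      _ ≤ _ := by
          refine sum_le_sum_of_subset_of_nonneg ?_ (fun _ _ _ => by positivity)
          intro q hq
          rw [mem_image] at hq
          obtain ⟨n, hn, rfl⟩ := hq
          exact hmem n hn
  refine h1.trans ?_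
  rw [sum_product]
  simp_rw [← mul_sum]
  rw [← sum_mul]
  have h2 : ∑ i ∈ Icc 1 M, ((i : ℝ) ^ 2)⁻¹ ≤ 2 := by
    have := sum_Ioo_inv_sq_le (α := ℝ) 0 (M + 1)
    rw [show Icc 1 M = Ioo 0 (M + 1) by ext; simp [Nat.succ_le_iff]]
    norm_num at this ⊢
    exact this
  have h3 : ∑ i ∈ sieveSet ∅ M, ((i : ℝ))⁻¹ ≤ G ∅ M := by
    unfold G
    refine sum_le_sum fun m hm => ?_
    have hm1 : 0 < m := (mem_sieveSet.1 hm).1.1
    have : 0 < m.totient := Nat.totient_pos.2 hm1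
    have h4 : (m.totient : ℝ) ≤ m := by exact_mod_cast Nat.totient_le m
    have h5 : (0 : ℝ) < m.totient := by exact_mod_cast this
    exact inv_anti₀ h5 h4
  have h4 : (0 : ℝ) ≤ ∑ i ∈ sieveSet ∅ M, ((i : ℝ))⁻¹ := by positivity
  have h5 : (0 : ℝ) ≤ ∑ i ∈ Icc 1 M, ((i : ℝ) ^ 2)⁻¹ := by positivity
  calc (∑ i ∈ sieveSet ∅ M, ((i : ℝ))⁻¹) * ∑ i ∈ Icc 1 M, ((i : ℝ) ^ 2)⁻¹
      ≤ G ∅ M * 2 := by gcongr; exact G_nonneg _ _
    _ = 2 * G ∅ M := by ring

/-- Lower bound for the sieve sum. -/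
theorem log_le_G (B : Finset ℕ) (M : ℕ) (hB : ∀ p ∈ B, p.Prime) :
    Real.log M ≤ 2 * V B * G B M := by
  rcases Nat.eq_zero_or_pos M with rfl | hM
  · simp only [CharP.cast_eq_zero, Real.log_zero]
    have := G_nonneg B 0
    have := (V_pos hB).le
    positivity
  have h1 : Real.log M ≤ ∑ n ∈ Icc 1 M, ((n : ℝ))⁻¹ := by
    have h := log_add_one_le_harmonic M
    have h2 : ((harmonic M : ℚ) : ℝ) = ∑ n ∈ Icc 1 M, ((n : ℝ))⁻¹ := by
      rw [harmonic_eq_sum_Icc]; push_cast; rfl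
    rw [h2] at h
    refine le_trans ?_ h
    apply Real.log_le_log (by exact_mod_cast hM)
    push_cast; linarith
  have h2 := harmonic_le M
  have h3 := G_empty_le B M hB
  linarith

/-- Exponential sums over natural numbers with real coefficients. -/
noncomputable def nsum (P : Finset ℕ) (f : ℕ → ℝ) (x : UnitAddCircle) : ℂ :=
  ∑ n ∈ P, (f n : ℂ) * e (n • x)

lemma nsum_eq_expSum (P : Finset ℕ) (f : ℕ → ℝ) (x : UnitAddCircle) :
    nsum P f x = expSum (P.map Nat.castEmbedding) (fun n => (f n.toNat : ℂ)) x := by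
  unfold nsum expSum
  rw [sum_map]
  refine sum_congr rfl fun n _ => ?_
  simp [natCast_zsmul]

lemma sum_norm_map (P : Finset ℕ) (f : ℕ → ℝ) :
    ∑ n ∈ P.map (Nat.castEmbedding (R := ℤ)), ‖(f n.toNat : ℂ)‖ ^ 2 = ∑ n ∈ P, f n ^ 2 := by
  rw [sum_map]
  refine sum_congr rfl fun n _ => ?_
  simp

lemma map_subset_Ico {P : Finset ℕ} {A H : ℕ} (hP : P ⊆ Ico A (A + H)) :
    P.map (Nat.castEmbedding (R := ℤ)) ⊆ Ico (A : ℤ) ((A : ℤ) + H) := by
  intro n hn
  rw [mem_map] at hn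
  obtain ⟨m, hm, rfl⟩ := hn
  have := mem_Ico.1 (hP hm)
  rw [mem_Ico]
  simp only [Nat.castEmbedding_apply]
  omega

theorem large_sieve_nat {ι : Type*} (S : Finset ι) (x : ι → UnitAddCircle) (H R : ℕ) (hH : 0 < H)
    (hR : ∀ i ∈ S, #{j ∈ S | ‖x j - x i‖ < 1 / (H : ℝ)} ≤ R) (A : ℕ) (P : Finset ℕ)
    (hP : P ⊆ Ico A (A + H)) (f : ℕ → ℝ) :
    ∑ i ∈ S, ‖nsum P f (x i)‖ ^ 2 ≤ 9 * R * H * ∑ n ∈ P, f n ^ 2 := by
  simp_rw [nsum_eq_expSum]
  rw [← sum_norm_map]
  exact large_sieve S x H R hH hR A _ (map_subset_Ico hP) _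

theorem sifted_large_sieve_nat {ι : Type*} (S : Finset ι) (α β : ι → UnitAddCircle)
    (H R M Q : ℕ) (Δ : ℝ) (B : Finset ℕ) (hH : 0 < H)
    (hα : ∀ i ∈ S, 0 < addOrderOf (α i)) (hαQ : ∀ i ∈ S, addOrderOf (α i) ≤ Q)
    (hB : ∀ i ∈ S, ∀ p : ℕ, p.Prime → p ∣ addOrderOf (α i) → p ∈ B)
    (hβ : ∀ i ∈ S, ‖β i‖ ≤ Δ)
    (hM : ((Q : ℝ) * M) ^ 2 * (1 / H + 2 * Δ) < 1)
    (hR : ∀ i ∈ S, #{j ∈ S | ‖(α j + β j) - (α i + β i)‖ < 1 / (H : ℝ)} ≤ R)
    (A : ℕ) (P : Finset ℕ) (hP : P ⊆ Ico A (A + H)) (f : ℕ → ℝ)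
    (hf : ∀ p : ℕ, p.Prime → p ≤ M → p ∉ B → ∃ h : ℤ, ∀ n ∈ P, ¬ (n : ℤ) ≡ h [ZMOD p]) :
    G B M * ∑ i ∈ S, ‖nsum P f (α i + β i)‖ ^ 2 ≤ 9 * R * H * ∑ n ∈ P, f n ^ 2 := by
  simp_rw [nsum_eq_expSum]
  rw [← sum_norm_map]
  refine sifted_large_sieve S α β H R M Q Δ B hH hα hαQ hB hβ hM hR A _ (map_subset_Ico hP) _ ?_
  intro p hp hpM hpB
  obtain ⟨h, hh⟩ := hf p hp hpM hpB
  refine ⟨h, fun n hn _ => ?_⟩
  rw [mem_map] at hn
  obtain ⟨m, hm, rfl⟩ := hn
  exact hh m hm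

/-- The large sieve for a set of primes. -/
theorem prime_large_sieve {ι : Type*} (S : Finset ι) (α β : ι → UnitAddCircle)
    (H R M Q : ℕ) (Δ : ℝ) (B : Finset ℕ) (hH : 0 < H) (hBp : ∀ p ∈ B, p.Prime)
    (hα : ∀ i ∈ S, 0 < addOrderOf (α i)) (hαQ : ∀ i ∈ S, addOrderOf (α i) ≤ Q)
    (hB : ∀ i ∈ S, ∀ p : ℕ, p.Prime → p ∣ addOrderOf (α i) → p ∈ B)
    (hβ : ∀ i ∈ S, ‖β i‖ ≤ Δ)
    (hM : ((Q : ℝ) * M) ^ 2 * (1 / H + 2 * Δ) < 1)
    (hR : ∀ i ∈ S, #{j ∈ S | ‖(α j + β j) - (α i + β i)‖ < 1 / (H : ℝ)} ≤ R)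
    (A : ℕ) (P : Finset ℕ) (hP : P ⊆ Ico A (A + H)) (f : ℕ → ℝ)
    (hPp : ∀ p ∈ P, p.Prime) (hPM : ∀ p ∈ P, M < p) :
    Real.log M * ∑ i ∈ S, ‖nsum P f (α i + β i)‖ ^ 2 ≤
      18 * V B * R * H * ∑ n ∈ P, f n ^ 2 := by
  have h1 := sifted_large_sieve_nat S α β H R M Q Δ B hH hα hαQ hB hβ hM hR A P hP f (by
    intro p hp hpM _
    refine ⟨0, fun n hn h0 => ?_⟩
    have h2 : (p : ℤ) ∣ n := by
      have := Int.modEq_zero_iff_dvd.1 h0
      exact this
    have h3 : p ∣ n := by exact_mod_cast h2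
    have h4 := (Nat.prime_dvd_prime_iff_eq hp (hPp n hn)).1 h3
    have h5 := hPM n hn
    omega)
  have h2 := log_le_G B M hBp
  have h3 : 0 ≤ ∑ i ∈ S, ‖nsum P f (α i + β i)‖ ^ 2 := by positivity
  have h4 := (V_pos hBp).le
  calc Real.log M * ∑ i ∈ S, ‖nsum P f (α i + β i)‖ ^ 2
      ≤ 2 * V B * G B M * ∑ i ∈ S, ‖nsum P f (α i + β i)‖ ^ 2 := by gcongr
    _ = 2 * V B * (G B M * ∑ i ∈ S, ‖nsum P f (α i + β i)‖ ^ 2) := by ring
    _ ≤ 2 * V B * (9 * R * H * ∑ n ∈ P, f n ^ 2) := by gcongr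
    _ = _ := by ring

lemma V_primeFactors (q : ℕ) (hq : 0 < q) : V q.primeFactors = q / q.totient := by
  have h1 := Nat.totient_eq_mul_prod_factors q
  have h2 : (q.totient : ℝ) = q * ∏ p ∈ q.primeFactors, (1 - (p : ℝ)⁻¹) := by
    have := congrArg (fun x : ℚ => (x : ℝ)) h1
    push_cast at this
    exact this
  have h3 : V q.primeFactors = (∏ p ∈ q.primeFactors, (1 - (p : ℝ)⁻¹))⁻¹ := by
    unfold V
    rw [← prod_inv_distrib]
    refine prod_congr rfl fun p hp => ?_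
    have hp2 : (2 : ℝ) ≤ p := by exact_mod_cast (Nat.prime_of_mem_primeFactors hp).two_le
    have : (p : ℝ) - 1 ≠ 0 := by linarith
    have : (p : ℝ) ≠ 0 := by linarith
    have : 1 - (p : ℝ)⁻¹ ≠ 0 := by
      have h7 : (p : ℝ)⁻¹ < 1 := inv_lt_one_of_one_lt₀ (by linarith)
      linarith
    field_simp
  have hq' : (q : ℝ) ≠ 0 := by positivity
  have h4 : (q.totient : ℝ) ≠ 0 := by
    have := Nat.totient_pos.2 hq
    positivity
  have h5 : ∏ p ∈ q.primeFactors, (1 - (p : ℝ)⁻¹) ≠ 0 := by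
    intro h0; rw [h0, mul_zero] at h2; exact h4 h2
  rw [h3, h2]
  field_simp

/-- **Brun-Titchmarsh inequality** (weak constant). -/
theorem brun_titchmarsh (P : Finset ℕ) (hP : ∀ p ∈ P, p.Prime) (M X q ρ A : ℕ)
    (hMX : M ^ 2 < X) (hPM : ∀ p ∈ P, M < p) (hq : 0 < q) (hρ : ∀ p ∈ P, p ≡ ρ [MOD q])
    (hA : ∀ p ∈ P, A ≤ p ∧ p < A + q * X) :
    #P * Real.log M ≤ 18 * (q / q.totient) * X := by
  classical
  rcases P.eq_empty_or_nonempty with rfl | hne
  · simp; positivity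
  have hXpos : 0 < X := by omega
  obtain ⟨p0, hp0, hmin⟩ := P.exists_min_image id hne
  simp only [id] at hmin
  have hdiv : ∀ p ∈ P, p = p0 + q * ((p - p0) / q) := by
    intro p hp
    have h1 : p0 ≡ p [MOD q] := (hρ p0 hp0).trans (hρ p hp).symm
    have h2 : q ∣ p - p0 := (Nat.modEq_iff_dvd' (hmin p hp)).1 h1
    rw [Nat.mul_div_cancel' h2]
    have := hmin p hp; omega
  set s : Finset ℤ := P.image (fun p => (((p - p0) / q : ℕ) : ℤ)) with hs
  have hcard : #s = #P := by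
    rw [hs]
    apply card_image_of_injOn
    intro a ha b hb hab
    have hab' : (a - p0) / q = (b - p0) / q := Nat.cast_injective (R := ℤ) hab
    rw [hdiv a ha, hdiv b hb, hab']
  have hsub : s ⊆ Ico (0 : ℤ) (0 + X) := by
    intro n hn
    rw [hs, mem_image] at hn
    obtain ⟨p, hp, rfl⟩ := hn
    rw [mem_Ico]
    refine ⟨by positivity, ?_⟩
    have h1 : (p - p0) / q < X := by
      rw [Nat.div_lt_iff_lt_mul hq]
      have := hA p hp
      have := hA p0 hp0
      rw [mul_comm]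
      omega
    push_cast
    omega
  have key := sifted_large_sieve ({()} : Finset Unit) (fun _ => 0) (fun _ => 0) X 1 M 1 0
    q.primeFactors hXpos (by simp) (by simp)
    (by
      intro i _ p hp hpd
      rw [addOrderOf_zero, Nat.dvd_one] at hpd
      exact absurd hpd hp.one_lt.ne')
    (by simp)
    (by
      have h1 : ((M : ℝ)) ^ 2 < X := by exact_mod_cast hMX
      have h2 : (0 : ℝ) < X := by exact_mod_cast hXpos
      simp only [Nat.cast_one, one_mul, mul_zero, add_zero]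
      rw [mul_one_div, div_lt_one h2]
      exact h1)
    (fun _ _ => card_le_one_of_subsingleton _) 0 s hsub (fun _ => 1) (by
      intro π hπ hπM hπq
      have hcop : IsCoprime (q : ℤ) (π : ℤ) := by
        rw [Nat.isCoprime_iff_coprime]
        rw [Nat.coprime_comm]
        rw [Nat.Prime.coprime_iff_not_dvd hπ]
        intro hd
        exact hπq (Nat.mem_primeFactors.2 ⟨hπ, hd, by omega⟩)
      obtain ⟨u, v, huv⟩ := hcop
      -- u * q + v * π = 1
      refine ⟨-(p0 : ℤ) * u, ?_⟩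
      intro n hn _ hcong
      rw [hs, mem_image] at hn
      obtain ⟨p, hp, rfl⟩ := hn
      have h1 : (π : ℤ) ∣ p := by
        have h2 : (p : ℤ) = p0 + q * (((p - p0) / q : ℕ) : ℤ) := by
          exact_mod_cast hdiv p hp
        rw [h2]
        have h3 := Int.modEq_iff_dvd.1 hcong
        obtain ⟨c, hc⟩ := h3
        have h4 : (((p - p0) / q : ℕ) : ℤ) = -(p0 : ℤ) * u - π * c := by linarith
        rw [h4]
        refine ⟨p0 * v - q * c, ?_⟩
        linear_combination (-(p0 : ℤ)) * huv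
      have h5 : π ∣ p := by exact_mod_cast h1
      have h6 := (Nat.prime_dvd_prime_iff_eq hπ (hP p hp)).1 h5
      have h7 := hPM p hp
      omega)
  have h1 : expSum s (fun _ => 1) ((0 : UnitAddCircle) + 0) = #P := by
    unfold expSum
    simp [hcard]
  simp only [sum_singleton] at key
  rw [h1] at key
  simp only [Complex.norm_natCast, norm_one, one_pow, sum_const, nsmul_eq_mul, mul_one,
    Nat.cast_one, hcard] at key
  have hPpos : (0 : ℝ) < #P := by exact_mod_cast hne.card_pos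
  have h2 : G q.primeFactors M * #P ≤ 9 * X := by
    have : (G q.primeFactors M * #P) * #P ≤ (9 * X) * #P := by nlinarith
    exact le_of_mul_le_mul_right this hPpos
  have h3 := log_le_G q.primeFactors M (fun p hp => Nat.prime_of_mem_primeFactors hp)
  have hV := V_primeFactors q hq
  have hVpos := (V_pos (B := q.primeFactors) (fun p hp => Nat.prime_of_mem_primeFactors hp)).le
  rw [← hV]
  calc (#P : ℝ) * Real.log M ≤ #P * (2 * V q.primeFactors * G q.primeFactors M) :=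
        mul_le_mul_of_nonneg_left h3 hPpos.le
    _ = 2 * V q.primeFactors * (G q.primeFactors M * #P) := by ring
    _ ≤ 2 * V q.primeFactors * (9 * X) :=
        mul_le_mul_of_nonneg_left h2 (mul_nonneg (by norm_num) hVpos)
    _ = _ := by ring


/-- Primes up to `Q`. -/
def primesTo (Q : ℕ) : Finset ℕ := {p ∈ Icc 1 Q | p.Prime}

lemma mem_primesTo {Q p : ℕ} : p ∈ primesTo Q ↔ p ≤ Q ∧ p.Prime := by
  simp only [primesTo, mem_filter, mem_Icc]
  constructor
  · rintro ⟨⟨_, h⟩, h'⟩; exact ⟨h, h'⟩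
  · rintro ⟨h, h'⟩; exact ⟨⟨h'.one_le, h⟩, h'⟩

lemma theta_eq_primesTo (Q : ℕ) : Chebyshev.theta Q = ∑ p ∈ primesTo Q, Real.log p := by
  rw [Chebyshev.theta_eq_sum_Icc]
  simp only [Nat.floor_natCast]
  refine sum_congr ?_ fun _ _ => rfl
  ext p
  simp only [primesTo, mem_filter, mem_Icc, zero_le, true_and]
  constructor
  · rintro ⟨h, h'⟩; exact ⟨⟨h'.one_le, h⟩, h'⟩
  · rintro ⟨⟨_, h⟩, h'⟩; exact ⟨h, h'⟩

lemma sum_log_primesTo_le (Q : ℕ) : ∑ p ∈ primesTo Q, Real.log p ≤ Real.log 4 * Q := by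
  rw [← theta_eq_primesTo]
  exact Chebyshev.theta_le_log4_mul_x (by positivity)

lemma V_double (j : ℕ) (hj : 1 ≤ j) :
    V (primesTo (2 ^ (j + 1))) ≤ Real.exp (4 / j) * V (primesTo (2 ^ j)) := by
  classical
  have hsub : primesTo (2 ^ j) ⊆ primesTo (2 ^ (j + 1)) := by
    intro p hp
    rw [mem_primesTo] at hp ⊢
    exact ⟨hp.1.trans (Nat.pow_le_pow_right (by norm_num) (by omega)), hp.2⟩
  set D := primesTo (2 ^ (j + 1)) \ primesTo (2 ^ j) with hD
  have hDmem : ∀ p ∈ D, p.Prime ∧ 2 ^ j < p := by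
    intro p hp
    rw [hD, mem_sdiff, mem_primesTo, mem_primesTo] at hp
    refine ⟨hp.1.2, ?_⟩
    by_contra h
    exact hp.2 ⟨by omega, hp.1.2⟩
  have hj0 : (0 : ℝ) < j := by exact_mod_cast hj
  have hcard : (#D : ℝ) * (j * Real.log 2) ≤ Real.log 4 * 2 ^ (j + 1) := by
    calc (#D : ℝ) * (j * Real.log 2) = ∑ p ∈ D, (j * Real.log 2) := by simp
      _ ≤ ∑ p ∈ D, Real.log p := by
          refine sum_le_sum fun p hp => ?_
          rw [← Real.log_pow]
          apply Real.log_le_log (by positivity)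
          exact_mod_cast (hDmem p hp).2.le
      _ ≤ ∑ p ∈ primesTo (2 ^ (j + 1)), Real.log p := by
          refine sum_le_sum_of_subset_of_nonneg sdiff_subset fun p hp _ => ?_
          exact Real.log_nonneg (by exact_mod_cast (mem_primesTo.1 hp).2.one_le)
      _ ≤ Real.log 4 * (2 ^ (j + 1) : ℕ) := sum_log_primesTo_le _
      _ = _ := by push_cast; ring
  have hcard2 : (#D : ℝ) ≤ 4 * 2 ^ j / j := by
    rw [le_div_iff₀ hj0]
    have h4 : Real.log 4 = 2 * Real.log 2 := by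
      rw [show (4 : ℝ) = 2 ^ 2 by norm_num, Real.log_pow]; push_cast; ring
    rw [h4, pow_succ] at hcard
    have hl2 : 0 < Real.log 2 := Real.log_pos (by norm_num)
    have : (#D : ℝ) * j * Real.log 2 ≤ 4 * 2 ^ j * Real.log 2 := by linarith
    exact le_of_mul_le_mul_right this hl2
  unfold V
  rw [← prod_sdiff hsub, ← hD]
  have hpos : 0 ≤ ∏ p ∈ primesTo (2 ^ j), ((p : ℝ) / ((p : ℝ) - 1)) :=
    (V_pos (B := primesTo (2 ^ j)) (fun p hp => (mem_primesTo.1 hp).2)).le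
  refine mul_le_mul_of_nonneg_right ?_ hpos
  have h2j : (0 : ℝ) < 2 ^ j := by positivity
  calc ∏ p ∈ D, ((p : ℝ) / ((p : ℝ) - 1)) ≤ ∏ p ∈ D, Real.exp (1 / 2 ^ j) := by
        refine prod_le_prod (fun p hp => ?_) (fun p hp => ?_)
        · linarith [one_le_factor (hDmem p hp).1]
        · have h1 : (2 ^ j : ℝ) ≤ (p : ℝ) - 1 := by
            have := (hDmem p hp).2
            have : 2 ^ j + 1 ≤ p := this
            have : ((2 ^ j + 1 : ℕ) : ℝ) ≤ p := by exact_mod_cast this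
            push_cast at this
            linarith
          have h2 : (p : ℝ) / ((p : ℝ) - 1) = 1 / ((p : ℝ) - 1) + 1 := by
            have : (p : ℝ) - 1 ≠ 0 := by linarith
            field_simp; ring
          rw [h2]
          refine le_trans ?_ (Real.add_one_le_exp _)
          have : 1 / ((p : ℝ) - 1) ≤ 1 / 2 ^ j := by
            apply one_div_le_one_div_of_le h2j h1
          linarith
    _ = Real.exp (#D * (1 / 2 ^ j)) := by
        rw [prod_const, ← Real.exp_nat_mul]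
    _ ≤ Real.exp (4 / j) := by
        apply Real.exp_le_exp.2
        calc (#D : ℝ) * (1 / 2 ^ j) ≤ 4 * 2 ^ j / j * (1 / 2 ^ j) := by gcongr
          _ = _ := by field_simp

/-- `V` of the primes up to `2^J` grows slower than `(17/16)^J`. -/
theorem V_bound : ∃ C : ℝ, 1 ≤ C ∧ ∀ J : ℕ, V (primesTo (2 ^ J)) ≤ C * (17 / 16) ^ J := by
  have h1 : ∀ᶠ j : ℕ in Filter.atTop, Real.exp (4 / (j : ℝ)) < 17 / 16 := by
    have h2 : Filter.Tendsto (fun j : ℕ => Real.exp (4 / (j : ℝ))) Filter.atTop (nhds (Real.exp 0)) :=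
      (Real.continuous_exp.tendsto 0).comp (tendsto_const_div_atTop_nhds_zero_nat 4)
    rw [Real.exp_zero] at h2
    exact h2.eventually_lt_const (by norm_num)
  obtain ⟨J0, hJ0⟩ := Filter.eventually_atTop.1 h1
  set J1 := max J0 1
  have hV : ∀ J, 1 ≤ V (primesTo (2 ^ J)) := fun J =>
    one_le_V (fun p hp => (mem_primesTo.1 hp).2)
  have hmono : ∀ J J', J ≤ J' → V (primesTo (2 ^ J)) ≤ V (primesTo (2 ^ J')) := by
    intro J J' h
    apply V_mono _ (fun p hp => (mem_primesTo.1 hp).2)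
    intro p hp
    rw [mem_primesTo] at hp ⊢
    exact ⟨hp.1.trans (Nat.pow_le_pow_right (by norm_num) h), hp.2⟩
  refine ⟨V (primesTo (2 ^ J1)), hV _, ?_⟩
  intro J
  rcases le_total J J1 with h | h
  · calc V (primesTo (2 ^ J)) ≤ V (primesTo (2 ^ J1)) * 1 := by rw [mul_one]; exact hmono _ _ h
      _ ≤ _ := by
        apply mul_le_mul_of_nonneg_left _ (by linarith [hV J1])
        exact one_le_pow₀ (by norm_num)
  · induction J, h using Nat.le_induction with
    | base =>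
      have : (1 : ℝ) ≤ (17 / 16) ^ J1 := one_le_pow₀ (by norm_num)
      nlinarith [hV J1]
    | succ n hn ih =>
      have h3 := V_double n (le_trans (le_max_right _ _) hn)
      have h4 := hJ0 n (le_trans (le_max_left _ _) hn)
      calc V (primesTo (2 ^ (n + 1))) ≤ Real.exp (4 / n) * V (primesTo (2 ^ n)) := h3
        _ ≤ 17 / 16 * (V (primesTo (2 ^ J1)) * (17 / 16) ^ n) := by
            apply mul_le_mul h4.le ih (by linarith [hV n]) (by norm_num)
        _ = _ := by ring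

end LSieve
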