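import Pool.Agent.LibLargeSieve.GBound

/-!
# Products of sets of primes
-/

namespace LSieve

open Finset Filter Topology

/-- Product of the elements. -/
def eA (A : Finset ℕ) : ℕ := ∏ p ∈ A, p

lemma eA_pos {A : Finset ℕ} (hA : ∀ p ∈ A, p.Prime) : 0 < eA A :=
  prod_pos fun p hp => (hA p hp).pos

lemma eA_dvd_iff {A : Finset ℕ} (hA : ∀ p ∈ A, p.Prime) (t : ℕ) :
    eA A ∣ t ↔ ∀ p ∈ A, p ∣ t := by
  constructor
  · intro h p hp
    exact (dvd_prod_of_mem (fun p => p) hp).trans h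
  · intro h
    exact Finset.prod_primes_dvd t (fun p hp => (hA p hp).prime) h

lemma addOrderOf_nsmul_dvd (α : UnitAddCircle) (k : ℕ) : addOrderOf (k • α) ∣ addOrderOf α :=
  addOrderOf_dvd_of_nsmul_eq_zero (by
    rw [smul_comm, addOrderOf_nsmul_eq_zero, smul_zero])

lemma log_four_le : Real.log 4 ≤ 3 / 2 := by
  have h4 : Real.log 4 = 2 * Real.log 2 := by
    rw [show (4 : ℝ) = 2 ^ 2 by norm_num, Real.log_pow]; push_cast; ring
  have := Real.log_two_lt_d9
  rw [h4]; linarith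

lemma sum_log_sq_le (P : Finset ℕ) (X : ℕ) (hP : P ⊆ primesTo X) :
    ∑ p ∈ P, Real.log p ^ 2 ≤ Real.log X * (3 / 2 * X) := by
  rcases P.eq_empty_or_nonempty with rfl | ⟨p0, hp0⟩
  · simp only [sum_empty]
    have := Real.log_natCast_nonneg X
    positivity
  have h0 : ∀ p ∈ P, 0 ≤ Real.log p := fun p _ => Real.log_natCast_nonneg p
  have hX := Real.log_natCast_nonneg X
  calc ∑ p ∈ P, Real.log p ^ 2 ≤ ∑ p ∈ P, Real.log X * Real.log p := by
        refine sum_le_sum fun p hp => ?_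
        have h1 := mem_primesTo.1 (hP hp)
        have h2 : Real.log p ≤ Real.log X :=
          Real.log_le_log (by exact_mod_cast h1.2.pos) (by exact_mod_cast h1.1)
        have := h0 p hp
        nlinarith
    _ = Real.log X * ∑ p ∈ P, Real.log p := by rw [mul_sum]
    _ ≤ Real.log X * ∑ p ∈ primesTo X, Real.log p := by
        apply mul_le_mul_of_nonneg_left _ hX
        exact sum_le_sum_of_subset_of_nonneg hP fun p _ _ => Real.log_natCast_nonneg p
    _ ≤ Real.log X * (Real.log 4 * X) := by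
        apply mul_le_mul_of_nonneg_left (sum_log_primesTo_le X) hX
    _ ≤ _ := by
        apply mul_le_mul_of_nonneg_left _ hX
        exact mul_le_mul_of_nonneg_right log_four_le (Nat.cast_nonneg _)

lemma log_bound (n : ℕ) (hn : 2 ≤ n) (c a k : ℕ) (hc0 : 0 < c) (hc : c ≤ 2 ^ a) :
    Real.log ((c * n ^ k : ℕ) : ℝ) ≤ (a + k) * Real.log n := by
  have hn' : 0 < n := by omega
  have h1 : c * n ^ k ≤ n ^ (a + k) := by
    rw [pow_add]
    exact Nat.mul_le_mul_right _ (hc.trans (Nat.pow_le_pow_left hn a))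
  calc Real.log ((c * n ^ k : ℕ) : ℝ) ≤ Real.log ((n ^ (a + k) : ℕ) : ℝ) := by
        apply Real.log_le_log
        · have : 0 < c * n ^ k := by positivity
          exact_mod_cast this
        · exact_mod_cast h1
    _ = _ := by push_cast; rw [Real.log_pow]; push_cast; ring

lemma ratio_le_V {q Q : ℕ} (hq0 : 0 < q) (hqQ : q ≤ Q) :
    (q : ℝ) / q.totient ≤ V (primesTo Q) := by
  rw [← V_primeFactors q hq0]
  apply V_mono _ (fun p hp => (mem_primesTo.1 hp).2)
  intro p hp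
  rw [mem_primesTo]
  exact ⟨(Nat.le_of_mem_primeFactors hp).trans hqQ, Nat.prime_of_mem_primeFactors hp⟩

lemma part_le (S : Finset ℕ) (a h : ℕ → ℝ) (A X : ℝ) (ha : ∀ r ∈ S, 0 ≤ a r)
    (hA : ∑ r ∈ S, a r ≤ A) (hX : 0 ≤ X) (hh : ∀ r ∈ S, h r ≤ X) :
    ∑ r ∈ S, a r * h r ≤ A * X := by
  calc ∑ r ∈ S, a r * h r ≤ ∑ r ∈ S, a r * X :=
        sum_le_sum fun r hr => mul_le_mul_of_nonneg_left (hh r hr) (ha r hr)
    _ = (∑ r ∈ S, a r) * X := by rw [sum_mul]
    _ ≤ A * X := by gcongr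

end LSieve
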