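import Pool.Agent.LibLargeSieve.ErrorTerm
import Pool.Agent.LibLargeSieve.SetProd

/-!
# The main term
-/

namespace LSieve

open Finset Filter Topology

lemma coprime_factorial_iff (w t : ℕ) :
    t.Coprime w.factorial ↔ ∀ p ∈ primesTo w, ¬ p ∣ t := by
  constructor
  · intro h p hp hpt
    rw [mem_primesTo] at hp
    have h1 : p ∣ w.factorial := (hp.2.dvd_factorial).2 hp.1
    have h2 := Nat.dvd_gcd hpt h1
    rw [h] at h2
    exact hp.2.one_lt.ne' (Nat.dvd_one.1 h2)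
  · intro h
    by_contra hc
    obtain ⟨p, hp, hpd⟩ := Nat.exists_prime_and_dvd hc
    exact h p (mem_primesTo.2 ⟨(hp.dvd_factorial).1 (hpd.trans (Nat.gcd_dvd_right _ _)), hp⟩)
      (hpd.trans (Nat.gcd_dvd_left _ _))

lemma ind_eq (w t : ℕ) : ind w.factorial t =
    ∑ A ∈ (primesTo w).powerset, (-1 : ℝ) ^ #A * (if eA A ∣ t then 1 else 0) := by
  classical
  have h1 : ∏ p ∈ primesTo w, ((-(if p ∣ t then 1 else 0) : ℝ) + 1) = ind w.factorial t := by
    unfold ind
    split_ifs with h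
    · rw [coprime_factorial_iff] at h
      apply prod_eq_one
      intro p hp
      simp [h p hp]
    · rw [coprime_factorial_iff] at h
      push Not at h
      obtain ⟨p, hp, hpt⟩ := h
      apply prod_eq_zero hp
      simp [hpt]
  rw [← h1, prod_add]
  refine sum_congr rfl fun A hA => ?_
  rw [mem_powerset] at hA
  have hAp : ∀ p ∈ A, p.Prime := fun p hp => (mem_primesTo.1 (hA hp)).2
  rw [prod_const_one, mul_one, prod_neg]
  congr 1
  by_cases h : eA A ∣ t
  · rw [if_pos h]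
    rw [eA_dvd_iff hAp] at h
    exact prod_eq_one fun p hp => by simp [h p hp]
  · rw [if_neg h]
    rw [eA_dvd_iff hAp] at h
    push Not at h
    obtain ⟨p, hp, hpt⟩ := h
    exact prod_eq_zero hp (by simp [hpt])

/-- `D(P, P', ℓ) = ∑ log p log q` over pairs with `ℓ ∣ q - p`. -/
noncomputable def Dl (P P' : Finset ℕ) (l : ℕ) : ℝ :=
  ∑ p ∈ P, ∑ q ∈ P', if (l : ℤ) ∣ (q : ℤ) - p then Real.log p * Real.log q else 0

/-- `θ(P) = ∑ log p`. -/
noncomputable def th (P : Finset ℕ) : ℝ := ∑ p ∈ P, Real.log p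

lemma Dl_fourier (P P' : Finset ℕ) {l : ℕ} (hl : l.Prime) :
    (l : ℂ) * (Dl P P' l : ℂ) = (th P : ℂ) * (th P' : ℂ) +
      ∑ x ∈ ordSet l, (starRingEnd ℂ) (FS P x) * FS P' x := by
  have key : ∀ k : ℤ, (1 : ℂ) + ∑ x ∈ ordSet l, e (k • x) = if (l : ℤ) ∣ k then (l : ℂ) else 0 := by
    intro k
    split_ifs with h
    · have h1 : ∀ x ∈ ordSet l, e (k • x) = 1 := by
        intro x hx
        rw [mem_ordSet] at hx
        rw [e_eq_one_iff, ← addOrderOf_dvd_iff_zsmul_eq_zero, hx.2]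
        exact h
      rw [sum_congr rfl h1, sum_const, card_ordSet l hl.pos, Nat.totient_prime hl, nsmul_eq_mul,
        Nat.cast_sub hl.one_le]
      push_cast; ring
    · exact sum_ordSet_prime hl k h
  have h1 : ∑ x ∈ ordSet l, (starRingEnd ℂ) (FS P x) * FS P' x =
      ∑ p ∈ P, ∑ q ∈ P', ((Real.log p * Real.log q : ℝ) : ℂ) *
        ∑ x ∈ ordSet l, e (((q : ℤ) - p) • x) := by
    have h2 : ∀ x ∈ ordSet l, (starRingEnd ℂ) (FS P x) * FS P' x =
        ∑ p ∈ P, ∑ q ∈ P', ((Real.log p * Real.log q : ℝ) : ℂ) * e (((q : ℤ) - p) • x) := by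
      intro x _
      unfold FS
      rw [nsum_conj]
      unfold nsum
      rw [sum_mul_sum]
      refine sum_congr rfl fun p _ => sum_congr rfl fun q _ => ?_
      have h3 : ((q : ℤ) - p) • x = -(p • x) + q • x := by
        rw [sub_smul, natCast_zsmul, natCast_zsmul]; abel
      rw [h3, e_add]
      push_cast
      ring
    rw [sum_congr rfl h2, sum_comm]
    refine sum_congr rfl fun p _ => ?_
    rw [sum_comm]
    refine sum_congr rfl fun q _ => ?_
    rw [mul_sum]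
  rw [h1]
  unfold Dl th
  push_cast
  rw [sum_mul_sum, mul_sum, ← sum_add_distrib]
  refine sum_congr rfl fun p _ => ?_
  rw [mul_sum, ← sum_add_distrib]
  refine sum_congr rfl fun q _ => ?_
  have h4 := key ((q : ℤ) - p)
  have h5 : ∑ x ∈ ordSet l, e (((q : ℤ) - p) • x) =
    (if (l : ℤ) ∣ (q : ℤ) - p then (l : ℂ) else 0) - 1 := by rw [← h4]; ring
  rw [h5]
  split_ifs with h
  · push_cast; ring
  · push_cast; ring

/-- Equidistribution modulo primes `ℓ ∈ (n^8, 2n^8]` on average. -/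
lemma Dl_average (n : ℕ) (hn : 2 ≤ n) (P P' : Finset ℕ) (hP : Good n P) (hP' : Good n P') :
    ∑ l ∈ PL n, Real.log l * |Dl P P' l - th P * th P' / l| ≤
      300000 * Real.log n ^ 2 * n ^ 56 := by
  classical
  have hn' : (2 : ℝ) ≤ n := by exact_mod_cast hn
  have hn0 : (0 : ℝ) < n := by linarith
  have hlog : 0 ≤ Real.log n := Real.log_natCast_nonneg n
  set X : Finset UnitAddCircle := (PL n).biUnion ordSet with hX
  have hdisj : ∀ l ∈ PL n, ∀ l' ∈ PL n, l ≠ l' → Disjoint (ordSet l) (ordSet l') := by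
    intro m _ m' _ hne
    rw [Finset.disjoint_left]
    intro x h1 h2
    rw [mem_ordSet] at h1 h2
    exact hne (h1.2.symm.trans h2.2)
  have hsep : ∀ x ∈ X, ∀ y ∈ X, ‖y - x‖ < 1 / ((4 * n ^ 32 : ℕ) : ℝ) → y = x := by
    intro x hx y hy hlt
    rw [hX, mem_biUnion] at hx hy
    obtain ⟨l, hl, hxl⟩ := hx
    obtain ⟨l', hl', hyl⟩ := hy
    rw [mem_ordSet] at hxl hyl
    by_contra hne
    have hne' : y - x ≠ 0 := sub_ne_zero.2 hne
    have h0 : (l * l') • (y - x) = 0 := by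
      rw [smul_sub]
      have a1 : (l * l') • x = 0 := by
        apply addOrderOf_dvd_iff_nsmul_eq_zero.1; rw [hxl.2]; exact ⟨l', rfl⟩
      have a2 : (l * l') • y = 0 := by
        apply addOrderOf_dvd_iff_nsmul_eq_zero.1; rw [hyl.2]; exact ⟨l, by ring⟩
      rw [a1, a2, sub_zero]
    have h1 := norm_ge_of_nsmul_eq_zero (Nat.mul_pos hxl.1 hyl.1) h0 hne'
    have h2 : ((l * l' : ℕ) : ℝ) ≤ 4 * (n : ℝ) ^ 16 := by
      have e1 := (mem_Ioc.1 (PL_sub n hl)).2
      have e2 := (mem_Ioc.1 (PL_sub n hl')).2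
      have : l * l' ≤ 4 * n ^ 16 := by
        calc l * l' ≤ (2 * n ^ 8) * (2 * n ^ 8) := Nat.mul_le_mul e1 e2
          _ = _ := by ring
      exact_mod_cast this
    have h3 : 4 * (n : ℝ) ^ 16 * (1 / ((4 * n ^ 32 : ℕ) : ℝ)) ≤ 1 := by
      push_cast
      rw [mul_one_div, div_le_one (by positivity)]
      have : (n : ℝ) ^ 16 ≤ (n : ℝ) ^ 32 := pow_le_pow_right₀ (by linarith) (by norm_num)
      linarith
    have h4 : ((l * l' : ℕ) : ℝ) * ‖y - x‖ < 1 := by
      calc ((l * l' : ℕ) : ℝ) * ‖y - x‖ ≤ 4 * (n : ℝ) ^ 16 * ‖y - x‖ := by gcongr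
        _ < 4 * (n : ℝ) ^ 16 * (1 / ((4 * n ^ 32 : ℕ) : ℝ)) := by gcongr
        _ ≤ 1 := h3
    linarith
  have hms : ∀ P : Finset ℕ, Good n P → ∑ x ∈ X, ‖FS P x‖ ^ 2 ≤
      31104 * Real.log n * n ^ 64 := by
    intro P hP
    obtain ⟨⟨A, hA⟩, hp, -, hPX⟩ := hP
    have h1 := large_sieve_nat X id (4 * n ^ 32) 1 (by positivity) (by
      intro x hx
      rw [card_le_one]
      intro a ha b hb
      rw [mem_filter] at ha hb
      rw [hsep x hx a ha.1 ha.2, hsep x hx b hb.1 hb.2]) A P hA (fun p => Real.log p)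
    have hT := sum_log_sq_le P (16 * n ^ 32) hPX
    have hT2 := log_bound n hn 16 4 32 (by norm_num) (by norm_num)
    have hT3 : ∑ t ∈ P, Real.log t ^ 2 ≤ 864 * Real.log n * n ^ 32 := by
      refine hT.trans ?_
      push_cast at hT2 ⊢
      calc Real.log (16 * (n : ℝ) ^ 32) * (3 / 2 * (16 * (n : ℝ) ^ 32))
          ≤ ((4 + 32) * Real.log n) * (3 / 2 * (16 * (n : ℝ) ^ 32)) := by gcongr
        _ = _ := by ring
    refine h1.trans ?_
    calc 9 * ((1 : ℕ) : ℝ) * ((4 * n ^ 32 : ℕ) : ℝ) * ∑ p ∈ P, Real.log p ^ 2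
        ≤ 9 * ((1 : ℕ) : ℝ) * ((4 * n ^ 32 : ℕ) : ℝ) * (864 * Real.log n * n ^ 32) := by gcongr
      _ = _ := by push_cast; ring
  have hl : ∀ l ∈ PL n, Real.log l * |Dl P P' l - th P * th P' / l| ≤
      (9 * Real.log n / n ^ 8) * ∑ x ∈ ordSet l, (‖FS P x‖ ^ 2 / 2 + ‖FS P' x‖ ^ 2 / 2) := by
    intro l hl
    have hlp := PL_prime hl
    have hl0 : (0 : ℝ) < l := by exact_mod_cast hlp.pos
    have hlI := mem_Ioc.1 (PL_sub n hl)
    have hl8 : (n : ℝ) ^ 8 ≤ l := by exact_mod_cast hlI.1.le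
    have h1 := Dl_fourier P P' hlp
    have h2 : ((l * (Dl P P' l - th P * th P' / l) : ℝ) : ℂ) =
        ∑ x ∈ ordSet l, (starRingEnd ℂ) (FS P x) * FS P' x := by
      have : (l : ℝ) * (Dl P P' l - th P * th P' / l) = l * Dl P P' l - th P * th P' := by
        field_simp
      rw [this]
      push_cast
      rw [h1]; ring
    have h3 : l * |Dl P P' l - th P * th P' / l| ≤
        ∑ x ∈ ordSet l, (‖FS P x‖ ^ 2 / 2 + ‖FS P' x‖ ^ 2 / 2) := by
      have h4 : l * |Dl P P' l - th P * th P' / l| =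
          ‖((l * (Dl P P' l - th P * th P' / l) : ℝ) : ℂ)‖ := by
        rw [Complex.norm_real, Real.norm_eq_abs, abs_mul, abs_of_pos hl0]
      rw [h4, h2]
      refine (norm_sum_le _ _).trans (sum_le_sum fun x _ => ?_)
      rw [norm_mul, RCLike.norm_conj]
      have := two_mul_le_add_sq ‖FS P x‖ ‖FS P' x‖
      linarith
    set Z := ∑ x ∈ ordSet l, (‖FS P x‖ ^ 2 / 2 + ‖FS P' x‖ ^ 2 / 2)
    have hZ : 0 ≤ Z := by positivity
    have h5 : Real.log l ≤ 9 * Real.log n := by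
      have h6 := log_bound n hn 2 1 8 (by norm_num) (by norm_num)
      have : Real.log l ≤ Real.log ((2 * n ^ 8 : ℕ) : ℝ) :=
        Real.log_le_log hl0 (by exact_mod_cast hlI.2)
      push_cast at h6 this
      linarith
    have h7 : |Dl P P' l - th P * th P' / l| ≤ Z / n ^ 8 := by
      rw [le_div_iff₀ (by positivity)]
      calc |Dl P P' l - th P * th P' / l| * (n : ℝ) ^ 8 ≤ |Dl P P' l - th P * th P' / l| * l := by
            gcongr
        _ = l * |Dl P P' l - th P * th P' / l| := mul_comm _ _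
        _ ≤ Z := h3
    calc Real.log l * |Dl P P' l - th P * th P' / l| ≤ (9 * Real.log n) * (Z / n ^ 8) := by
          apply mul_le_mul h5 h7 (abs_nonneg _) (by positivity)
      _ = _ := by ring
  refine (sum_le_sum hl).trans ?_
  rw [← mul_sum, ← sum_biUnion hdisj, ← hX, sum_add_distrib, ← sum_div, ← sum_div]
  have h1 := hms P hP
  have h2 := hms P' hP'
  calc (9 * Real.log n / n ^ 8) * ((∑ x ∈ X, ‖FS P x‖ ^ 2) / 2 + (∑ x ∈ X, ‖FS P' x‖ ^ 2) / 2)
      ≤ (9 * Real.log n / n ^ 8) * (31104 * Real.log n * n ^ 64) := by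
        apply mul_le_mul_of_nonneg_left _ (by positivity)
        linarith
    _ = 279936 * Real.log n ^ 2 * n ^ 56 := by field_simp; ring
    _ ≤ _ := by gcongr; norm_num

end LSieve
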