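import Pool.Agent.LibLargeSieve.MainTerm

/-!
# The main term, continued
-/

namespace LSieve

open Finset Filter Topology

/-- Residue class part of a set. -/
def cls (P : Finset ℕ) (m ρ : ℕ) : Finset ℕ := {p ∈ P | p % m = ρ}

lemma Good.cls {n : ℕ} {P : Finset ℕ} (h : Good n P) (m ρ : ℕ) : Good n (cls P m ρ) := by
  obtain ⟨⟨A, hA⟩, h1, h2, h3⟩ := h
  have hs : LSieve.cls P m ρ ⊆ P := filter_subset _ _
  exact ⟨⟨A, hs.trans hA⟩, fun p hp => h1 p (hs hp), fun p hp => h2 p (hs hp), hs.trans h3⟩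

/-- `A(e) = ∑_ρ θ(P_ρ) θ(P'_ρ)`. -/
noncomputable def Ae (P P' : Finset ℕ) (e : ℕ) : ℝ :=
  ∑ ρ ∈ range (2 * e), th (cls P (2 * e) ρ) * th (cls P' (2 * e) ρ)

/-- `B(ℓ, e)`. -/
noncomputable def Ble (P P' : Finset ℕ) (l e : ℕ) : ℝ :=
  ∑ p ∈ P, ∑ q ∈ P', if ((2 * l * e : ℕ) : ℤ) ∣ (q : ℤ) - p then Real.log p * Real.log q else 0

lemma Ble_eq (P P' : Finset ℕ) {l e : ℕ} (hl : l.Prime) (he : 0 < e) (hle : 2 * e < l) :
    Ble P P' l e = ∑ ρ ∈ range (2 * e), Dl (cls P (2 * e) ρ) (cls P' (2 * e) ρ) l := by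
  classical
  have h2e : 0 < 2 * e := by omega
  have hcop : IsCoprime ((2 * e : ℕ) : ℤ) (l : ℤ) := by
    rw [Nat.isCoprime_iff_coprime, Nat.coprime_comm, hl.coprime_iff_not_dvd]
    intro h
    have := Nat.le_of_dvd h2e h
    omega
  have hdvd : ∀ m : ℤ, ((2 * l * e : ℕ) : ℤ) ∣ m ↔ ((2 * e : ℕ) : ℤ) ∣ m ∧ (l : ℤ) ∣ m := by
    intro m
    have e1 : ((2 * l * e : ℕ) : ℤ) = ((2 * e : ℕ) : ℤ) * l := by push_cast; ring
    rw [e1]
    constructor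
    · intro h; exact ⟨(Dvd.intro _ rfl).trans h, (Dvd.intro_left _ rfl).trans h⟩
    · rintro ⟨h1, h2⟩; exact hcop.mul_dvd h1 h2
  unfold Ble
  have hmaps : ∀ p ∈ P, p % (2 * e) ∈ range (2 * e) := fun p _ => mem_range.2 (Nat.mod_lt _ h2e)
  rw [← sum_fiberwise_of_maps_to hmaps]
  refine sum_congr rfl fun ρ _ => ?_
  unfold Dl cls
  refine sum_congr rfl fun p hp => ?_
  rw [mem_filter] at hp
  rw [sum_filter]
  refine sum_congr rfl fun q _ => ?_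
  have h1 : ((2 * e : ℕ) : ℤ) ∣ (q : ℤ) - p ↔ q % (2 * e) = ρ := by
    rw [← hp.2, ← Int.modEq_iff_dvd, Int.natCast_modEq_iff]
    exact eq_comm
  by_cases h : q % (2 * e) = ρ
  · rw [if_pos h]
    by_cases h2 : (l : ℤ) ∣ (q : ℤ) - p
    · rw [if_pos h2, if_pos ((hdvd _).2 ⟨h1.2 h, h2⟩)]
    · rw [if_neg h2, if_neg (fun h3 => h2 ((hdvd _).1 h3).2)]
  · rw [if_neg h, if_neg (fun h3 => h (h1.1 ((hdvd _).1 h3).1))]

lemma Ble_average (n : ℕ) (hn : 2 ≤ n) (P P' : Finset ℕ) (hP : Good n P) (hP' : Good n P')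
    (e : ℕ) (he : 0 < e) (hen : 2 * e ≤ n ^ 8) :
    ∑ l ∈ PL n, Real.log l * |Ble P P' l e - Ae P P' e / l| ≤
      2 * e * (300000 * Real.log n ^ 2 * n ^ 56) := by
  have h1 : ∀ l ∈ PL n, Real.log l * |Ble P P' l e - Ae P P' e / l| ≤
      ∑ ρ ∈ range (2 * e), Real.log l * |Dl (cls P (2 * e) ρ) (cls P' (2 * e) ρ) l -
        th (cls P (2 * e) ρ) * th (cls P' (2 * e) ρ) / l| := by
    intro l hl
    rw [← mul_sum]
    apply mul_le_mul_of_nonneg_left _ (Real.log_natCast_nonneg l)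
    rw [Ble_eq P P' (PL_prime hl) he (by have := mem_Ioc.1 (PL_sub n hl); omega)]
    unfold Ae
    rw [sum_div, ← sum_sub_distrib]
    exact abs_sum_le_sum_abs _ _
  refine (sum_le_sum h1).trans ?_
  rw [sum_comm]
  calc ∑ ρ ∈ range (2 * e), ∑ l ∈ PL n, Real.log l *
        |Dl (cls P (2 * e) ρ) (cls P' (2 * e) ρ) l -
          th (cls P (2 * e) ρ) * th (cls P' (2 * e) ρ) / l|
      ≤ ∑ ρ ∈ range (2 * e), 300000 * Real.log n ^ 2 * n ^ 56 := by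
        refine sum_le_sum fun ρ _ => ?_
        exact Dl_average n hn _ _ (hP.cls _ _) (hP'.cls _ _)
    _ = _ := by rw [sum_const, card_range, nsmul_eq_mul]; push_cast; ring

end LSieve
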