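import Pool.Agent.LibLargeSieve.Bilinear
import Pool.Agent.LibLargeSieve.SetProd

/-!
# Major and minor arc bounds for `∑_ℓ log ℓ |v̂(2ℓθ)|`, with `L = n^8`, `T = n^24`
-/

namespace LSieve

open Finset

/-- Primes in `(n^8, 2 n^8]`. -/
def PL (n : ℕ) : Finset ℕ := {l ∈ Ioc (n ^ 8) (2 * n ^ 8) | l.Prime}

/-- Primes in `(n^24, 6 n^24]`. -/
def PT (n : ℕ) : Finset ℕ := {t ∈ Ioc (n ^ 24) (6 * n ^ 24) | t.Prime}

lemma PL_sub (n : ℕ) : PL n ⊆ Ioc (n ^ 8) (2 * n ^ 8) := filter_subset _ _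
lemma PL_prime {n l : ℕ} (h : l ∈ PL n) : l.Prime := (mem_filter.1 h).2
lemma PT_sub (n : ℕ) : PT n ⊆ Ioc (n ^ 24) (6 * n ^ 24) := filter_subset _ _
lemma PT_prime {n l : ℕ} (h : l ∈ PT n) : l.Prime := (mem_filter.1 h).2

lemma PL_sub_primesTo (n : ℕ) : PL n ⊆ primesTo (2 * n ^ 8) := by
  intro p hp
  rw [mem_primesTo]
  exact ⟨(mem_Ioc.1 (PL_sub n hp)).2, PL_prime hp⟩

lemma PT_sub_primesTo (n : ℕ) : PT n ⊆ primesTo (6 * n ^ 24) := by
  intro p hp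
  rw [mem_primesTo]
  exact ⟨(mem_Ioc.1 (PT_sub n hp)).2, PT_prime hp⟩

/-- The bilinear sum with absolute values. -/
noncomputable def KS (n : ℕ) (P : Finset ℕ) (f : ℕ → ℝ) (θ : UnitAddCircle) : ℝ :=
  ∑ l ∈ PL n, Real.log l * ‖nsum P f ((2 * l) • θ)‖

lemma KS_nonneg (n : ℕ) (P : Finset ℕ) (f : ℕ → ℝ) (θ : UnitAddCircle) : 0 ≤ KS n P f θ :=
  sum_nonneg fun l _ => mul_nonneg (Real.log_natCast_nonneg l) (norm_nonneg _)

lemma KS_sq_le (n : ℕ) (hn : 2 ≤ n) (P : Finset ℕ) (f : ℕ → ℝ) (θ : UnitAddCircle) :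
    KS n P f θ ^ 2 ≤ 27 * Real.log n * n ^ 8 * ∑ l ∈ PL n, ‖nsum P f ((2 * l) • θ)‖ ^ 2 := by
  have h1 := sum_mul_sq_le_sq_mul_sq (PL n) (fun l => Real.log l)
    (fun l => ‖nsum P f ((2 * l) • θ)‖)
  have h2 := sum_log_sq_le (PL n) (2 * n ^ 8) (PL_sub_primesTo n)
  have h3 := log_bound n hn 2 1 8 (by norm_num) (by norm_num)
  have h4 : ∑ p ∈ PL n, Real.log p ^ 2 ≤ 27 * Real.log n * n ^ 8 := by
    refine h2.trans ?_
    push_cast at h3 ⊢
    have hn8 : (0 : ℝ) ≤ (n : ℝ) ^ 8 := by positivity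
    calc Real.log (2 * (n : ℝ) ^ 8) * (3 / 2 * (2 * (n : ℝ) ^ 8))
        ≤ ((1 + 8) * Real.log n) * (3 / 2 * (2 * (n : ℝ) ^ 8)) := by gcongr
      _ = _ := by ring
  calc KS n P f θ ^ 2 ≤ _ := h1
    _ ≤ _ := mul_le_mul_of_nonneg_right h4 (by positivity)

section

variable {α β : UnitAddCircle} {q n D : ℕ}

/-- Bound for `v` = primes. -/
theorem major_primes (hn : 2 ≤ n) (hq : addOrderOf α = q) (hq0 : 0 < q) (hqn : q ≤ n ^ 2)
    (hβ : ‖β‖ ≤ 1 / (q * n ^ 3 * (6 * n ^ 24)))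
    (hD : n ^ 8 ≤ D ∨ 1 ≤ 2 * (6 * (n : ℝ) ^ 24) * ((D : ℝ) + 1) * ‖β‖)
    (hM : n ^ 2 * q ≤ 2 * D) (hqD : q ≤ D) :
    KS n (PT n) (fun t => Real.log t) (α + β) ^ 2 ≤
      2 * 10 ^ 7 * (q / (q.totient : ℝ) ^ 2) * (D * n ^ 8 * (n ^ 24) ^ 2) := by
  have hn' : (2 : ℝ) ≤ n := by exact_mod_cast hn
  have hn0 : (0 : ℝ) < n := by linarith
  have hq0' : (0 : ℝ) < q := by exact_mod_cast hq0
  have hq1' : (1 : ℝ) ≤ q := by exact_mod_cast hq0
  have hφ : (0 : ℝ) < q.totient := by exact_mod_cast Nat.totient_pos.2 hq0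
  have hlog : 0 < Real.log n := Real.log_pos (by linarith)
  have hqnR : (q : ℝ) ≤ n ^ 2 := by exact_mod_cast hqn
  have hpow : ∀ a b : ℕ, a ≤ b → (n : ℝ) ^ a ≤ (n : ℝ) ^ b := fun a b h =>
    pow_le_pow_right₀ (by linarith) h
  have hβ6 : ‖β‖ ≤ 1 / (6 * (n : ℝ) ^ 24) := by
    refine hβ.trans ?_
    apply one_div_le_one_div_of_le (by positivity)
    have : (1 : ℝ) ≤ q * n ^ 3 := by
      have : (1 : ℝ) ≤ (n : ℝ) ^ 3 := one_le_pow₀ (by linarith)
      nlinarith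
    nlinarith [show (0 : ℝ) < 6 * (n : ℝ) ^ 24 by positivity]
  have hβY : ‖β‖ ≤ 1 / (q * (((n ^ 24 : ℕ) : ℝ) + 1)) := by
    refine hβ.trans ?_
    apply one_div_le_one_div_of_le (by positivity)
    have h1 : (1 : ℝ) ≤ (n : ℝ) ^ 3 := one_le_pow₀ (by linarith)
    have h2 : (1 : ℝ) ≤ (n : ℝ) ^ 24 := one_le_pow₀ (by linarith)
    push_cast
    calc (q : ℝ) * ((n : ℝ) ^ 24 + 1) ≤ q * (6 * (n : ℝ) ^ 24) := by gcongr; linarith
      _ = q * 1 * (6 * (n : ℝ) ^ 24) := by ring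
      _ ≤ q * n ^ 3 * (6 * (n : ℝ) ^ 24) := by gcongr
  have hn8 : 4 * n ^ 8 ≤ n ^ 24 + 1 := by
    have h1 : 4 ≤ n ^ 16 := by
      calc 4 = 2 ^ 2 := by norm_num
        _ ≤ n ^ 2 := Nat.pow_le_pow_left hn 2
        _ ≤ n ^ 16 := Nat.pow_le_pow_right (by omega) (by norm_num)
    calc 4 * n ^ 8 ≤ n ^ 16 * n ^ 8 := Nat.mul_le_mul_right _ h1
      _ = n ^ 24 := by ring
      _ ≤ _ := by omega
  have hqY : q ≤ n ^ 24 := hqn.trans (Nat.pow_le_pow_right (by omega) (by norm_num))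
  set R : ℕ := ⌊108 * (D : ℝ) / (Real.log n * q.totient)⌋₊ with hR
  have hRle : (R : ℝ) ≤ 108 * (D : ℝ) / (Real.log n * q.totient) :=
    Nat.floor_le (by positivity)
  have key := prime_large_sieve (PL n) (fun l => (2 * l) • α) (fun l => (2 * l) • β)
    (6 * n ^ 24) R (n ^ 5) q (4 * n ^ 8 * ‖β‖) q.primeFactors (by positivity)
    (fun p hp => Nat.prime_of_mem_primeFactors hp)
    (fun l _ => Nat.pos_of_dvd_of_pos (addOrderOf_nsmul_dvd α _) (by rw [hq]; exact hq0))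
    (fun l _ => Nat.le_of_dvd hq0 (by rw [← hq]; exact addOrderOf_nsmul_dvd α _))
    (fun l _ p hp hpd => Nat.mem_primeFactors.2 ⟨hp, hpd.trans (by
      rw [← hq]; exact addOrderOf_nsmul_dvd α _), by omega⟩)
    (by
      intro l hl
      have h1 := norm_nsmul_le (a := β) (n := 2 * l)
      refine h1.trans ?_
      apply mul_le_mul_of_nonneg_right _ (norm_nonneg _)
      have h2 := (mem_Ioc.1 (PL_sub n hl)).2
      have : 2 * l ≤ 4 * n ^ 8 := by omega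
      exact_mod_cast this)
    (by
      have h1 : ((q : ℝ) * ((n ^ 5 : ℕ) : ℝ)) ^ 2 ≤ n ^ 14 := by
        push_cast
        calc ((q : ℝ) * (n : ℝ) ^ 5) ^ 2 ≤ ((n : ℝ) ^ 2 * (n : ℝ) ^ 5) ^ 2 := by gcongr
          _ = _ := by ring
      have h2 : 1 / ((6 * n ^ 24 : ℕ) : ℝ) + 2 * (4 * n ^ 8 * ‖β‖) ≤
          (9 * n ^ 8) / (6 * (n : ℝ) ^ 24) := by
        push_cast
        have h3 : 8 * (n : ℝ) ^ 8 * ‖β‖ ≤ 8 * (n : ℝ) ^ 8 * (1 / (6 * (n : ℝ) ^ 24)) := by gcongr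
        have h4 : 1 / (6 * (n : ℝ) ^ 24) ≤ (n : ℝ) ^ 8 * (1 / (6 * (n : ℝ) ^ 24)) := by
          have : (1 : ℝ) ≤ (n : ℝ) ^ 8 := one_le_pow₀ (by linarith)
          have h5 : 0 < 1 / (6 * (n : ℝ) ^ 24) := by positivity
          nlinarith
        calc 1 / (6 * (n : ℝ) ^ 24) + 2 * (4 * (n : ℝ) ^ 8 * ‖β‖)
            = 1 / (6 * (n : ℝ) ^ 24) + 8 * (n : ℝ) ^ 8 * ‖β‖ := by ring
          _ ≤ (n : ℝ) ^ 8 * (1 / (6 * (n : ℝ) ^ 24)) + 8 * (n : ℝ) ^ 8 * (1 / (6 * (n : ℝ) ^ 24)) :=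
              add_le_add h4 h3
          _ = _ := by ring
      calc ((q : ℝ) * ((n ^ 5 : ℕ) : ℝ)) ^ 2 * (1 / ((6 * n ^ 24 : ℕ) : ℝ) + 2 * (4 * n ^ 8 * ‖β‖))
          ≤ (n : ℝ) ^ 14 * ((9 * n ^ 8) / (6 * (n : ℝ) ^ 24)) := by
            apply mul_le_mul h1 h2 (by positivity) (by positivity)
        _ = (3 / 2) / (n : ℝ) ^ 2 := by field_simp; ring
        _ < 1 := by
            rw [div_lt_one (by positivity)]
            nlinarith)
    (by
      intro l hl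
      have h1 := ball_card_prime (M := n) (H := 6 * n ^ 24) hq hq0 hqY hβY hn8
        (by omega) (D := D) (by
          rcases hD with h | h
          · left; exact h
          · right; push_cast; exact h) hM hqD (Nat.le_self_pow (by norm_num) n) (PL n) (PL_sub n)
        (fun p hp => PL_prime hp) l hl
      rw [hR]
      apply Nat.le_floor
      rw [le_div_iff₀ (by positivity)]
      refine le_trans (le_of_eq ?_) h1
      congr 3
      ext l'
      simp only [mem_filter, smul_add])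
    (n ^ 24 + 1) (PT n) (by
      intro t ht
      have := mem_Ioc.1 (PT_sub n ht)
      rw [mem_Ico]; omega)
    (fun t => Real.log t) (fun p hp => PT_prime hp) (by
      intro p hp
      have := mem_Ioc.1 (PT_sub n hp)
      have h2 : n ^ 5 ≤ n ^ 24 := Nat.pow_le_pow_right (by omega) (by norm_num)
      omega)
  rw [V_primeFactors q hq0] at key
  have hlog5 : Real.log ((n ^ 5 : ℕ) : ℝ) = 5 * Real.log n := by
    push_cast; rw [Real.log_pow]; push_cast; ring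
  rw [hlog5] at key
  have hT := sum_log_sq_le (PT n) (6 * n ^ 24) (PT_sub_primesTo n)
  have hT2 := log_bound n hn 6 3 24 (by norm_num) (by norm_num)
  have hT3 : ∑ t ∈ PT n, Real.log t ^ 2 ≤ 243 * Real.log n * n ^ 24 := by
    refine hT.trans ?_
    push_cast at hT2 ⊢
    calc Real.log (6 * (n : ℝ) ^ 24) * (3 / 2 * (6 * (n : ℝ) ^ 24))
        ≤ ((3 + 24) * Real.log n) * (3 / 2 * (6 * (n : ℝ) ^ 24)) := by gcongr
      _ = _ := by ring
  simp_rw [← smul_add] at key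
  set SS : ℝ := ∑ l ∈ PL n, ‖nsum (PT n) (fun t => Real.log t) ((2 * l) • (α + β))‖ ^ 2 with hSS
  have hSg : Real.log n * SS ≤ 566871 * (q / (q.totient : ℝ) ^ 2) * (D * (n ^ 24) ^ 2) := by
    have h1 : 5 * Real.log n * SS ≤ 18 * (q / q.totient) *
        (108 * (D : ℝ) / (Real.log n * q.totient)) * ((6 * n ^ 24 : ℕ) : ℝ) *
          (243 * Real.log n * n ^ 24) := by
      refine key.trans ?_
      gcongr
    have h2 : 18 * ((q : ℝ) / q.totient) *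
        (108 * (D : ℝ) / (Real.log n * q.totient)) * ((6 * n ^ 24 : ℕ) : ℝ) *
          (243 * Real.log n * n ^ 24) =
        5 * (566870.4 * (q / (q.totient : ℝ) ^ 2) * (D * (n ^ 24) ^ 2)) := by
      push_cast
      field_simp
      ring
    rw [h2] at h1
    have h3 : 0 ≤ (q / (q.totient : ℝ) ^ 2) * (D * ((n : ℝ) ^ 24) ^ 2) := by positivity
    linarith
  have h5 := KS_sq_le n hn (PT n) (fun t => Real.log t) (α + β)
  rw [← hSS] at h5
  refine h5.trans ?_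
  calc 27 * Real.log n * (n : ℝ) ^ 8 * SS = 27 * (n : ℝ) ^ 8 * (Real.log n * SS) := by ring
    _ ≤ 27 * (n : ℝ) ^ 8 * (566871 * (q / (q.totient : ℝ) ^ 2) * (D * (n ^ 24) ^ 2)) := by gcongr
    _ ≤ _ := by
      have h3 : 0 ≤ (q / (q.totient : ℝ) ^ 2) * (D * (n : ℝ) ^ 8 * ((n : ℝ) ^ 24) ^ 2) := by
        positivity
      nlinarith

/-- Bound for bounded weights on the major arcs. -/
theorem major_bounded (hn : 2 ≤ n) (hq : addOrderOf α = q) (hq0 : 0 < q) (hqn : q ≤ n ^ 2)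
    (hβ : ‖β‖ ≤ 1 / (q * n ^ 3 * (6 * n ^ 24)))
    (hD : n ^ 8 ≤ D ∨ 1 ≤ 2 * (6 * (n : ℝ) ^ 24) * ((D : ℝ) + 1) * ‖β‖)
    (hM : n ^ 2 * q ≤ 2 * D) (hqD : q ≤ D) (P : Finset ℕ) (hP : P ⊆ Ioc (n ^ 24) (6 * n ^ 24))
    (f : ℕ → ℝ) (hf : ∀ t ∈ P, |f t| ≤ 1) :
    KS n P f (α + β) ^ 2 ≤ 10 ^ 6 * (1 / (q.totient : ℝ)) * (D * n ^ 8 * (n ^ 24) ^ 2) := by
  have hn' : (2 : ℝ) ≤ n := by exact_mod_cast hn
  have hn0 : (0 : ℝ) < n := by linarith
  have hq0' : (0 : ℝ) < q := by exact_mod_cast hq0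
  have hφ : (0 : ℝ) < q.totient := by exact_mod_cast Nat.totient_pos.2 hq0
  have hlog : 0 < Real.log n := Real.log_pos (by linarith)
  have hβY : ‖β‖ ≤ 1 / (q * (((n ^ 24 : ℕ) : ℝ) + 1)) := by
    refine hβ.trans ?_
    apply one_div_le_one_div_of_le (by positivity)
    have h1 : (1 : ℝ) ≤ (n : ℝ) ^ 3 := one_le_pow₀ (by linarith)
    have h2 : (1 : ℝ) ≤ (n : ℝ) ^ 24 := one_le_pow₀ (by linarith)
    push_cast
    calc (q : ℝ) * ((n : ℝ) ^ 24 + 1) ≤ q * (6 * (n : ℝ) ^ 24) := by gcongr; linarith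
      _ = q * 1 * (6 * (n : ℝ) ^ 24) := by ring
      _ ≤ q * n ^ 3 * (6 * (n : ℝ) ^ 24) := by gcongr
  have hn8 : 4 * n ^ 8 ≤ n ^ 24 + 1 := by
    have h1 : 4 ≤ n ^ 16 := by
      calc 4 = 2 ^ 2 := by norm_num
        _ ≤ n ^ 2 := Nat.pow_le_pow_left hn 2
        _ ≤ n ^ 16 := Nat.pow_le_pow_right (by omega) (by norm_num)
    calc 4 * n ^ 8 ≤ n ^ 16 * n ^ 8 := Nat.mul_le_mul_right _ h1
      _ = n ^ 24 := by ring
      _ ≤ _ := by omega
  have hqY : q ≤ n ^ 24 := hqn.trans (Nat.pow_le_pow_right (by omega) (by norm_num))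
  set R : ℕ := ⌊108 * (D : ℝ) / (Real.log n * q.totient)⌋₊ with hR
  have hRle : (R : ℝ) ≤ 108 * (D : ℝ) / (Real.log n * q.totient) :=
    Nat.floor_le (by positivity)
  have key := large_sieve_nat (PL n) (fun l => (2 * l) • (α + β)) (6 * n ^ 24) R (by positivity)
    (by
      intro l hl
      have h1 := ball_card_prime (M := n) (H := 6 * n ^ 24) hq hq0 hqY hβY hn8
        (by omega) (D := D) (by
          rcases hD with h | h
          · left; exact h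
          · right; push_cast; exact h) hM hqD (Nat.le_self_pow (by norm_num) n) (PL n) (PL_sub n)
        (fun p hp => PL_prime hp) l hl
      rw [hR]
      apply Nat.le_floor
      rw [le_div_iff₀ (by positivity)]
      exact h1)
    (n ^ 24 + 1) P (by
      intro t ht
      have := mem_Ioc.1 (hP ht)
      rw [mem_Ico]; omega) f
  have hcard : ∑ t ∈ P, f t ^ 2 ≤ 6 * (n : ℝ) ^ 24 := by
    calc ∑ t ∈ P, f t ^ 2 ≤ ∑ t ∈ P, (1 : ℝ) := by
          refine sum_le_sum fun t ht => ?_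
          have := hf t ht
          rw [← sq_abs]
          have := abs_nonneg (f t)
          nlinarith
      _ = #P := by simp
      _ ≤ #(Ioc (n ^ 24) (6 * n ^ 24)) := by exact_mod_cast card_le_card hP
      _ ≤ _ := by
          rw [Nat.card_Ioc]
          have : 6 * n ^ 24 - n ^ 24 ≤ 6 * n ^ 24 := Nat.sub_le _ _
          exact_mod_cast this
  have h5 := KS_sq_le n hn P f (α + β)
  refine h5.trans ?_
  calc 27 * Real.log n * (n : ℝ) ^ 8 * ∑ l ∈ PL n, ‖nsum P f ((2 * l) • (α + β))‖ ^ 2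
      ≤ 27 * Real.log n * (n : ℝ) ^ 8 * (9 * (108 * (D : ℝ) / (Real.log n * q.totient)) *
          ((6 * n ^ 24 : ℕ) : ℝ) * (6 * (n : ℝ) ^ 24)) := by
        gcongr
        refine key.trans ?_
        gcongr
    _ = 944784 * (1 / (q.totient : ℝ)) * (D * n ^ 8 * (n ^ 24) ^ 2) := by
        push_cast
        field_simp
        ring
    _ ≤ _ := by
        have h3 : 0 ≤ (1 / (q.totient : ℝ)) * (D * (n : ℝ) ^ 8 * ((n : ℝ) ^ 24) ^ 2) := by
          positivity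
        nlinarith

/-- Minor arcs. -/
theorem minor_bound (hn : 2 ≤ n) (hq : addOrderOf α = q) (hq0 : 0 < q) (hqn : q ≤ n ^ 24)
    (hβ : ‖β‖ ≤ 1 / (q * (((n ^ 24 : ℕ) : ℝ) + 1)))
    (hmin : n ^ 2 < q ∨ 1 / (q * n ^ 3 * (6 * n ^ 24)) < ‖β‖)
    (P : Finset ℕ) (hP : P ⊆ Ioc (n ^ 24) (6 * n ^ 24))
    (f : ℕ → ℝ) (F : ℝ) (hf : ∀ t ∈ P, |f t| ≤ F) :
    KS n P f (α + β) ^ 2 ≤ 43740 * Real.log n * F ^ 2 * n ^ 62 := by
  have hn' : (2 : ℝ) ≤ n := by exact_mod_cast hn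
  have hn0 : (0 : ℝ) < n := by linarith
  have hq0' : (0 : ℝ) < q := by exact_mod_cast hq0
  have hlog : 0 < Real.log n := Real.log_pos (by linarith)
  have hn8 : 4 * n ^ 8 ≤ n ^ 24 + 1 := by
    have h1 : 4 ≤ n ^ 16 := by
      calc 4 = 2 ^ 2 := by norm_num
        _ ≤ n ^ 2 := Nat.pow_le_pow_left hn 2
        _ ≤ n ^ 16 := Nat.pow_le_pow_right (by omega) (by norm_num)
    calc 4 * n ^ 8 ≤ n ^ 16 * n ^ 8 := Nat.mul_le_mul_right _ h1
      _ = n ^ 24 := by ring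
      _ ≤ _ := by omega
  have hn6 : (1 : ℝ) ≤ (n : ℝ) ^ 6 := one_le_pow₀ (by linarith)
  have key := large_sieve_nat (PL n) (fun l => (2 * l) • (α + β)) (6 * n ^ 24) (5 * n ^ 6)
    (by positivity)
    (by
      intro l hl
      rcases hmin with hmin | hmin
      · have h1 := ball_card_int (H := 6 * n ^ 24) hq hq0 hqn hβ hn8
          (by omega) (D := n ^ 8) (Or.inl le_rfl) (PL n) (PL_sub n) l hl
        have h2 : 4 * ((n ^ 8 : ℕ) : ℝ) / q + 1 ≤ 5 * (n : ℝ) ^ 6 := by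
          have h3 : ((n : ℝ)) ^ 2 ≤ q := by exact_mod_cast hmin.le
          have h4 : 4 * ((n ^ 8 : ℕ) : ℝ) / q ≤ 4 * (n : ℝ) ^ 6 := by
            rw [div_le_iff₀ hq0']
            push_cast
            calc 4 * (n : ℝ) ^ 8 = 4 * (n : ℝ) ^ 6 * (n : ℝ) ^ 2 := by ring
              _ ≤ _ := by gcongr
          linarith
        have h3 := h1.trans h2
        exact_mod_cast h3
      · have h1 := ball_card_int (H := 6 * n ^ 24) hq hq0 hqn hβ hn8
          (by omega) (D := q * n ^ 3) (Or.inr (by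
            have h5 : 0 < (q : ℝ) * n ^ 3 * (6 * n ^ 24) := by positivity
            rw [div_lt_iff₀ h5] at hmin
            push_cast
            have h6 := norm_nonneg β
            have h7 : 0 ≤ (6 * (n : ℝ) ^ 24) * ‖β‖ := by positivity
            nlinarith)) (PL n) (PL_sub n) l hl
        have h2 : 4 * ((q * n ^ 3 : ℕ) : ℝ) / q + 1 ≤ 5 * (n : ℝ) ^ 6 := by
          push_cast
          have h3 : 4 * ((q : ℝ) * n ^ 3) / q = 4 * (n : ℝ) ^ 3 := by field_simp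
          rw [h3]
          have h4 : (n : ℝ) ^ 3 ≤ (n : ℝ) ^ 6 := pow_le_pow_right₀ (by linarith) (by norm_num)
          linarith
        have h3 := h1.trans h2
        exact_mod_cast h3)
    (n ^ 24 + 1) P (by
      intro t ht
      have := mem_Ioc.1 (hP ht)
      rw [mem_Ico]; omega) f
  have hcard : ∑ t ∈ P, f t ^ 2 ≤ 6 * (n : ℝ) ^ 24 * F ^ 2 := by
    calc ∑ t ∈ P, f t ^ 2 ≤ ∑ t ∈ P, F ^ 2 := by
          refine sum_le_sum fun t ht => ?_
          have := hf t ht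
          rw [← sq_abs]
          have := abs_nonneg (f t)
          gcongr
      _ = #P * F ^ 2 := by simp
      _ ≤ #(Ioc (n ^ 24) (6 * n ^ 24)) * F ^ 2 := by
          gcongr
      _ ≤ _ := by
          rw [Nat.card_Ioc]
          have : ((6 * n ^ 24 - n ^ 24 : ℕ) : ℝ) ≤ 6 * (n : ℝ) ^ 24 := by
            exact_mod_cast Nat.sub_le _ _
          gcongr
  have h5 := KS_sq_le n hn P f (α + β)
  refine h5.trans ?_
  calc 27 * Real.log n * (n : ℝ) ^ 8 * ∑ l ∈ PL n, ‖nsum P f ((2 * l) • (α + β))‖ ^ 2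
      ≤ 27 * Real.log n * (n : ℝ) ^ 8 * (9 * ((5 * n ^ 6 : ℕ) : ℝ) *
          ((6 * n ^ 24 : ℕ) : ℝ) * (6 * (n : ℝ) ^ 24 * F ^ 2)) := by
        gcongr
        refine key.trans ?_
        gcongr
    _ = _ := by
        push_cast
        ring

end

end LSieve
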