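import Pool.Agent.LibLargeSieve.Additive

/-!
# Many pairs of primes `p < q` with `q - p = 2 ℓ t`
-/

namespace LSieve

open Finset Filter Topology

/-- The quadruples `(ℓ, t, p, q)` of primes with `q = p + 2 ℓ t`. -/
def Quad (n d b b' : ℕ) : Finset ((ℕ × ℕ) × (ℕ × ℕ)) :=
  {x ∈ (PL n ×ˢ PT n) ×ˢ (PP d b n ×ˢ PQ d b' n) | x.2.2 = x.2.1 + 2 * x.1.1 * x.1.2}

lemma Cnt_le_Quad (n d b b' : ℕ) (hn : 2 ≤ n) :
    Cnt n (PP d b n) (PQ d b' n) vlog ≤ #(Quad n d b b') * (36 * Real.log n) ^ 4 := by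
  have h1 : Cnt n (PP d b n) (PQ d b' n) vlog = ∑ x ∈ Quad n d b b',
      Real.log x.1.1 * Real.log x.1.2 * Real.log x.2.1 * Real.log x.2.2 := by
    unfold Cnt Quad PT
    rw [sum_filter, sum_product, sum_product]
    refine sum_congr rfl fun l _ => ?_
    rw [sum_filter]
    refine sum_congr rfl fun t _ => ?_
    unfold vlog
    by_cases ht : t.Prime
    · rw [if_pos ht, if_pos ht, sum_product]
    · rw [if_neg ht, if_neg ht]
      refine sum_eq_zero fun p _ => sum_eq_zero fun q _ => ?_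
      simp
  rw [h1]
  have hb : ∀ m : ℕ, 0 < m → m ≤ 16 * n ^ 32 → Real.log m ≤ 36 * Real.log n := by
    intro m hm hm2
    have h2 := log_bound n hn 16 4 32 (by norm_num) (by norm_num)
    have h3 : Real.log m ≤ Real.log ((16 * n ^ 32 : ℕ) : ℝ) :=
      Real.log_le_log (by exact_mod_cast hm) (by exact_mod_cast hm2)
    push_cast at h2 h3
    linarith
  have hn1 : 1 ≤ n := by omega
  have hp8 : n ^ 8 ≤ n ^ 32 := Nat.pow_le_pow_right hn1 (by norm_num)
  have hp24 : n ^ 24 ≤ n ^ 32 := Nat.pow_le_pow_right hn1 (by norm_num)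
  calc ∑ x ∈ Quad n d b b', Real.log x.1.1 * Real.log x.1.2 * Real.log x.2.1 * Real.log x.2.2
      ≤ ∑ x ∈ Quad n d b b', (36 * Real.log n) ^ 4 := by
        refine sum_le_sum fun x hx => ?_
        unfold Quad at hx
        rw [mem_filter, mem_product, mem_product, mem_product] at hx
        obtain ⟨⟨⟨hl, ht⟩, hp, hq⟩, -⟩ := hx
        have e1 := mem_Ioc.1 (PL_sub n hl)
        have e2 := mem_Ioc.1 (PT_sub n ht)
        have e3 := mem_Ioc.1 (mem_filter.1 hp).1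
        have e4 := mem_Ioc.1 (mem_filter.1 hq).1
        have f1 := hb x.1.1 (by omega) (by omega)
        have f2 := hb x.1.2 (by omega) (by omega)
        have f3 := hb x.2.1 (by omega) (by omega)
        have f4 := hb x.2.2 (by omega) (by omega)
        have g1 := Real.log_natCast_nonneg x.1.1
        have g2 := Real.log_natCast_nonneg x.1.2
        have g3 := Real.log_natCast_nonneg x.2.1
        have g4 := Real.log_natCast_nonneg x.2.2
        calc Real.log x.1.1 * Real.log x.1.2 * Real.log x.2.1 * Real.log x.2.2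
            ≤ (36 * Real.log n) * (36 * Real.log n) * (36 * Real.log n) * (36 * Real.log n) := by
              gcongr
          _ = _ := by ring
    _ = _ := by rw [sum_const, nsmul_eq_mul]

lemma Quad_inj (n d b b' : ℕ) (hn : 2 ≤ n) :
    Set.InjOn (fun x : (ℕ × ℕ) × (ℕ × ℕ) => x.2) (Quad n d b b' : Set ((ℕ × ℕ) × (ℕ × ℕ))) := by
  rintro ⟨⟨l, t⟩, ⟨p, q⟩⟩ hx ⟨⟨l', t'⟩, ⟨p', q'⟩⟩ hy h
  simp only [Prod.mk.injEq] at h
  obtain ⟨rfl, rfl⟩ := h
  rw [mem_coe, Quad, mem_filter, mem_product, mem_product, mem_product] at hx hy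
  simp only at hx hy
  obtain ⟨⟨⟨hl, ht⟩, -, -⟩, hxq⟩ := hx
  obtain ⟨⟨⟨hl', ht'⟩, -, -⟩, hyq⟩ := hy
  have e0 : 2 * (l * t) = 2 * (l' * t') := by
    have : 2 * l * t = 2 * l' * t' := by omega
    rw [← mul_assoc, ← mul_assoc]; exact this
  have e1 : l * t = l' * t' := Nat.eq_of_mul_eq_mul_left (by norm_num) e0
  have hlp := PL_prime hl
  have hlp' := PL_prime hl'
  have htp' := PT_prime ht'
  have hdiv : l ∣ l' * t' := ⟨t, e1.symm⟩
  rcases hlp.dvd_mul.1 hdiv with h2 | h2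
  · have h3 := (Nat.prime_dvd_prime_iff_eq hlp hlp').1 h2
    subst h3
    have h4 : t = t' := Nat.eq_of_mul_eq_mul_left hlp.pos e1
    rw [h4]
  · exfalso
    have h3 := (Nat.prime_dvd_prime_iff_eq hlp htp').1 h2
    have e2 := mem_Ioc.1 (PL_sub n hl)
    have e3 := mem_Ioc.1 (PT_sub n ht')
    have e4 : 2 * n ^ 8 ≤ n ^ 24 := by
      calc 2 * n ^ 8 ≤ n ^ 16 * n ^ 8 := by
            apply Nat.mul_le_mul_right
            calc 2 ≤ n := hn
              _ ≤ n ^ 16 := Nat.le_self_pow (by norm_num) n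
        _ = n ^ 24 := by ring
    omega

/-- **Additive theorem, unweighted form.** -/
theorem pairs_exist (d b b' : ℕ) (hd : d.Prime) (hd2 : d ≠ 2) (hb : b.Coprime d)
    (hb' : b'.Coprime d) (hbb : ¬ b ≡ b' [MOD d]) :
    ∃ cc : ℝ, 0 < cc ∧ ∀ᶠ n : ℕ in atTop, ∃ 𝒬 : Finset (ℕ × ℕ),
      cc * n ^ 64 / Real.log n ^ 4 ≤ #𝒬 ∧ ∀ x ∈ 𝒬, x.1.Prime ∧ x.2.Prime ∧ n ^ 8 < x.1 ∧
        x.1 < x.2 ∧ x.2 ≤ 16 * n ^ 32 ∧ x.1 ≡ b [MOD d] ∧ x.2 ≡ b' [MOD d] ∧
        ∃ l t : ℕ, l.Prime ∧ t.Prime ∧ n ^ 8 < l ∧ l < t ∧ t < x.1 ∧ x.2 = x.1 + 2 * l * t := by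
  have hd1 : (0 : ℝ) < (d : ℝ) - 1 := by
    have : (2 : ℝ) ≤ d := by exact_mod_cast hd.two_le
    linarith
  refine ⟨16 / (14 * ((d : ℝ) - 1) ^ 2 * 36 ^ 4), by positivity, ?_⟩
  filter_upwards [Cnt_vlog_ge d b b' hd hd2 hb hb' hbb, eventually_ge_atTop 3] with n h hn
  have hn' : (3 : ℝ) ≤ n := by exact_mod_cast hn
  have hlog : 0 < Real.log n := Real.log_pos (by linarith)
  refine ⟨(Quad n d b b').image (fun x => x.2), ?_, ?_⟩
  · rw [card_image_of_injOn (Quad_inj n d b b' (by omega))]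
    have h1 := h.trans (Cnt_le_Quad n d b b' (by omega))
    rw [div_le_iff₀ (by positivity)]
    push_cast at h1
    have h2 : 1 / (14 * ((d : ℝ) - 1) ^ 2) * (4 * (n : ℝ) ^ 32) ^ 2 =
      (16 / (14 * ((d : ℝ) - 1) ^ 2 * 36 ^ 4) * (n : ℝ) ^ 64) * 36 ^ 4 := by
      field_simp; ring
    rw [h2, mul_pow] at h1
    have h3 : (#(Quad n d b b') : ℝ) * (36 ^ 4 * Real.log n ^ 4) =
      (#(Quad n d b b') * Real.log n ^ 4) * 36 ^ 4 := by ring
    rw [h3] at h1
    exact le_of_mul_le_mul_right h1 (by positivity)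
  · intro x hx
    rw [mem_image] at hx
    obtain ⟨⟨⟨l, t⟩, ⟨p, q⟩⟩, hy, rfl⟩ := hx
    rw [Quad, mem_filter, mem_product, mem_product, mem_product] at hy
    simp only at hy ⊢
    obtain ⟨⟨⟨hl, ht⟩, hp, hq⟩, heq⟩ := hy
    have e1 := mem_Ioc.1 (PL_sub n hl)
    have e2 := mem_Ioc.1 (PT_sub n ht)
    have e3 := mem_Ioc.1 (mem_filter.1 hp).1
    have e4 := mem_Ioc.1 (mem_filter.1 hq).1
    have hn1 : 1 ≤ n := by omega
    have g1 : n ^ 8 ≤ n ^ 32 := Nat.pow_le_pow_right hn1 (by norm_num)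
    have g2 : 2 * n ^ 8 ≤ n ^ 24 := by
      calc 2 * n ^ 8 ≤ n ^ 16 * n ^ 8 := by
            apply Nat.mul_le_mul_right
            calc 2 ≤ n := by omega
              _ ≤ n ^ 16 := Nat.le_self_pow (by norm_num) n
        _ = n ^ 24 := by ring
    have g3 : 6 * n ^ 24 ≤ 4 * n ^ 32 := by
      have : 2 * n ^ 24 ≤ n ^ 32 := by
        calc 2 * n ^ 24 ≤ n ^ 8 * n ^ 24 := by
              apply Nat.mul_le_mul_right
              calc 2 ≤ n := by omega
                _ ≤ n ^ 8 := Nat.le_self_pow (by norm_num) n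
          _ = n ^ 32 := by ring
      omega
    refine ⟨(mem_filter.1 hp).2.1, (mem_filter.1 hq).2.1, by omega, by omega, by omega,
      (mem_filter.1 hp).2.2, (mem_filter.1 hq).2.2, l, t, PL_prime hl, PT_prime ht, e1.1,
      by omega, by omega, heq⟩

end LSieve
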