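import Pool.Agent.LibLargeSieve.Basic

/-!
# Montgomery's sieve inequality and a large sieve for sifted sequences
-/

namespace LSieve

open Finset

/-- Points of exact order `m` on `ℝ/ℤ`. -/
noncomputable def ordSet (m : ℕ) : Finset UnitAddCircle :=
  if h : 0 < m then (AddCircle.finite_setOfPred_addOrderOf_eq (p := (1 : ℝ)) h).toFinset else ∅

lemma mem_ordSet {m : ℕ} {x : UnitAddCircle} : x ∈ ordSet m ↔ 0 < m ∧ addOrderOf x = m := by
  unfold ordSet
  split_ifs with h
  · simp [h]
  · simp [h]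

lemma card_ordSet (m : ℕ) (hm : 0 < m) : #(ordSet m) = m.totient := by
  have h := AddCircle.card_addOrderOf_eq_totient (p := (1 : ℝ)) (n := m)
  rw [← h]
  symm
  apply Nat.subtype_card
  intro x
  rw [mem_ordSet]
  simp [hm]

lemma norm_ge_of_nsmul_eq_zero {u : UnitAddCircle} {n : ℕ} (hn : 0 < n) (h : n • u = 0)
    (hu : u ≠ 0) : 1 ≤ n * ‖u‖ := by
  have hfin : IsOfFinAddOrder u := isOfFinAddOrder_iff_nsmul_eq_zero.2 ⟨n, hn, h⟩
  have h1 := AddCircle.le_add_order_smul_norm_of_isOfFinAddOrder hfin hu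
  rw [nsmul_eq_mul] at h1
  have h2 : (addOrderOf u : ℝ) ≤ n := by
    exact_mod_cast Nat.le_of_dvd hn (addOrderOf_dvd_of_nsmul_eq_zero h)
  nlinarith [norm_nonneg u]

lemma e_eq_one_iff {x : UnitAddCircle} : e x = 1 ↔ x = 0 := by
  constructor
  · intro h
    have : AddCircle.toCircle x = AddCircle.toCircle (0 : UnitAddCircle) := by
      apply Subtype.ext
      rw [AddCircle.toCircle_zero]
      exact h
    exact AddCircle.injective_toCircle one_ne_zero this
  · rintro rfl; simp

lemma sum_ordSet_prime {p : ℕ} (hp : p.Prime) (k : ℤ) (hk : ¬ (p : ℤ) ∣ k) :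
    1 + ∑ x ∈ ordSet p, e (k • x) = 0 := by
  classical
  have h0 : (0 : UnitAddCircle) ∉ ordSet p := by
    rw [mem_ordSet]; rintro ⟨_, h⟩
    rw [addOrderOf_zero] at h
    exact hp.one_lt.ne h
  have hT : 1 + ∑ x ∈ ordSet p, e (k • x) = ∑ x ∈ insert 0 (ordSet p), e (k • x) := by
    rw [sum_insert h0]; simp
  have hmem : ∀ x : UnitAddCircle, x ∈ insert 0 (ordSet p) ↔ p • x = 0 := by
    intro x
    rw [mem_insert, mem_ordSet]
    constructor
    · rintro (rfl | ⟨_, h⟩)
      · simp
      · rw [← h]; exact addOrderOf_nsmul_eq_zero x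
    · intro h
      have := addOrderOf_dvd_of_nsmul_eq_zero h
      rcases (Nat.dvd_prime hp).1 this with h1 | h1
      · left; exact AddMonoid.addOrderOf_eq_one_iff.1 h1
      · right; exact ⟨hp.pos, h1⟩
  rw [hT]
  set x0 : UnitAddCircle := ((1 / p : ℝ) : UnitAddCircle) with hx0
  have hord : addOrderOf x0 = p := AddCircle.addOrderOf_period_div hp.pos
  have hne : e (k • x0) ≠ 1 := by
    rw [Ne, e_eq_one_iff]
    intro h
    apply hk
    rw [← hord]
    exact addOrderOf_dvd_iff_zsmul_eq_zero.2 h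
  have hshift : ∑ x ∈ insert 0 (ordSet p), e (k • x) =
      ∑ x ∈ insert 0 (ordSet p), e (k • (x + x0)) := by
    symm
    refine sum_equiv (Equiv.addRight x0) ?_ ?_
    · intro x
      rw [hmem, hmem]
      simp only [Equiv.coe_addRight, smul_add]
      have : p • x0 = 0 := by rw [← hord]; exact addOrderOf_nsmul_eq_zero x0
      rw [this, add_zero]
    · intro x _; rfl
  have h2 : ∑ x ∈ insert 0 (ordSet p), e (k • (x + x0)) =
      (∑ x ∈ insert 0 (ordSet p), e (k • x)) * e (k • x0) := by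
    rw [sum_mul]
    refine sum_congr rfl fun x _ => ?_
    rw [smul_add, e_add]
  rw [h2] at hshift
  have h3 : (∑ x ∈ insert 0 (ordSet p), e (k • x)) * (e (k • x0) - 1) = 0 := by
    rw [mul_sub, mul_one, ← hshift, sub_self]
  rcases mul_eq_zero.1 h3 with h | h
  · exact h
  · exact absurd (sub_eq_zero.1 h) hne

/-- One prime step of Montgomery's inequality. -/
lemma mont_prime {p : ℕ} (hp : p.Prime) (s : Finset ℤ) (f : ℤ → ℂ) (h : ℤ)
    (hf : ∀ n ∈ s, f n ≠ 0 → ¬ n ≡ h [ZMOD p]) (γ : UnitAddCircle) :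
    ‖expSum s f γ‖ ^ 2 ≤ p.totient * ∑ x ∈ ordSet p, ‖expSum s f (γ + x)‖ ^ 2 := by
  have h1 : ∑ x ∈ ordSet p, expSum s f (γ + x) * e (-(h • x)) = - expSum s f γ := by
    unfold expSum
    simp_rw [sum_mul]
    rw [sum_comm, ← sum_neg_distrib]
    refine sum_congr rfl fun n hn => ?_
    by_cases hn0 : f n = 0
    · simp [hn0]
    have hk : ¬ (p : ℤ) ∣ (n - h) := by
      intro hd
      apply hf n hn hn0
      exact (Int.modEq_iff_dvd.2 hd).symm
    have := sum_ordSet_prime hp (n - h) hk
    have h2 : ∑ x ∈ ordSet p, e ((n - h) • x) = -1 := by linear_combination this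
    calc ∑ x ∈ ordSet p, f n * e (n • (γ + x)) * e (-(h • x))
        = f n * e (n • γ) * ∑ x ∈ ordSet p, e ((n - h) • x) := by
          rw [mul_sum]
          refine sum_congr rfl fun x _ => ?_
          rw [smul_add, e_add, sub_smul, sub_eq_add_neg, e_add]
          ring
      _ = _ := by rw [h2]; ring
  have h2 : ‖expSum s f γ‖ ≤ ∑ x ∈ ordSet p, ‖expSum s f (γ + x)‖ := by
    rw [← norm_neg, ← h1]
    refine (norm_sum_le _ _).trans (sum_le_sum fun x _ => ?_)
    simp
  calc ‖expSum s f γ‖ ^ 2 ≤ (∑ x ∈ ordSet p, ‖expSum s f (γ + x)‖) ^ 2 := by gcongr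
    _ ≤ #(ordSet p) * ∑ x ∈ ordSet p, ‖expSum s f (γ + x)‖ ^ 2 := sq_sum_le_card_mul_sum_sq
    _ = _ := by rw [card_ordSet p hp.pos]

/-- **Montgomery's inequality.** -/
theorem mont (s : Finset ℤ) (f : ℤ → ℂ) (m : ℕ) (hm : Squarefree m)
    (hf : ∀ p : ℕ, p.Prime → p ∣ m → ∃ h : ℤ, ∀ n ∈ s, f n ≠ 0 → ¬ n ≡ h [ZMOD p])
    (γ : UnitAddCircle) :
    ‖expSum s f γ‖ ^ 2 ≤ m.totient * ∑ x ∈ ordSet m, ‖expSum s f (γ + x)‖ ^ 2 := by
  classical
  induction m using Nat.strong_induction_on generalizing γ with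
  | _ m ih =>
    have hm0 : m ≠ 0 := hm.ne_zero
    rcases eq_or_ne m 1 with rfl | hm1
    · have : ordSet 1 = {0} := by
        ext x
        rw [mem_ordSet, mem_singleton, AddMonoid.addOrderOf_eq_one_iff]
        simp
      rw [this]; simp
    · set p := m.minFac with hp
      have hpp : p.Prime := Nat.minFac_prime hm1
      obtain ⟨m', hm'⟩ := Nat.minFac_dvd m
      rw [← hp] at hm'
      have hcop : p.Coprime m' := by
        rw [hm'] at hm
        exact Nat.coprime_of_squarefree_mul hm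
      have hm'0 : 0 < m' := Nat.pos_of_ne_zero (by rintro rfl; simp at hm'; exact hm0 hm')
      have hlt : m' < m := by
        rw [hm']
        exact (Nat.lt_mul_iff_one_lt_left hm'0).2 hpp.one_lt
      have hsq : Squarefree m' := by
        rw [hm'] at hm
        exact hm.of_mul_right
      have h1 := ih m' hlt hsq (fun q hq hqm => hf q hq (hqm.trans ⟨p, by rw [mul_comm]; exact hm'⟩)) γ
      obtain ⟨h, hh⟩ := hf p hpp (Nat.minFac_dvd m)
      have h2 : ∀ y ∈ ordSet m', ‖expSum s f (γ + y)‖ ^ 2 ≤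
          p.totient * ∑ x ∈ ordSet p, ‖expSum s f (γ + y + x)‖ ^ 2 :=
        fun y _ => mont_prime hpp s f h hh (γ + y)
      have h3 : ∑ y ∈ ordSet m', ∑ x ∈ ordSet p, ‖expSum s f (γ + y + x)‖ ^ 2 ≤
          ∑ z ∈ ordSet m, ‖expSum s f (γ + z)‖ ^ 2 := by
        rw [← sum_product' (f := fun y x => ‖expSum s f (γ + y + x)‖ ^ 2)]
        have : ∑ q ∈ ordSet m' ×ˢ ordSet p, ‖expSum s f (γ + q.1 + q.2)‖ ^ 2 =
            ∑ z ∈ (ordSet m' ×ˢ ordSet p).image (fun q => q.1 + q.2),
              ‖expSum s f (γ + z)‖ ^ 2 := by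
          rw [sum_image]
          · refine sum_congr rfl fun q _ => ?_
            rw [add_assoc]
          · rintro ⟨y, x⟩ hq ⟨y', x'⟩ hq' heq
            simp only [coe_product, Set.mem_prod, mem_coe, mem_ordSet] at hq hq'
            simp only at heq
            have e1 : y - y' = x' - x := by
              rw [sub_eq_sub_iff_add_eq_add, heq]; abel
            have e2 : m' • (y - y') = 0 := by
              rw [smul_sub]
              have a1 : m' • y = 0 := by rw [← hq.1.2]; exact addOrderOf_nsmul_eq_zero y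
              have a2 : m' • y' = 0 := by rw [← hq'.1.2]; exact addOrderOf_nsmul_eq_zero y'
              rw [a1, a2, sub_zero]
            have e3 : p • (y - y') = 0 := by
              rw [e1, smul_sub]
              have a1 : p • x = 0 := by
                nth_rewrite 1 [← hq.2.2]; exact addOrderOf_nsmul_eq_zero x
              have a2 : p • x' = 0 := by
                nth_rewrite 1 [← hq'.2.2]; exact addOrderOf_nsmul_eq_zero x'
              rw [a1, a2, sub_zero]
            have e4 : addOrderOf (y - y') = 1 :=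
              Nat.eq_one_of_dvd_coprimes hcop (addOrderOf_dvd_of_nsmul_eq_zero e3)
                (addOrderOf_dvd_of_nsmul_eq_zero e2)
            have e5 : y - y' = 0 := AddMonoid.addOrderOf_eq_one_iff.1 e4
            have e6 : x' - x = 0 := by rw [← e1, e5]
            rw [sub_eq_zero] at e5 e6
            simp [e5, e6]
        rw [this]
        refine sum_le_sum_of_subset_of_nonneg ?_ (fun _ _ _ => by positivity)
        intro z hz
        simp only [mem_image, mem_product, mem_ordSet, Prod.exists] at hz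
        obtain ⟨y, x, ⟨⟨_, hy⟩, ⟨_, hx⟩⟩, rfl⟩ := hz
        rw [mem_ordSet]
        refine ⟨Nat.pos_of_ne_zero hm0, ?_⟩
        rw [(AddCommute.all y x).addOrderOf_add_eq_mul_addOrderOf_of_coprime
          (by rw [hx, hy]; exact hcop.symm), hx, hy, mul_comm]
        exact hm'.symm
      have htot : (m.totient : ℝ) = m'.totient * p.totient := by
        rw [hm', Nat.totient_mul hcop]; push_cast; ring
      calc ‖expSum s f γ‖ ^ 2 ≤ m'.totient * ∑ y ∈ ordSet m', ‖expSum s f (γ + y)‖ ^ 2 := h1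
        _ ≤ m'.totient * ∑ y ∈ ordSet m', (p.totient * ∑ x ∈ ordSet p,
              ‖expSum s f (γ + y + x)‖ ^ 2) := by gcongr with y hy; exact h2 y hy
        _ = m.totient * ∑ y ∈ ordSet m', ∑ x ∈ ordSet p, ‖expSum s f (γ + y + x)‖ ^ 2 := by
              rw [← mul_sum, htot]; ring
        _ ≤ _ := by gcongr

/-- Squarefree numbers in `[1, M]` with no prime factor in `B`. -/
def sieveSet (B : Finset ℕ) (M : ℕ) : Finset ℕ :=
  {m ∈ Icc 1 M | Squarefree m ∧ ∀ p ∈ B, ¬ p ∣ m}

/-- The sieve sum `∑ 1/φ(m)` over `sieveSet B M`. -/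
noncomputable def G (B : Finset ℕ) (M : ℕ) : ℝ := ∑ m ∈ sieveSet B M, (m.totient : ℝ)⁻¹

lemma mem_sieveSet {B : Finset ℕ} {M m : ℕ} :
    m ∈ sieveSet B M ↔ (1 ≤ m ∧ m ≤ M) ∧ Squarefree m ∧ ∀ p ∈ B, ¬ p ∣ m := by
  simp [sieveSet]

/-- **Large sieve for sifted sequences.** The points are `α i + β i` with `α i` of finite order
at most `Q` composed of primes of `B`, and `β i` small; `f` avoids one residue class
modulo every prime `p ≤ M` outside `B`. -/
theorem sifted_large_sieve {ι : Type*} (S : Finset ι) (α β : ι → UnitAddCircle)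
    (H R M Q : ℕ) (Δ : ℝ) (B : Finset ℕ) (hH : 0 < H)
    (hα : ∀ i ∈ S, 0 < addOrderOf (α i)) (hαQ : ∀ i ∈ S, addOrderOf (α i) ≤ Q)
    (hB : ∀ i ∈ S, ∀ p : ℕ, p.Prime → p ∣ addOrderOf (α i) → p ∈ B)
    (hβ : ∀ i ∈ S, ‖β i‖ ≤ Δ)
    (hM : ((Q : ℝ) * M) ^ 2 * (1 / H + 2 * Δ) < 1)
    (hR : ∀ i ∈ S, #{j ∈ S | ‖(α j + β j) - (α i + β i)‖ < 1 / (H : ℝ)} ≤ R)
    (A : ℤ) (s : Finset ℤ) (hs : s ⊆ Ico A (A + H)) (f : ℤ → ℂ)
    (hf : ∀ p : ℕ, p.Prime → p ≤ M → p ∉ B → ∃ h : ℤ, ∀ n ∈ s, f n ≠ 0 → ¬ n ≡ h [ZMOD p]) :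
    G B M * ∑ i ∈ S, ‖expSum s f (α i + β i)‖ ^ 2 ≤ 9 * R * H * ∑ n ∈ s, ‖f n‖ ^ 2 := by
  classical
  have hH' : (0 : ℝ) < H := by exact_mod_cast hH
  set X : Finset UnitAddCircle := (sieveSet B M).biUnion ordSet with hX
  have hXmem : ∀ x, x ∈ X ↔ addOrderOf x ∈ sieveSet B M := by
    intro x
    rw [hX, mem_biUnion]
    constructor
    · rintro ⟨m, hm, hx⟩
      rw [mem_ordSet] at hx
      rw [hx.2]; exact hm
    · intro h
      exact ⟨_, h, mem_ordSet.2 ⟨by have := (mem_sieveSet.1 h).1.1; omega, rfl⟩⟩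
  have hdisj : ∀ m ∈ sieveSet B M, ∀ m' ∈ sieveSet B M, m ≠ m' →
      Disjoint (ordSet m) (ordSet m') := by
    intro m _ m' _ hne
    rw [Finset.disjoint_left]
    intro x h1 h2
    rw [mem_ordSet] at h1 h2
    exact hne (h1.2.symm.trans h2.2)
  -- lower bound by Montgomery
  have hlow : ∀ i ∈ S, G B M * ‖expSum s f (α i + β i)‖ ^ 2 ≤
      ∑ x ∈ X, ‖expSum s f (α i + β i + x)‖ ^ 2 := by
    intro i _
    rw [hX, sum_biUnion hdisj, G, sum_mul]
    refine sum_le_sum fun m hm => ?_
    rw [mem_sieveSet] at hm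
    have h1 := mont s f m hm.2.1 (fun p hp hpm => hf p hp
      ((Nat.le_of_dvd (by omega) hpm).trans hm.1.2)
      (fun hpB => hm.2.2 p hpB hpm)) (α i + β i)
    have h2 : (0 : ℝ) < m.totient := by
      exact_mod_cast Nat.totient_pos.2 (by omega)
    rw [inv_mul_le_iff₀ h2]
    exact h1
  -- upper bound by the large sieve
  have hup : ∑ q ∈ S ×ˢ X, ‖expSum s f (α q.1 + β q.1 + q.2)‖ ^ 2 ≤
      9 * R * H * ∑ n ∈ s, ‖f n‖ ^ 2 := by
    refine large_sieve (S ×ˢ X) (fun q => α q.1 + β q.1 + q.2) H R hH ?_ A s hs f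
    rintro ⟨i, x⟩ hix
    rw [mem_product] at hix
    simp only at hix ⊢
    refine le_trans ?_ (hR i hix.1)
    refine card_le_card_of_injOn Prod.fst ?_ ?_
    all_goals
      have key : ∀ q ∈ (S ×ˢ X).filter
          (fun q => ‖α q.1 + β q.1 + q.2 - (α i + β i + x)‖ < 1 / (H : ℝ)), q.2 = x := by
        rintro ⟨j, y⟩ hq
        rw [mem_filter, mem_product] at hq
        obtain ⟨⟨hj, hy⟩, hlt⟩ := hq
        simp only at hj hy hlt ⊢
        have hyX := mem_sieveSet.1 ((hXmem y).1 hy)
        have hxX := mem_sieveSet.1 ((hXmem x).1 hix.2)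
        set u : UnitAddCircle := (α j - α i) + (y - x) with hu
        have hu1 : ‖u‖ < 1 / H + 2 * Δ := by
          have : u = (α j + β j + y - (α i + β i + x)) - (β j - β i) := by rw [hu]; abel
          rw [this]
          calc ‖(α j + β j + y - (α i + β i + x)) - (β j - β i)‖
              ≤ ‖α j + β j + y - (α i + β i + x)‖ + ‖β j - β i‖ := norm_sub_le _ _
            _ ≤ ‖α j + β j + y - (α i + β i + x)‖ + (‖β j‖ + ‖β i‖) := by
                gcongr; exact norm_sub_le _ _
            _ < 1 / H + 2 * Δ := by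
                have := hβ i hix.1
                have := hβ j hj
                linarith
        have hu0 : u = 0 := by
          by_contra hne
          have hn : (addOrderOf (α j) * addOrderOf (α i) * (addOrderOf y * addOrderOf x)) • u
              = 0 := by
            rw [hu, smul_add, smul_sub, smul_sub]
            have a1 : (addOrderOf (α j) * addOrderOf (α i) * (addOrderOf y * addOrderOf x)) • α j
              = 0 := addOrderOf_dvd_iff_nsmul_eq_zero.1 ⟨addOrderOf (α i) *
                (addOrderOf y * addOrderOf x), by ring⟩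
            have a2 : (addOrderOf (α j) * addOrderOf (α i) * (addOrderOf y * addOrderOf x)) • α i
              = 0 := addOrderOf_dvd_iff_nsmul_eq_zero.1 ⟨addOrderOf (α j) *
                (addOrderOf y * addOrderOf x), by ring⟩
            have a3 : (addOrderOf (α j) * addOrderOf (α i) * (addOrderOf y * addOrderOf x)) • y
              = 0 := addOrderOf_dvd_iff_nsmul_eq_zero.1 ⟨addOrderOf (α j) * addOrderOf (α i) *
                (addOrderOf x), by ring⟩
            have a4 : (addOrderOf (α j) * addOrderOf (α i) * (addOrderOf y * addOrderOf x)) • x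
              = 0 := addOrderOf_dvd_iff_nsmul_eq_zero.1 ⟨addOrderOf (α j) * addOrderOf (α i) *
                (addOrderOf y), by ring⟩
            rw [a1, a2, a3, a4]; simp
          have hpos : 0 < addOrderOf (α j) * addOrderOf (α i) * (addOrderOf y * addOrderOf x) :=
            Nat.mul_pos (Nat.mul_pos (hα j hj) (hα i hix.1)) (Nat.mul_pos hyX.1.1 hxX.1.1)
          have h1 := norm_ge_of_nsmul_eq_zero hpos hn hne
          have h2 : ((addOrderOf (α j) * addOrderOf (α i) * (addOrderOf y * addOrderOf x) : ℕ) : ℝ)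
              ≤ ((Q : ℝ) * M) ^ 2 := by
            have : addOrderOf (α j) * addOrderOf (α i) * (addOrderOf y * addOrderOf x) ≤
                (Q * Q) * (M * M) :=
              Nat.mul_le_mul (Nat.mul_le_mul (hαQ j hj) (hαQ i hix.1))
                (Nat.mul_le_mul hyX.1.2 hxX.1.2)
            calc ((addOrderOf (α j) * addOrderOf (α i) * (addOrderOf y * addOrderOf x) : ℕ) : ℝ)
                ≤ (((Q * Q) * (M * M) : ℕ) : ℝ) := by exact_mod_cast this
              _ = _ := by push_cast; ring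
          have h3 : (1 : ℝ) ≤ ((Q : ℝ) * M) ^ 2 * ‖u‖ := h1.trans (by gcongr)
          have h4 : ((Q : ℝ) * M) ^ 2 * ‖u‖ ≤ ((Q : ℝ) * M) ^ 2 * (1 / H + 2 * Δ) := by gcongr
          linarith
        have e1 : α j - α i = x - y := by
          rw [hu] at hu0
          rw [eq_neg_of_add_eq_zero_left hu0]; abel
        have d1 : addOrderOf (y - x) ∣ addOrderOf (α j) * addOrderOf (α i) := by
          apply addOrderOf_dvd_of_nsmul_eq_zero
          rw [← neg_sub, ← e1, smul_neg, smul_sub]
          have a1 : (addOrderOf (α j) * addOrderOf (α i)) • α j = 0 :=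
            addOrderOf_dvd_iff_nsmul_eq_zero.1 ⟨addOrderOf (α i), by ring⟩
          have a2 : (addOrderOf (α j) * addOrderOf (α i)) • α i = 0 :=
            addOrderOf_dvd_iff_nsmul_eq_zero.1 ⟨addOrderOf (α j), by ring⟩
          rw [a1, a2]; simp
        have d2 : addOrderOf (y - x) ∣ addOrderOf y * addOrderOf x := by
          apply addOrderOf_dvd_of_nsmul_eq_zero
          rw [smul_sub]
          have a1 : (addOrderOf y * addOrderOf x) • y = 0 :=
            addOrderOf_dvd_iff_nsmul_eq_zero.1 ⟨addOrderOf x, by ring⟩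
          have a2 : (addOrderOf y * addOrderOf x) • x = 0 :=
            addOrderOf_dvd_iff_nsmul_eq_zero.1 ⟨addOrderOf y, by ring⟩
          rw [a1, a2]; simp
        have hord : addOrderOf (y - x) = 1 := by
          by_contra hne
          obtain ⟨p, hp, hpd⟩ := Nat.exists_prime_and_dvd hne
          have h5 : p ∈ B := by
            rcases hp.dvd_mul.1 (hpd.trans d1) with h | h
            · exact hB j hj p hp h
            · exact hB i hix.1 p hp h
          rcases hp.dvd_mul.1 (hpd.trans d2) with h | h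
          · exact hyX.2.2 p h5 h
          · exact hxX.2.2 p h5 h
        exact sub_eq_zero.1 (AddMonoid.addOrderOf_eq_one_iff.1 hord)
    · intro q hq
      have hq' := hq
      rw [coe_filter, Set.mem_ofPred_eq, mem_product] at hq'
      have hqx := key q hq
      simp only [coe_filter, Set.mem_ofPred_eq]
      refine ⟨hq'.1.1, ?_⟩
      have := hq'.2
      rw [hqx] at this
      rwa [add_sub_add_right_eq_sub] at this
    · intro q hq q' hq' h
      have h1 := key q hq
      have h2 := key q' hq'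
      exact Prod.ext h (h1.trans h2.symm)
  rw [sum_product] at hup
  refine le_trans ?_ hup
  rw [mul_sum]
  exact sum_le_sum hlow

end LSieve
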