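import Pool.Agent.LibLargeSieve.MainTerm2

/-!
# The singular series and limits
-/

namespace LSieve

open Finset Filter Topology

/-- `g(p)` -/
noncomputable def gp (d p : ℕ) : ℝ := if p = d then 0 else if p = 2 then 1 / 2 else 1 / ((p : ℝ) - 1)

lemma totient_two_eA (A : Finset ℕ) (hA : ∀ p ∈ A, p.Prime) :
    (2 * eA A).totient = ∏ p ∈ A, (if p = 2 then 2 else p - 1) := by
  classical
  induction A using Finset.induction_on with
  | empty => simp [eA]
  | insert a s ha ih =>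
    have hs : ∀ p ∈ s, p.Prime := fun p hp => hA p (mem_insert_of_mem hp)
    have hap := hA a (mem_insert_self _ _)
    have h1 : 2 * eA (insert a s) = a * (2 * eA s) := by
      unfold eA; rw [prod_insert ha]; ring
    rw [h1, prod_insert ha, ← ih hs]
    by_cases h2 : a = 2
    · rw [if_pos h2, Nat.totient_mul_of_prime_of_dvd hap, h2]
      rw [h2]; exact Dvd.intro _ rfl
    · rw [if_neg h2, Nat.totient_mul_of_prime_of_not_dvd hap]
      intro hd
      rcases hap.dvd_mul.1 hd with h3 | h3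
      · exact h2 ((Nat.prime_dvd_prime_iff_eq hap Nat.prime_two).1 h3)
      · unfold eA at h3
        obtain ⟨p, hp, hpd⟩ := (hap.prime.dvd_finsetProd_iff _).1 h3
        have := (Nat.prime_dvd_prime_iff_eq hap (hs p hp)).1 hpd
        rw [this] at ha
        exact ha hp

lemma prod_gp (d : ℕ) (A : Finset ℕ) (hA : ∀ p ∈ A, p.Prime) :
    ∏ p ∈ A, gp d p = if d ∈ A then 0 else 1 / ((2 * eA A).totient : ℝ) := by
  split_ifs with h
  · exact prod_eq_zero h (by simp [gp])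
  · rw [totient_two_eA A hA]
    push_cast
    rw [one_div, ← prod_inv_distrib]
    refine prod_congr rfl fun p hp => ?_
    unfold gp
    rw [if_neg (by rintro rfl; exact h hp)]
    by_cases h2 : p = 2
    · rw [if_pos h2, if_pos h2]; norm_num
    · rw [if_neg h2, if_neg h2, Nat.cast_sub (hA p hp).one_le]; simp

lemma sum_powerset_gp (d : ℕ) (S : Finset ℕ) :
    ∑ A ∈ S.powerset, (-1 : ℝ) ^ #A * ∏ p ∈ A, gp d p = ∏ p ∈ S, (1 - gp d p) := by
  classical
  have h1 : ∏ p ∈ S, (1 - gp d p) = ∏ p ∈ S, ((- gp d p) + 1) :=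
    prod_congr rfl fun p _ => by ring
  rw [h1, prod_add]
  refine sum_congr rfl fun A _ => ?_
  rw [prod_const_one, mul_one, prod_neg]

lemma one_sub_sum_le_prod (S : Finset ℕ) (x : ℕ → ℝ) (h0 : ∀ p ∈ S, 0 ≤ x p)
    (h1 : ∀ p ∈ S, x p ≤ 1) : 1 - ∑ p ∈ S, x p ≤ ∏ p ∈ S, (1 - x p) := by
  classical
  induction S using Finset.induction_on with
  | empty => simp
  | insert a s ha ih =>
    rw [sum_insert ha, prod_insert ha]
    have h2 := ih (fun p hp => h0 p (mem_insert_of_mem hp)) (fun p hp => h1 p (mem_insert_of_mem hp))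
    have h3 := h0 a (mem_insert_self _ _)
    have h4 := h1 a (mem_insert_self _ _)
    have h5 : 0 ≤ ∑ p ∈ s, x p := sum_nonneg fun p hp => h0 p (mem_insert_of_mem hp)
    nlinarith

/-- Lower bound for the singular series. -/
lemma singular_ge (d w : ℕ) (hd2 : d ≠ 2) :
    1 / 2 ≤ V (primesTo w) * ∑ A ∈ (primesTo w).powerset, (-1 : ℝ) ^ #A * ∏ p ∈ A, gp d p := by
  classical
  rw [sum_powerset_gp]
  unfold V
  rw [← prod_mul_distrib]
  set x : ℕ → ℝ := fun p => if p = 2 then 0 else (((p : ℝ) - 1) ^ 2)⁻¹ with hx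
  have hp2 : ∀ p ∈ primesTo w, (2 : ℝ) ≤ p := fun p hp => by
    exact_mod_cast (mem_primesTo.1 hp).2.two_le
  have hp3 : ∀ p ∈ primesTo w, p ≠ 2 → (3 : ℝ) ≤ p := fun p hp h => by
    have := (mem_primesTo.1 hp).2.two_le
    have : 3 ≤ p := by omega
    exact_mod_cast this
  have hx0 : ∀ p ∈ primesTo w, 0 ≤ x p := by
    intro p _; rw [hx]; simp only; split_ifs <;> positivity
  have hx1 : ∀ p ∈ primesTo w, x p ≤ 1 := by
    intro p hp; rw [hx]; simp only
    split_ifs with h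
    · norm_num
    · have := hp3 p hp h
      apply inv_le_one_of_one_le₀
      nlinarith
  have hsum : ∑ p ∈ primesTo w, x p ≤ 1 / 2 := by
    have h1 : ∑ p ∈ primesTo w, x p = ∑ p ∈ primesTo w with p ≠ 2, (((p : ℝ) - 1) ^ 2)⁻¹ := by
      rw [sum_filter]
      refine sum_congr rfl fun p _ => ?_
      rw [hx]; simp only
      by_cases h : p = 2 <;> simp [h]
    rw [h1]
    have hodd : ∀ p ∈ (primesTo w).filter (fun p => p ≠ 2), p = 2 * ((p - 1) / 2) + 1 := by
      intro p hp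
      rw [mem_filter, mem_primesTo] at hp
      have := hp.1.2.eq_two_or_odd
      omega
    calc ∑ p ∈ primesTo w with p ≠ 2, (((p : ℝ) - 1) ^ 2)⁻¹
        = ∑ p ∈ primesTo w with p ≠ 2, (1 / 4) * ((((p - 1) / 2 : ℕ) : ℝ) ^ 2)⁻¹ := by
          refine sum_congr rfl fun p hp => ?_
          have h2 : (p : ℝ) = 2 * (((p - 1) / 2 : ℕ) : ℝ) + 1 := by
            exact_mod_cast hodd p hp
          rw [h2, add_sub_cancel_right, mul_pow, mul_inv]
          norm_num
      _ = ∑ k ∈ ((primesTo w).filter (fun p => p ≠ 2)).image (fun p : ℕ => ((p - 1) / 2 : ℕ)),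
            (1 / 4) * (((k : ℕ) : ℝ) ^ 2)⁻¹ := by
          rw [sum_image]
          intro a ha b hb hab
          rw [hodd a ha, hodd b hb]
          have hab' : (a - 1) / 2 = (b - 1) / 2 := hab
          rw [hab']
      _ ≤ ∑ k ∈ Ioo 0 (w + 1), (1 / 4) * (((k : ℕ) : ℝ) ^ 2)⁻¹ := by
          refine sum_le_sum_of_subset_of_nonneg ?_ (fun _ _ _ => by positivity)
          intro k hk
          rw [mem_image] at hk
          obtain ⟨p, hp, rfl⟩ := hk
          have h3 := hodd p hp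
          rw [mem_filter, mem_primesTo] at hp
          have := hp.1.2.two_le
          rw [mem_Ioo]
          constructor
          · have := hp.2; omega
          · have := hp.1.1; omega
      _ = (1 / 4) * ∑ k ∈ Ioo 0 (w + 1), (((k : ℕ) : ℝ) ^ 2)⁻¹ := by rw [mul_sum]
      _ ≤ (1 / 4) * (2 / ((0 : ℕ) + 1)) := by
          have := sum_Ioo_inv_sq_le (α := ℝ) 0 (w + 1)
          gcongr
      _ = 1 / 2 := by norm_num
  calc (1 : ℝ) / 2 ≤ 1 - ∑ p ∈ primesTo w, x p := by linarith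
    _ ≤ ∏ p ∈ primesTo w, (1 - x p) := one_sub_sum_le_prod _ _ hx0 hx1
    _ ≤ _ := by
        refine prod_le_prod (fun p hp => by linarith [hx1 p hp]) fun p hp => ?_
        have h2 := hp2 p hp
        have h1 : (p : ℝ) - 1 ≠ 0 := by linarith
        rw [hx]; simp only
        unfold gp
        by_cases hpd : p = d
        · rw [if_pos hpd, if_neg (by rw [hpd]; exact hd2), sub_zero, mul_one]
          have h3 : 0 ≤ (((p : ℝ) - 1) ^ 2)⁻¹ := by positivity
          have := one_le_factor (mem_primesTo.1 hp).2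
          linarith
        · rw [if_neg hpd]
          by_cases hp2' : p = 2
          · rw [if_pos hp2', if_pos hp2', hp2']; norm_num
          · rw [if_neg hp2', if_neg hp2']
            apply le_of_eq
            field_simp
            ring

/-- Primes `≡ b mod d` in `(N, 2N]`, `N = 4 n^32`. -/
def PP (d b n : ℕ) : Finset ℕ := {p ∈ Ioc (4 * n ^ 32) (2 * (4 * n ^ 32)) | p.Prime ∧ p ≡ b [MOD d]}

/-- Primes `≡ b mod d` in `(3N, 4N]`, `N = 4 n^32`. -/
def PQ (d b n : ℕ) : Finset ℕ :=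
  {p ∈ Ioc (3 * (4 * n ^ 32)) (4 * (4 * n ^ 32)) | p.Prime ∧ p ≡ b [MOD d]}

lemma pow_aux (n : ℕ) (hn : 1 ≤ n) : n ^ 9 ≤ 4 * n ^ 32 := by
  have : n ^ 9 ≤ n ^ 32 := Nat.pow_le_pow_right hn (by norm_num)
  omega

lemma good_PP (d b n : ℕ) (hn : 1 ≤ n) : Good n (PP d b n) := by
  refine ⟨⟨4 * n ^ 32 + 1, ?_⟩, ?_, ?_, ?_⟩
  · intro p hp
    have := mem_Ioc.1 (mem_filter.1 hp).1
    rw [mem_Ico]; omega
  · intro p hp; exact (mem_filter.1 hp).2.1
  · intro p hp
    have := mem_Ioc.1 (mem_filter.1 hp).1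
    have := pow_aux n hn
    omega
  · intro p hp
    have := mem_Ioc.1 (mem_filter.1 hp).1
    rw [mem_primesTo]
    exact ⟨by omega, (mem_filter.1 hp).2.1⟩

lemma good_PQ (d b n : ℕ) (hn : 1 ≤ n) : Good n (PQ d b n) := by
  refine ⟨⟨3 * (4 * n ^ 32) + 1, ?_⟩, ?_, ?_, ?_⟩
  · intro p hp
    have := mem_Ioc.1 (mem_filter.1 hp).1
    rw [mem_Ico]; omega
  · intro p hp; exact (mem_filter.1 hp).2.1
  · intro p hp
    have := mem_Ioc.1 (mem_filter.1 hp).1
    have := pow_aux n hn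
    omega
  · intro p hp
    have := mem_Ioc.1 (mem_filter.1 hp).1
    rw [mem_primesTo]
    exact ⟨by omega, (mem_filter.1 hp).2.1⟩

/-- PNT in progressions on intervals `(uN, vN]`. -/
lemma interval_tendsto (m c : ℕ) (hm : 0 < m) (hc : c.Coprime m) (u v : ℕ) (hu : 0 < u)
    (huv : u ≤ v) :
    Tendsto (fun N : ℕ => (∑ p ∈ Ioc (u * N) (v * N) with p.Prime ∧ p ≡ c [MOD m], Real.log p) /
      (N : ℝ)) atTop (𝓝 (((v : ℝ) - u) * (m.totient : ℝ)⁻¹)) := by
  have : NeZero m := ⟨hm.ne'⟩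
  have hunit : IsUnit (c : ZMod m) := (ZMod.isUnit_iff_coprime c m).2 hc
  have h1 := Pool.Agent.LibPNT.thetaAP_tendsto hunit
  have h2 : ∀ k : ℕ, 0 < k → Tendsto (fun N : ℕ =>
      Pool.Agent.LibPNT.thetaAP (c : ZMod m) ((k * N : ℕ) : ℝ) / (N : ℝ)) atTop
      (𝓝 ((k : ℝ) * (m.totient : ℝ)⁻¹)) := by
    intro k hk
    have hk' : (0 : ℝ) < k := by exact_mod_cast hk
    have h3 : Tendsto (fun N : ℕ => ((k * N : ℕ) : ℝ)) atTop atTop :=
      tendsto_natCast_atTop_atTop.comp (tendsto_id.const_mul_atTop' hk)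
    have h4 := (h1.comp h3).const_mul (k : ℝ)
    refine h4.congr fun N => ?_
    simp only [Function.comp_apply]
    push_cast
    by_cases hN : (N : ℝ) = 0
    · simp [hN]
    · field_simp
  have hv : 0 < v := by omega
  have h5 := (h2 v hv).sub (h2 u hu)
  have h6 : (v : ℝ) * (m.totient : ℝ)⁻¹ - (u : ℝ) * (m.totient : ℝ)⁻¹ =
    ((v : ℝ) - u) * (m.totient : ℝ)⁻¹ := by ring
  rw [h6] at h5
  refine h5.congr fun N => ?_
  rw [← sub_div]
  congr 1
  unfold Pool.Agent.LibPNT.thetaAP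
  rw [Nat.floor_natCast, Nat.floor_natCast, sub_eq_iff_eq_add]
  have h7 : u * N ≤ v * N := Nat.mul_le_mul_right _ huv
  rw [← sum_union]
  · refine sum_congr ?_ fun _ _ => rfl
    ext p
    simp only [mem_filter, mem_Icc, mem_Ioc, mem_union]
    rw [ZMod.natCast_eq_natCast_iff]
    constructor
    · rintro ⟨⟨h8, h9⟩, h10, h11⟩
      by_cases h12 : p ≤ u * N
      · right; exact ⟨⟨h8, h12⟩, h10, h11⟩
      · left; exact ⟨⟨by omega, h9⟩, h10, h11⟩
    · rintro (⟨⟨h8, h9⟩, h10, h11⟩ | ⟨⟨h8, h9⟩, h10, h11⟩)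
      · exact ⟨⟨by omega, h9⟩, h10, h11⟩
      · exact ⟨⟨h8, by omega⟩, h10, h11⟩
  · rw [Finset.disjoint_left]
    intro p h8 h9
    simp only [mem_filter, mem_Icc, mem_Ioc] at h8 h9
    omega

lemma N_tendsto : Tendsto (fun n : ℕ => 4 * n ^ 32) atTop atTop :=
  (tendsto_pow_atTop (by norm_num)).const_mul_atTop' (by norm_num)

/-- Limits for one residue class, coprime case. -/
lemma class_tendsto (d b m ρ u v : ℕ) (hdm : d.Coprime m) (hd : 0 < d) (hm : 0 < m)
    (hb : b.Coprime d) (hρ : ρ.Coprime m) (hρm : ρ < m) (hu : 0 < u) (huv : u ≤ v) :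
    Tendsto (fun n : ℕ => th (cls {p ∈ Ioc (u * (4 * n ^ 32)) (v * (4 * n ^ 32)) |
      p.Prime ∧ p ≡ b [MOD d]} m ρ) / ((4 * n ^ 32 : ℕ) : ℝ)) atTop
      (𝓝 (((v : ℝ) - u) * ((d.totient * m.totient : ℕ) : ℝ)⁻¹)) := by
  set c := (Nat.chineseRemainder hdm b ρ : ℕ) with hc
  have hcb : c ≡ b [MOD d] := (Nat.chineseRemainder hdm b ρ).2.1
  have hcρ : c ≡ ρ [MOD m] := (Nat.chineseRemainder hdm b ρ).2.2
  have hcop : c.Coprime (d * m) := by
    apply Nat.Coprime.mul_right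
    · have := hcb.gcd_eq
      unfold Nat.Coprime
      rw [this]; exact hb
    · have := hcρ.gcd_eq
      unfold Nat.Coprime
      rw [this]; exact hρ
  have h1 := (interval_tendsto (d * m) c (Nat.mul_pos hd hm) hcop u v hu huv).comp N_tendsto
  rw [Nat.totient_mul hdm] at h1
  refine h1.congr fun n => ?_
  simp only [Function.comp_apply]
  congr 1
  unfold th cls
  refine sum_congr ?_ fun _ _ => rfl
  ext p
  simp only [mem_filter, mem_Ioc]
  have h2 : p ≡ c [MOD d * m] ↔ p ≡ b [MOD d] ∧ p % m = ρ := by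
    rw [← Nat.modEq_and_modEq_iff_modEq_mul hdm]
    have h3 : p ≡ c [MOD d] ↔ p ≡ b [MOD d] := ⟨fun h => h.trans hcb, fun h => h.trans hcb.symm⟩
    have h4 : p ≡ c [MOD m] ↔ p % m = ρ := by
      rw [← modEq_iff_mod hρm]
      exact ⟨fun h => h.trans hcρ, fun h => h.trans hcρ.symm⟩
    rw [h3, h4]
  rw [h2]
  tauto

lemma class_zero (m ρ : ℕ) (hm : 0 < m) (hρ : ¬ ρ.Coprime m) (n : ℕ) (hn : m ≤ 4 * n ^ 32)
    (P : Finset ℕ) (hP : ∀ p ∈ P, p.Prime ∧ 4 * n ^ 32 < p) : th (cls P m ρ) = 0 := by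
  unfold th cls
  rw [sum_eq_zero]
  intro p hp
  exfalso
  rw [mem_filter] at hp
  obtain ⟨h1, h2⟩ := hP p hp.1
  have h3 : ¬ p.Coprime m := by
    have : p.gcd m = ρ.gcd m := by
      rw [← hp.2, Nat.gcd_comm, Nat.gcd_rec]
    unfold Nat.Coprime at hρ ⊢
    rw [this]; exact hρ
  rw [h1.coprime_iff_not_dvd, not_not] at h3
  have := Nat.le_of_dvd hm h3
  omega

end LSieve
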