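import Pool.Agent.LibLargeSieve.Arcs
import Pool.Agent.LibLargeSieve.Abel
import Pool.Agent.LibPNT.PNT

/-!
# Small denominators: comparison of primes with their periodic model
-/

namespace LSieve

open Finset Filter Topology

/-- The weight `log t` on primes minus its periodic model `(W/φ(W)) 1_{(t,W)=1}`. -/
noncomputable def kw (W : ℕ) (t : ℕ) : ℝ :=
  (if t.Prime then Real.log t else 0) - (if t.Coprime W then (W : ℝ) / W.totient else 0)

/-- Counting integers in a residue class. -/
lemma count_class (W ρ x : ℕ) (hW : 0 < W) :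
    |(#{t ∈ Icc 1 x | t ≡ ρ [MOD W]} : ℝ) - x / W| ≤ 1 := by
  have hW' : (0 : ℝ) < W := by exact_mod_cast hW
  have h1 : #{t ∈ Icc 1 x | t ≡ ρ [MOD W]} = #{t ∈ Ioc 0 x | t ≡ ρ [MOD W]} := by
    congr 1
  rw [h1]
  have h2 := Nat.Ioc_filter_modEq_card 0 x hW ρ
  have hWq : (0 : ℚ) < W := by exact_mod_cast hW
  set a : ℚ := ((x : ℚ) - ρ) / W with ha
  set b : ℚ := (((0 : ℕ) : ℚ) - ρ) / W with hb
  have hab : b ≤ a := by
    rw [ha, hb]
    apply div_le_div_of_nonneg_right _ hWq.le
    push_cast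
    linarith [Nat.cast_nonneg (α := ℚ) x]
  have h3 : max (⌊a⌋ - ⌊b⌋) 0 = ⌊a⌋ - ⌊b⌋ := by
    apply max_eq_left
    have := Int.floor_mono hab
    omega
  rw [h3] at h2
  have h4 : (#{t ∈ Ioc 0 x | t ≡ ρ [MOD W]} : ℚ) = ⌊a⌋ - ⌊b⌋ := by exact_mod_cast h2
  have e1 := Int.floor_le a
  have e2 := Int.lt_floor_add_one a
  have e3 := Int.floor_le b
  have e4 := Int.lt_floor_add_one b
  have h5 : a - b = (x : ℚ) / W := by rw [ha, hb]; push_cast; ring
  have h6 : |(#{t ∈ Ioc 0 x | t ≡ ρ [MOD W]} : ℚ) - x / W| ≤ 1 := by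
    rw [h4, ← h5, abs_le]
    constructor <;> linarith
  have h7 : ((|(#{t ∈ Ioc 0 x | t ≡ ρ [MOD W]} : ℚ) - x / W| : ℚ) : ℝ) ≤ ((1 : ℚ) : ℝ) := by
    exact_mod_cast h6
  push_cast at h7
  exact h7

lemma modEq_iff_mod {t ρ W : ℕ} (hρ : ρ < W) : t ≡ ρ [MOD W] ↔ t % W = ρ := by
  unfold Nat.ModEq
  rw [Nat.mod_eq_of_lt hρ]

/-- Cumulative sums of `kw` over a residue class are `o(x)`. -/
lemma kw_class_tendsto (W : ℕ) (hW : 0 < W) (ρ : ℕ) (hρ : ρ < W) :
    Tendsto (fun x : ℕ => (∑ t ∈ Icc 1 x, if t % W = ρ then kw W t else 0) / (x : ℝ)) atTop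
      (𝓝 0) := by
  have hW' : (0 : ℝ) < W := by exact_mod_cast hW
  have hφ : (0 : ℝ) < W.totient := by exact_mod_cast Nat.totient_pos.2 hW
  have : NeZero W := ⟨hW.ne'⟩
  by_cases hc : ρ.Coprime W
  · have hunit : IsUnit (ρ : ZMod W) := (ZMod.isUnit_iff_coprime ρ W).2 hc
    have h1 := (Pool.Agent.LibPNT.thetaAP_tendsto hunit).comp tendsto_natCast_atTop_atTop
    have h2 : Tendsto (fun x : ℕ => ((W : ℝ) / W.totient) *
        ((#{t ∈ Icc 1 x | t ≡ ρ [MOD W]} : ℝ) / x)) atTop
        (𝓝 (((W : ℝ) / W.totient) * (1 / W))) := by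
      apply Tendsto.const_mul
      have h3 : Tendsto (fun x : ℕ => (1 / W : ℝ) - 1 / (x : ℝ)) atTop (𝓝 (1 / W)) := by
        simpa using (tendsto_const_nhds (x := (1 / W : ℝ))).sub
          (tendsto_one_div_atTop_nhds_zero_nat (𝕜 := ℝ))
      have h4 : Tendsto (fun x : ℕ => (1 / W : ℝ) + 1 / (x : ℝ)) atTop (𝓝 (1 / W)) := by
        simpa using (tendsto_const_nhds (x := (1 / W : ℝ))).add
          (tendsto_one_div_atTop_nhds_zero_nat (𝕜 := ℝ))
      refine tendsto_of_tendsto_of_tendsto_of_le_of_le' h3 h4 ?_ ?_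
      · filter_upwards [eventually_gt_atTop 0] with x hx
        have hx' : (0 : ℝ) < x := by exact_mod_cast hx
        have := (abs_le.1 (count_class W ρ x hW)).1
        rw [le_div_iff₀ hx']
        have e : (1 / (W : ℝ) - 1 / x) * x = x / W - 1 := by field_simp
        rw [e]; linarith
      · filter_upwards [eventually_gt_atTop 0] with x hx
        have hx' : (0 : ℝ) < x := by exact_mod_cast hx
        have := (abs_le.1 (count_class W ρ x hW)).2
        rw [div_le_iff₀ hx']
        have e : (1 / (W : ℝ) + 1 / x) * x = x / W + 1 := by field_simp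
        rw [e]; linarith
    have h3 := h1.sub h2
    have h4 : (W.totient : ℝ)⁻¹ - (W : ℝ) / W.totient * (1 / W) = 0 := by
      field_simp; ring
    rw [h4] at h3
    refine h3.congr fun x => ?_
    simp only [Function.comp_apply]
    rw [← mul_div_assoc, ← sub_div]
    congr 1
    unfold Pool.Agent.LibPNT.thetaAP kw
    rw [Nat.floor_natCast]
    have h5 : ∀ t ∈ Icc 1 x, (if t % W = ρ then
        (if t.Prime then Real.log t else 0) - (if t.Coprime W then (W : ℝ) / W.totient else 0)
        else 0) =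
        (if t.Prime ∧ (t : ZMod W) = ρ then Real.log t else 0) -
        (if t ≡ ρ [MOD W] then (W : ℝ) / W.totient else 0) := by
      intro t _
      have h6 : ((t : ZMod W) = ρ) ↔ t % W = ρ := by
        rw [ZMod.natCast_eq_natCast_iff, modEq_iff_mod hρ]
      have h6' : t ≡ ρ [MOD W] ↔ t % W = ρ := modEq_iff_mod hρ
      simp only [h6, h6']
      by_cases ht : t % W = ρ
      · have h7 : t.Coprime W := by
          have : t.gcd W = ρ.gcd W := by
            rw [← ht, Nat.gcd_comm, Nat.gcd_rec]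
          unfold Nat.Coprime at hc ⊢
          rw [this]; exact hc
        simp [ht, h7]
      · simp [ht]
    rw [sum_congr rfl h5, sum_sub_distrib, ← sum_filter, ← sum_filter, sum_const, nsmul_eq_mul]
    ring
  · -- bounded case
    have hbd : ∀ x : ℕ, |∑ t ∈ Icc 1 x, if t % W = ρ then kw W t else 0| ≤
        ∑ t ∈ Icc 1 W, Real.log t := by
      intro x
      have h5 : ∀ t ∈ Icc 1 x, (if t % W = ρ then kw W t else 0) =
          (if t.Prime ∧ t % W = ρ then Real.log t else 0) := by
        intro t _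
        by_cases ht : t % W = ρ
        · have h7 : ¬ t.Coprime W := by
            have : t.gcd W = ρ.gcd W := by
              rw [← ht, Nat.gcd_comm, Nat.gcd_rec]
            unfold Nat.Coprime at hc ⊢
            rw [this]; exact hc
          simp [ht, kw, h7]
        · simp [ht]
      rw [sum_congr rfl h5, ← sum_filter, abs_of_nonneg
        (sum_nonneg fun t _ => Real.log_natCast_nonneg t)]
      refine sum_le_sum_of_subset_of_nonneg ?_ fun t _ _ => Real.log_natCast_nonneg t
      intro t ht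
      rw [mem_filter, mem_Icc] at ht
      obtain ⟨⟨h1, -⟩, hp, hmod⟩ := ht
      rw [mem_Icc]
      refine ⟨h1, ?_⟩
      have h7 : ¬ t.Coprime W := by
        have : t.gcd W = ρ.gcd W := by
          rw [← hmod, Nat.gcd_comm, Nat.gcd_rec]
        unfold Nat.Coprime at hc ⊢
        rw [this]; exact hc
      rw [hp.coprime_iff_not_dvd, not_not] at h7
      exact Nat.le_of_dvd hW h7
    set C := ∑ t ∈ Icc 1 W, Real.log t
    have h1 : Tendsto (fun x : ℕ => C / (x : ℝ)) atTop (𝓝 0) := tendsto_const_div_atTop_nhds_zero_nat C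
    have h2 : Tendsto (fun x : ℕ => - (C / (x : ℝ))) atTop (𝓝 0) := by simpa using h1.neg
    refine tendsto_of_tendsto_of_tendsto_of_le_of_le h2 h1 ?_ ?_
    · intro x
      have := (abs_le.1 (hbd x)).1
      simp only
      rw [← neg_div]
      exact div_le_div_of_nonneg_right this (Nat.cast_nonneg _)
    · intro x
      exact div_le_div_of_nonneg_right (abs_le.1 (hbd x)).2 (Nat.cast_nonneg _)

/-- Near a fixed rational the exponential sum of `kw` is small. -/
theorem small_arc (W : ℕ) (hW : 0 < W) (K ε : ℝ) (hK : 0 ≤ K) (hε : 0 < ε) :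
    ∀ᶠ T : ℕ in atTop, ∀ α β : UnitAddCircle, W • α = 0 → ‖β‖ ≤ K / T →
      ‖nsum (Ioc T (6 * T)) (kw W) (α + β)‖ ≤ ε * T := by
  have hW' : (0 : ℝ) < W := by exact_mod_cast hW
  have hpi := Real.pi_pos
  set η : ℝ := ε / (7 * W * (1 + 10 * Real.pi * K)) with hη
  have hη0 : 0 < η := by positivity
  set A : ℕ → ℕ → ℝ := fun ρ x => ∑ t ∈ Icc 1 x, if t % W = ρ then kw W t else 0 with hA
  have h1 : ∀ᶠ x : ℕ in atTop, ∀ ρ ∈ range W, |A ρ x| ≤ η * x := by
    rw [Filter.eventually_all_finset]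
    intro ρ hρ
    have h2 := kw_class_tendsto W hW ρ (mem_range.1 hρ)
    have h3 := (Metric.tendsto_nhds.1 h2) η hη0
    filter_upwards [h3, eventually_gt_atTop 0] with x hx hx0
    have hx' : (0 : ℝ) < x := by exact_mod_cast hx0
    rw [Real.dist_eq, sub_zero, abs_div, abs_of_pos hx', div_lt_iff₀ hx'] at hx
    exact hx.le
  obtain ⟨x0, hx0⟩ := eventually_atTop.1 h1
  filter_upwards [eventually_ge_atTop x0, eventually_gt_atTop 0] with T hT hT0 α β hα hβ
  have hT' : (0 : ℝ) < T := by exact_mod_cast hT0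
  have hmaps : ∀ t ∈ Ioc T (6 * T), t % W ∈ range W := fun t _ => mem_range.2 (Nat.mod_lt _ hW)
  unfold nsum
  rw [← sum_fiberwise_of_maps_to hmaps]
  have hρ : ∀ ρ ∈ range W, ‖∑ t ∈ Ioc T (6 * T) with t % W = ρ,
      (kw W t : ℂ) * e (t • (α + β))‖ ≤ 7 * η * T * (1 + 10 * Real.pi * K) := by
    intro ρ hρ
    have h2 : ∑ t ∈ Ioc T (6 * T) with t % W = ρ, (kw W t : ℂ) * e (t • (α + β)) =
        e (ρ • α) * ∑ t ∈ Ioc T (6 * T), ((if t % W = ρ then kw W t else 0 : ℝ) : ℂ) * e β ^ t := by
      rw [mul_sum, sum_filter]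
      refine sum_congr rfl fun t _ => ?_
      split_ifs with ht
      · have h3 : t • α = ρ • α := by
          conv_lhs => rw [← Nat.div_add_mod t W, ht, add_smul, mul_comm, mul_smul, hα, smul_zero,
            zero_add]
        rw [smul_add, e_add, h3, e_nsmul t β]
        ring
      · simp
    rw [h2, norm_mul, norm_e, one_mul]
    have h3 := abel_bound (fun t => if t % W = ρ then kw W t else 0) (e β) (norm_e β) T (6 * T)
      (by omega) (7 * η * T) (by
        intro x hx1 hx2
        have h4 : ∑ t ∈ Ioc T x, (if t % W = ρ then kw W t else 0) = A ρ x - A ρ T := by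
          rw [hA]
          simp only
          rw [eq_sub_iff_add_eq, add_comm]
          rw [← sum_union]
          · refine sum_congr ?_ fun _ _ => rfl
            ext t; simp only [mem_union, mem_Icc, mem_Ioc]; omega
          · rw [Finset.disjoint_left]
            intro t h1 h2
            rw [mem_Icc] at h1; rw [mem_Ioc] at h2; omega
        rw [h4]
        have e1 := hx0 x (hT.trans hx1) ρ hρ
        have e2 := hx0 T hT ρ hρ
        have e3 : (x : ℝ) ≤ 6 * T := by exact_mod_cast hx2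
        calc |A ρ x - A ρ T| ≤ |A ρ x| + |A ρ T| := abs_sub _ _
          _ ≤ η * x + η * T := add_le_add e1 e2
          _ ≤ η * (6 * T) + η * T := by gcongr
          _ = _ := by ring)
    refine h3.trans ?_
    apply mul_le_mul_of_nonneg_left _ (by positivity)
    have h5 := norm_e_sub_one_le β
    have h6 : (((6 * T : ℕ) : ℝ) - T) * ‖e β - 1‖ ≤ 5 * T * (2 * Real.pi * (K / T)) := by
      push_cast
      have : (6 * (T : ℝ) - T) = 5 * T := by ring
      rw [this]
      gcongr
      exact h5.trans (by gcongr)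
    have h7 : 5 * T * (2 * Real.pi * (K / T)) = 10 * Real.pi * K := by field_simp; ring
    linarith
  refine (norm_sum_le _ _).trans ((sum_le_sum hρ).trans ?_)
  rw [sum_const, card_range, nsmul_eq_mul, hη]
  apply le_of_eq
  field_simp

end LSieve
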